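import Pool.Agent.Run7.h241.PTree
import Pool.Agent.H40R2.Zd.Serre
import Pool.Agent.Y110.FJ.Stm

/-!
# Subgroups of amalgamated products: fixed points and free subgroups (helper550)
-/

set_option autoImplicit false

namespace Run7.h550.TK

open Monoid Monoid.PushoutI Run7.h241 Pool.Agent.Helper270 Pool.Agent.Helper270.Tree Pool.Agent.Y110.FJ

section push

variable {K : Type} [Group K] {G : Bool → Type} [∀ b, Group (G b)] {φ : ∀ b, K →* G b}

theorem nbP_smul (γ : PushoutI φ) (b : Bool) (c : PushoutI φ ⧸ KS φ) :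
    nbP φ b (γ • c) = γ • nbP φ b c := by
  cases b
  · show Sum.inr (qm _ _ 1 (KS_le false) (γ • c)) = γ • Sum.inr (qm _ _ 1 (KS_le false) c)
    rw [qm_smul]
    rfl
  · show Sum.inl (qm _ _ 1 (KS_le true) (γ • c)) = γ • Sum.inl (qm _ _ 1 (KS_le true) c)
    rw [qm_smul]
    rfl

theorem treeAct (d : NormalWord.Transversal φ) : TreeAct (PushoutI φ) (bip (nbP φ)) where
  isTree := bipP_tree d
  adj := by
    rintro g x y ⟨b, c, ⟨rfl, rfl⟩ | ⟨rfl, rfl⟩⟩
    · refine ⟨b, g • c, Or.inl ⟨rfl, ?_⟩⟩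
      rw [nbP_smul]
      rfl
    · refine ⟨b, g • c, Or.inr ⟨rfl, ?_⟩⟩
      rw [nbP_smul]
      rfl
  noInv := by
    rintro g x y ⟨b, c, ⟨rfl, rfl⟩ | ⟨rfl, rfl⟩⟩ ⟨h1, h2⟩
    · exact Sum.inl_ne_inr h1
    · exact Sum.inr_ne_inl h1

theorem stab (v : (PushoutI φ ⧸ KS φ) ⊕ ((PushoutI φ ⧸ GS φ true) ⊕ (PushoutI φ ⧸ GS φ false))) :
    ∃ (γ : PushoutI φ) (b : Bool), ∀ h : PushoutI φ, h • v = v → γ⁻¹ * h * γ ∈ GS φ b := by
  rcases v with c | c | c
  · refine ⟨c.out, true, fun h hv => ?_⟩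
    have h1 : h • c = c := Sum.inl_injective hv
    have h2 : h • ((c.out : PushoutI φ) : PushoutI φ ⧸ KS φ) = ((c.out : PushoutI φ) : PushoutI φ ⧸ KS φ) := by
      rw [QuotientGroup.out_eq']; exact h1
    have h3 : ((h * c.out : PushoutI φ) : PushoutI φ ⧸ KS φ) = ((c.out : PushoutI φ) : PushoutI φ ⧸ KS φ) := h2
    have h4 := QuotientGroup.eq.1 h3.symm
    have h5 := KS_le (φ := φ) true _ h4
    have h6 : (1 : PushoutI φ)⁻¹ * (c.out⁻¹ * (h * c.out)) * 1 = c.out⁻¹ * h * c.out := by group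
    rwa [h6] at h5
  · refine ⟨c.out, true, fun h hv => ?_⟩
    have h1 : h • c = c := Sum.inl_injective (Sum.inr_injective hv)
    have h2 : h • ((c.out : PushoutI φ) : PushoutI φ ⧸ GS φ true) =
        ((c.out : PushoutI φ) : PushoutI φ ⧸ GS φ true) := by
      rw [QuotientGroup.out_eq']; exact h1
    have h3 : ((h * c.out : PushoutI φ) : PushoutI φ ⧸ GS φ true) =
        ((c.out : PushoutI φ) : PushoutI φ ⧸ GS φ true) := h2
    have h4 := QuotientGroup.eq.1 h3.symm
    rwa [← mul_assoc] at h4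
  · refine ⟨c.out, false, fun h hv => ?_⟩
    have h1 : h • c = c := Sum.inr_injective (Sum.inr_injective hv)
    have h2 : h • ((c.out : PushoutI φ) : PushoutI φ ⧸ GS φ false) =
        ((c.out : PushoutI φ) : PushoutI φ ⧸ GS φ false) := by
      rw [QuotientGroup.out_eq']; exact h1
    have h3 : ((h * c.out : PushoutI φ) : PushoutI φ ⧸ GS φ false) =
        ((c.out : PushoutI φ) : PushoutI φ ⧸ GS φ false) := h2
    have h4 := QuotientGroup.eq.1 h3.symm
    rwa [← mul_assoc] at h4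

end push

/-- every action on a tree without inversions has a fixed vertex -/
def FA (H : Type) [Group H] : Prop :=
  ∀ (V : Type) [MulAction H V] (T : SimpleGraph V), TreeAct H T → ∃ v : V, ∀ h : H, h • v = v

section amg

variable {N : Type} [Group N] {A B K : Subgroup N}

/-- the two factors -/
def gf (A B : Subgroup N) (b : Bool) : Subgroup N := if b then A else B

/-- the two inclusions -/
def ph (h : Amg A B K) (b : Bool) : K →* gf A B b :=
  Subgroup.inclusion (by cases b; exacts [h.le_right, h.le_left])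

theorem exists_iso (h : Amg A B K) : ∃ e : PushoutI (ph h) ≃* N,
    ∀ (b : Bool) (x : gf A B b), e (PushoutI.of b x) = x := by
  obtain ⟨F, hF⟩ : ∃ F : PushoutI (ph h) →* N, F = PushoutI.lift (fun b => (gf A B b).subtype)
      K.subtype (fun b => by ext x; rfl) := ⟨_, rfl⟩
  have hFo : ∀ (b : Bool) (x : gf A B b), F (PushoutI.of b x) = x := by
    intro b x
    rw [hF, PushoutI.lift_of]
    rfl
  obtain ⟨F', h1, h2⟩ := h.univ (PushoutI (ph h)) (PushoutI.of (φ := ph h) true)
    (PushoutI.of (φ := ph h) false) (by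
      intro c hc
      have e1 := PushoutI.of_apply_eq_base (ph h) true (⟨c, hc⟩ : K)
      have e2 := PushoutI.of_apply_eq_base (ph h) false (⟨c, hc⟩ : K)
      exact e1.trans e2.symm)
  have e1 : F'.comp F = MonoidHom.id _ := by
    apply PushoutI.hom_ext
    · intro b
      ext x
      show F' (F (PushoutI.of b x)) = PushoutI.of b x
      rw [hFo]
      cases b
      · exact h2 x
      · exact h1 x
    · ext x
      show F' (F (PushoutI.base (ph h) x)) = PushoutI.base (ph h) x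
      rw [← PushoutI.of_apply_eq_base (ph h) true x, hFo]
      exact h1 _
  have e2 : F.comp F' = MonoidHom.id _ := by
    apply MonoidHom.eq_of_eqOn_dense (s := (A : Set N) ∪ B)
    · rw [Subgroup.closure_union, Subgroup.closure_eq, Subgroup.closure_eq]
      exact h.gen
    · rintro x (hx | hx)
      · show F (F' x) = x
        rw [show F' x = PushoutI.of (φ := ph h) true (⟨x, hx⟩ : A) from h1 ⟨x, hx⟩]
        exact hFo true ⟨x, hx⟩
      · show F (F' x) = x
        rw [show F' x = PushoutI.of (φ := ph h) false (⟨x, hx⟩ : B) from h2 ⟨x, hx⟩]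
        exact hFo false ⟨x, hx⟩
  exact ⟨{ toFun := F, invFun := F', left_inv := fun x => DFunLike.congr_fun e1 x,
           right_inv := fun x => DFunLike.congr_fun e2 x, map_mul' := F.map_mul }, hFo⟩

/-- the Bass-Serre tree of an amalgamated product -/
theorem exists_tree (h : Amg A B K) : ∃ (V : Type) (_ : MulAction N V) (T : SimpleGraph V),
    TreeAct N T ∧ ∀ v : V, ∃ n : N, (∀ x : N, x • v = v → n⁻¹ * x * n ∈ A) ∨
      (∀ x : N, x • v = v → n⁻¹ * x * n ∈ B) := by
  obtain ⟨e, he⟩ := exists_iso h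
  obtain ⟨d⟩ := NormalWord.transversal_nonempty (ph h) (fun b => by
    intro x y hxy
    exact Subgroup.inclusion_injective _ hxy)
  have ht := treeAct d
  let _ : MulAction N ((PushoutI (ph h) ⧸ KS (ph h)) ⊕
      ((PushoutI (ph h) ⧸ GS (ph h) true) ⊕ (PushoutI (ph h) ⧸ GS (ph h) false))) :=
    MulAction.compHom _ e.symm.toMonoidHom
  refine ⟨_, inferInstance, bip (nbP (ph h)), ⟨ht.isTree, fun g v w => ht.adj (e.symm g) v w,
    fun g v w => ht.noInv (e.symm g) v w⟩, fun v => ?_⟩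
  obtain ⟨γ, b, hb⟩ := stab (φ := ph h) v
  refine ⟨e γ, ?_⟩
  have key : ∀ x : N, x • v = v → (e γ)⁻¹ * x * e γ ∈ gf A B b := by
    intro x hx
    obtain ⟨y, hy⟩ := hb (e.symm x) hx
    have h1 : (e γ)⁻¹ * x * e γ = e (γ⁻¹ * e.symm x * γ) := by
      rw [map_mul, map_mul, map_inv, MulEquiv.apply_symm_apply]
    rw [h1, ← hy, he]
    exact y.2
  cases b
  · exact Or.inr key
  · exact Or.inl key

/-- an element of finite order of an amalgamated product is conjugate to an element of a factor -/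
theorem tor_conj (h : Amg A B K) {x : N} (hx : IsOfFinOrder x) :
    ∃ n : N, n⁻¹ * x * n ∈ A ∨ n⁻¹ * x * n ∈ B := by
  obtain ⟨V, _, T, hT, hV⟩ := exists_tree h
  by_cases hfix : ∃ v : V, x • v = v
  · obtain ⟨v, hv⟩ := hfix
    obtain ⟨n, hn | hn⟩ := hV v
    · exact ⟨n, Or.inl (hn x hv)⟩
    · exact ⟨n, Or.inr (hn x hv)⟩
  · exfalso
    push Not at hfix
    obtain ⟨L, l, hL⟩ := hT.exists_axis hfix
    obtain ⟨m, hm, hmx⟩ := isOfFinOrder_iff_pow_eq_one.1 hx
    have h1 := hL.smul_zpow (m : ℤ) 0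
    rw [zpow_natCast, hmx, one_smul] at h1
    have h2 := hL.line.injective hT.isTree h1
    have h3 : 0 < l := hL.pos
    have h4 : (0 : ℤ) < m * l := by positivity
    omega

/-- subgroups with property FA of an amalgamated product are conjugate into a factor -/
theorem fa_conj (h : Amg A B K) {H : Subgroup N} (hH : FA H) :
    ∃ n : N, (∀ x ∈ H, n⁻¹ * x * n ∈ A) ∨ (∀ x ∈ H, n⁻¹ * x * n ∈ B) := by
  obtain ⟨V, _, T, hT, hV⟩ := exists_tree h
  obtain ⟨v, hv⟩ := hH V T ⟨hT.isTree, fun g v w => hT.adj (g : N) v w,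
    fun g v w => hT.noInv (g : N) v w⟩
  obtain ⟨n, hn | hn⟩ := hV v
  · exact ⟨n, Or.inl fun x hx => hn x (hv ⟨x, hx⟩)⟩
  · exact ⟨n, Or.inr fun x hx => hn x (hv ⟨x, hx⟩)⟩

/-- normal subgroups that meet the factors trivially are free -/
theorem free_of (h : Amg A B K) {R : Subgroup N} [hR : R.Normal] (hA : ∀ x ∈ A, x ∈ R → x = 1)
    (hB : ∀ x ∈ B, x ∈ R → x = 1) : IsFreeGroup R := by
  obtain ⟨V, _, T, hT, hV⟩ := exists_tree h
  refine Pool.Agent.H40R2.Zd.free_of_tree (N := R) T hT.isTree (fun g v w => hT.adj (g : N) v w) ?_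
    (fun g v w => hT.noInv (g : N) v w)
  intro g v hg
  have key : ∀ n : N, n⁻¹ * (g : N) * n = 1 → g = 1 := by
    intro n hn
    apply Subtype.ext
    have h1 : (g : N) = n * (n⁻¹ * (g : N) * n) * n⁻¹ := by group
    rw [h1, hn]
    simp
  obtain ⟨n, hn | hn⟩ := hV v
  · exact key n (hA _ (hn g hg) (by simpa using hR.conj_mem (g : N) g.2 n⁻¹))
  · exact key n (hB _ (hn g hg) (by simpa using hR.conj_mem (g : N) g.2 n⁻¹))

end amg

end Run7.h550.TK
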