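import Pool.Agent.Run7.h550.TK.Sys

/-!
# Kernels given by pairwise relations between groups generated by torsion (helper550)
-/

set_option autoImplicit false

namespace Run7.h550.TK

open Pool.Agent.Y110.FJ
open Pool.Agent.Y462.SS (Closed)
open Pool.Agent.R684.FP (FbC)

variable {C : ∀ (G : Type) [Group G], Prop}
variable {N V : Type} [Group N] {Γ : SimpleGraph V} {A : V → Subgroup N}

theorem exists_retr (hA : PairSystem Γ A) {Δ : Set V} {v : V} (hv : v ∈ Δ) (htor : TorGen (A v)) :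
    ∃ r : ↥(NS A Δ) →* ↥(NS A (Δ \ {v})),
      (∀ (x : N) (hx : x ∈ NS A (Δ \ {v})), r ⟨x, NS_mono Set.diff_subset hx⟩ = ⟨x, hx⟩) ∧
      Function.Surjective r ∧
      r.ker = Subgroup.normalClosure {x : ↥(NS A Δ) | (x : N) ∈ A v ∧ IsOfFinOrder x} := by
  obtain ⟨ρ, h1, h2, h3⟩ := exists_rho hA (Δ \ {v})
  have l1 : NS A (Δ \ {v}) ≤ NS A Δ := NS_mono Set.diff_subset
  obtain ⟨r, hr⟩ : ∃ r : ↥(NS A Δ) →* ↥(NS A (Δ \ {v})),
      r = (ρ.comp (NS A Δ).subtype).codRestrict _ (fun x => h3 _) := ⟨_, rfl⟩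
  have hrv : ∀ x : ↥(NS A Δ), ((r x : ↥(NS A (Δ \ {v}))) : N) = ρ x := by
    intro x
    rw [hr]
    rfl
  have h4 : ∀ x ∈ NS A (Δ \ {v}), ρ x = x := NS_eq_on (g := MonoidHom.id N) h1
  have hfix : ∀ (x : N) (hx : x ∈ NS A (Δ \ {v})), r ⟨x, NS_mono Set.diff_subset hx⟩ = ⟨x, hx⟩ := by
    intro x hx
    apply Subtype.ext
    rw [hrv]
    exact h4 x hx
  refine ⟨r, hfix, fun y => ⟨_, hfix y y.2⟩, ?_⟩
  refine ker_eq r (Subgroup.inclusion l1) _ ?_ ?_
  · rintro x ⟨hx, -⟩
    apply Subtype.ext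
    rw [hrv]
    exact h2 v (fun h => h.2 rfl) x hx
  · refine NS_hom_ext fun u hu x hx => ?_
    by_cases huv : u = v
    · subst huv
      have h5 : r ⟨x, le_NS hu hx⟩ = 1 := by
        apply Subtype.ext
        rw [hrv]
        exact h2 u (fun h => h.2 rfl) x hx
      show QuotientGroup.mk' _ (Subgroup.inclusion l1 (r ⟨x, le_NS hu hx⟩)) =
        QuotientGroup.mk' _ (⟨x, le_NS hu hx⟩ : ↥(NS A Δ))
      rw [h5, map_one, map_one]
      refine ((QuotientGroup.eq_one_iff _).2 ?_).symm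
      refine Subgroup.closure_le_normalClosure ?_
      have h6 : (⊤ : Subgroup (A u)).map (Subgroup.inclusion (le_NS hu)) ≤
          Subgroup.closure {x : ↥(NS A Δ) | (x : N) ∈ A u ∧ IsOfFinOrder x} := by
        rw [← htor, MonoidHom.map_closure]
        refine Subgroup.closure_mono ?_
        rintro _ ⟨y, hy, rfl⟩
        exact ⟨y.2, MonoidHom.isOfFinOrder (Subgroup.inclusion (le_NS hu)) hy⟩
      exact h6 ⟨⟨x, hx⟩, Subgroup.mem_top _, rfl⟩
    · have h5 : x ∈ NS A (Δ \ {v}) := by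
        have h6 : u ∈ Δ \ {v} := ⟨hu, huv⟩
        exact le_NS h6 hx
      have h6 : r ⟨x, le_NS hu hx⟩ = ⟨x, h5⟩ := hfix x h5
      show QuotientGroup.mk' _ (Subgroup.inclusion l1 (r ⟨x, le_NS hu hx⟩)) = _
      rw [h6]
      rfl

/-- **the main theorem** -/
theorem good_sys (hC : ClosedE C) (hF : FbC C) [Finite V] (hA : PairSystem Γ A)
    (htor : ∀ v, TorGen (A v)) (hcl : ∀ Δ : Set V, Γ.IsClique Δ → Good C ↥(NS A Δ)) :
    ∀ (n : ℕ) (Δ : Set V), Δ.ncard = n → Good C ↥(NS A Δ) := by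
  intro n
  induction n using Nat.strong_induction_on with
  | _ n ih =>
    intro Δ hΔ
    by_cases hc : Γ.IsClique Δ
    · exact hcl Δ hc
    · obtain ⟨v, hv, w, hw, hvw, hadj⟩ : ∃ v ∈ Δ, ∃ w ∈ Δ, v ≠ w ∧ ¬ Γ.Adj v w := by
        by_contra hcon
        push Not at hcon
        exact hc fun v hv w hw hvw => hcon v hv w hw hvw
      have hlt : ∀ u ∈ Δ, (Δ \ {u}).ncard < n := by
        intro u hu
        rw [← hΔ]
        exact Set.ncard_diff_singleton_lt_of_mem hu (Set.toFinite Δ)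
      have g1 := ih _ (hlt v hv) _ rfl
      have g2 := ih _ (hlt w hw) _ rfl
      have ham := amg_NS hA hv hw hvw hadj
      have l1 : NS A (Δ \ {v}) ≤ NS A Δ := NS_mono Set.diff_subset
      have l2 : NS A (Δ \ {w}) ≤ NS A Δ := NS_mono Set.diff_subset
      have g1' : Good C ↥((NS A (Δ \ {v})).subgroupOf (NS A Δ)) :=
        g1.equiv (Subgroup.subgroupOfEquivOfLe l1).symm
      have g2' : Good C ↥((NS A (Δ \ {w})).subgroupOf (NS A Δ)) :=
        g2.equiv (Subgroup.subgroupOfEquivOfLe l2).symm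
      have hft := fintor_amg ham g1'.tor g2'.tor
      obtain ⟨r1, hr1, hs1, hk1⟩ := exists_retr hA hv (htor v)
      obtain ⟨r2, hr2, hs2, hk2⟩ := exists_retr hA hw (htor w)
      refine ⟨torgen_amg ham g1'.gen g2'.gen, hft, ?_⟩
      refine ext_of_homs hC hF hft r1 r2 hs1 hs2 (fun x hx => hx.2) (fun x hx => hx.2) hk1 hk2
        g1.ext g2.ext ?_
      refine free_of ham (R := r1.ker ⊓ r2.ker) ?_ ?_
      · rintro ⟨x, hx⟩ hx1 ⟨hx2, -⟩
        have hx3 : x ∈ NS A (Δ \ {v}) := hx1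
        have h1 : r1 ⟨x, hx⟩ = ⟨x, hx3⟩ := hr1 x hx3
        have h2 : r1 ⟨x, hx⟩ = 1 := hx2
        rw [h1] at h2
        have h3 : x = 1 := congrArg Subtype.val h2
        exact Subtype.ext h3
      · rintro ⟨x, hx⟩ hx1 ⟨-, hx2⟩
        have hx3 : x ∈ NS A (Δ \ {w}) := hx1
        have h1 : r2 ⟨x, hx⟩ = ⟨x, hx3⟩ := hr2 x hx3
        have h2 : r2 ⟨x, hx⟩ = 1 := hx2
        rw [h1] at h2
        have h3 : x = 1 := congrArg Subtype.val h2
        exact Subtype.ext h3

theorem NS_univ (hA : PairSystem Γ A) : NS A Set.univ = ⊤ := by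
  rw [← hA.generate, NS]
  simp

theorem good_main (hC : ClosedE C) (hF : FbC C) [Finite V] (hA : PairSystem Γ A)
    (htor : ∀ v, TorGen (A v)) (hcl : ∀ Δ : Set V, Γ.IsClique Δ → Good C ↥(NS A Δ)) :
    Good C N := by
  have h := good_sys hC hF hA htor hcl _ Set.univ rfl
  rw [NS_univ hA] at h
  exact h.equiv Subgroup.topEquiv

/-! ### graph products -/

/-- `N` is the graph product of its subgroups `A v` along the graph `Γ` -/
structure IsGraphProduct {N V : Type} [Group N] (Γ : SimpleGraph V) (A : V → Subgroup N) :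
    Prop where
  generate : ⨆ v, A v = ⊤
  comm : ∀ v w, Γ.Adj v w → ∀ a ∈ A v, ∀ b ∈ A w, a * b = b * a
  univ : ∀ (H : Type) [Group H] (f : ∀ v, A v →* H),
    (∀ v w, Γ.Adj v w → ∀ (a : A v) (b : A w), f v a * f w b = f w b * f v a) →
    ∃ F : N →* H, ∀ (v : V) (x : A v), F x = f v x

theorem IsGraphProduct.pairSystem (h : IsGraphProduct Γ A) : PairSystem Γ A where
  generate := h.generate
  retract := by
    classical
    intro v
    obtain ⟨F, hF⟩ := h.univ N (fun w => if w = v then 1 else (A w).subtype) (by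
      intro u w huw a b
      by_cases h1 : u = v
      · beta_reduce
        rw [if_pos h1]
        simp
      · beta_reduce
        rw [if_neg h1]
        by_cases h2 : w = v
        · rw [if_pos h2]
          simp
        · rw [if_neg h2]
          exact h.comm u w huw a a.2 b b.2)
    refine ⟨F, fun x hx => ?_, fun w hw x hx => ?_⟩
    · have := hF v ⟨x, hx⟩
      rw [if_pos rfl] at this
      exact this
    · have := hF w ⟨x, hx⟩
      rw [if_neg hw] at this
      exact this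
  univ := by
    intro H _ f hf
    refine h.univ H f fun v w hvw a b => ?_
    obtain ⟨F, hF1, hF2⟩ := hf v w hvw
    have h1 := hF1 a a.2
    have h2 := hF2 b b.2
    have h3 : F ⟨a, Subgroup.mem_sup_left a.2⟩ * F ⟨b, Subgroup.mem_sup_right b.2⟩ =
        F ⟨b, Subgroup.mem_sup_right b.2⟩ * F ⟨a, Subgroup.mem_sup_left a.2⟩ := by
      rw [← map_mul, ← map_mul]
      congr 1
      exact Subtype.ext (h.comm v w hvw a a.2 b b.2)
    rw [h1, h2] at h3
    exact h3

theorem comm_NS (h : IsGraphProduct Γ A) {Δ : Set V} (hc : Γ.IsClique Δ) {v : V} (hv : v ∈ Δ) :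
    ∀ a ∈ A v, ∀ b ∈ NS A (Δ \ {v}), a * b = b * a := by
  intro a ha b hb
  have h2 : NS A (Δ \ {v}) ≤ Subgroup.centralizer {a} := by
    refine NS_le fun u hu x hx => ?_
    rw [Subgroup.mem_centralizer_singleton_iff]
    exact (h.comm v u (hc hv hu.1 (fun e => hu.2 e.symm)) a ha x hx).symm
  exact (Subgroup.mem_centralizer_singleton_iff.1 (h2 hb)).symm

theorem exists_prod {D E P : Subgroup N} (hD : D ≤ P) (hE : E ≤ P)
    (hcomm : ∀ a ∈ D, ∀ b ∈ E, a * b = b * a) (r : N →* N) (hrD : ∀ x ∈ D, r x = 1)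
    (hrE : ∀ x ∈ E, r x = x) (hP : P ≤ D ⊔ E) : Nonempty (D × E ≃* P) := by
  obtain ⟨F, hFv⟩ : ∃ F : D × E →* P, ∀ p, ((F p : P) : N) = (p.1 : N) * (p.2 : N) :=
    ⟨{ toFun := fun p => ⟨(p.1 : N) * (p.2 : N), P.mul_mem (hD p.1.2) (hE p.2.2)⟩
       map_one' := Subtype.ext (mul_one _)
       map_mul' := fun p q => Subtype.ext (by
        show ((p.1 : N) * (q.1 : N)) * ((p.2 : N) * (q.2 : N)) =
          ((p.1 : N) * (p.2 : N)) * ((q.1 : N) * (q.2 : N))
        have h1 := hcomm q.1 q.1.2 p.2 p.2.2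
        calc ((p.1 : N) * (q.1 : N)) * ((p.2 : N) * (q.2 : N))
            = (p.1 : N) * ((q.1 : N) * (p.2 : N)) * (q.2 : N) := by group
          _ = (p.1 : N) * ((p.2 : N) * (q.1 : N)) * (q.2 : N) := by rw [h1]
          _ = ((p.1 : N) * (p.2 : N)) * ((q.1 : N) * (q.2 : N)) := by group) }, fun _ => rfl⟩
  refine ⟨MulEquiv.ofBijective F ⟨?_, ?_⟩⟩
  · rw [injective_iff_map_eq_one]
    rintro ⟨a, b⟩ hab
    have h2 : (a : N) * (b : N) = 1 := by
      rw [← hFv (a, b), hab]
      rfl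
    have h3 := congrArg r h2
    rw [map_mul, hrD a a.2, hrE b b.2, one_mul, map_one] at h3
    rw [h3, mul_one] at h2
    exact Prod.ext (Subtype.ext h2) (Subtype.ext h3)
  · have h2 : P ≤ F.range.map P.subtype := by
      refine hP.trans (sup_le (fun y hy => ?_) (fun y hy => ?_))
      · refine ⟨_, ⟨(⟨y, hy⟩, 1), rfl⟩, ?_⟩
        show ((F _ : P) : N) = y
        rw [hFv]
        exact mul_one y
      · refine ⟨_, ⟨(1, ⟨y, hy⟩), rfl⟩, ?_⟩
        show ((F _ : P) : N) = y
        rw [hFv]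
        exact one_mul y
    intro x
    obtain ⟨y, ⟨p, hp⟩, hyx⟩ := h2 x.2
    exact ⟨p, hp.trans (Subtype.ext hyx)⟩

theorem clique_iso (h : IsGraphProduct Γ A) {Δ : Set V} (hc : Γ.IsClique Δ) {v : V} (hv : v ∈ Δ) :
    Nonempty (A v × ↥(NS A (Δ \ {v})) ≃* ↥(NS A Δ)) := by
  obtain ⟨r, hr1, hr2, hr3⟩ := exists_rho h.pairSystem (Δ \ {v})
  refine exists_prod (le_NS hv) (NS_mono Set.diff_subset) (comm_NS h hc hv) r
    (hr2 v (fun h => h.2 rfl)) (NS_eq_on (g := MonoidHom.id N) hr1) ?_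
  refine NS_le fun u hu => ?_
  by_cases huv : u = v
  · rw [huv]
    exact le_sup_left
  · have h3 : u ∈ Δ \ {v} := ⟨hu, huv⟩
    exact le_sup_of_le_right (le_NS h3)

theorem good_empty (hC : ClosedE C) : Good C ↥(NS A ∅) := by
  have h2 : NS A ∅ = ⊥ := by
    rw [eq_bot_iff]
    exact NS_le fun v hv => absurd hv (Set.notMem_empty v)
  have h3 : Finite ↥(NS A ∅) := by
    rw [h2]
    infer_instance
  exact good_finite hC _

theorem good_clique (hC : ClosedE C) (hF : FbC C) [Finite V] (h : IsGraphProduct Γ A)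
    (hg : ∀ v, Good C (A v)) : ∀ (n : ℕ) (Δ : Set V), Δ.ncard = n → Γ.IsClique Δ →
      Good C ↥(NS A Δ) := by
  intro n
  induction n with
  | zero =>
    intro Δ hΔ _
    have h1 : Δ = ∅ := (Set.ncard_eq_zero (Set.toFinite Δ)).1 hΔ
    subst h1
    exact good_empty hC
  | succ n ih =>
    intro Δ hΔ hc
    obtain ⟨v, hv⟩ : Δ.Nonempty := Set.nonempty_of_ncard_ne_zero (by rw [hΔ]; exact n.succ_ne_zero)
    have h1 : (Δ \ {v}).ncard = n := by
      have := Set.ncard_diff_singleton_add_one hv (Set.toFinite Δ)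
      rw [hΔ] at this
      exact Nat.succ.inj this
    have g1 := ih _ h1 (hc.subset Set.diff_subset)
    obtain ⟨e⟩ := clique_iso h hc hv
    exact (Good.prod hC hF (hg v) g1).equiv e

/-- **graph products** -/
theorem good_gp (hC : ClosedE C) (hF : FbC C) [Finite V] (h : IsGraphProduct Γ A)
    (hg : ∀ v, Good C (A v)) : Good C N :=
  good_main hC hF h.pairSystem (fun v => (hg v).gen) fun Δ hΔ =>
    good_clique hC hF h hg _ Δ rfl hΔ

/-! ### even Coxeter groups -/

section cox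

variable {B W : Type} [Group W] {M : CoxeterMatrix B}

theorem cox_system (hM : ∀ i j, i ≠ j → Even (M i j)) (cs : CoxeterSystem M W) :
    PairSystem (SimpleGraph.mk (fun i j => i ≠ j ∧ M i j ≠ 0)
      ⟨fun i j h => ⟨h.1.symm, by rw [M.symmetric]; exact h.2⟩⟩ ⟨fun i h => h.1 rfl⟩)
      (fun i => Subgroup.zpowers (cs.simple i)) where
  generate := by
    rw [eq_top_iff, ← cs.subgroup_closure_range_simple, Subgroup.closure_le]
    rintro _ ⟨i, rfl⟩
    exact Subgroup.mem_iSup_of_mem i (Subgroup.mem_zpowers _)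
  retract := by
    classical
    intro v
    have hl : M.IsLiftable (fun i => if i = v then 1 else cs.simple i) := by
      intro i j
      beta_reduce
      by_cases hij : i = j
      · subst hij
        rw [M.diagonal, pow_one]
        by_cases h1 : i = v
        · rw [if_pos h1, one_mul]
        · rw [if_neg h1, cs.simple_mul_simple_self]
      · obtain ⟨k, hk⟩ := hM i j hij
        rw [hk, ← two_mul, pow_mul]
        by_cases h1 : i = v
        · rw [if_pos h1]
          by_cases h2 : j = v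
          · rw [if_pos h2]
            simp
          · rw [if_neg h2, one_mul, sq, cs.simple_mul_simple_self, one_pow]
        · rw [if_neg h1]
          by_cases h2 : j = v
          · rw [if_pos h2, mul_one, sq, cs.simple_mul_simple_self, one_pow]
          · rw [if_neg h2, ← pow_mul, two_mul, ← hk, cs.simple_mul_simple_pow]
    refine ⟨cs.lift ⟨_, hl⟩, fun x hx => ?_, fun w hw x hx => ?_⟩
    · obtain ⟨k, rfl⟩ := Subgroup.mem_zpowers_iff.1 hx
      rw [map_zpow, cs.lift_apply_simple, if_pos rfl, one_zpow]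
    · obtain ⟨k, rfl⟩ := Subgroup.mem_zpowers_iff.1 hx
      rw [map_zpow, cs.lift_apply_simple, if_neg hw]
  univ := by
    intro H _ f hf
    have hl : M.IsLiftable (fun i => f i ⟨cs.simple i, Subgroup.mem_zpowers _⟩) := by
      intro i j
      beta_reduce
      by_cases hij : i = j
      · subst hij
        rw [M.diagonal, pow_one, ← map_mul]
        have : (⟨cs.simple i, Subgroup.mem_zpowers _⟩ * ⟨cs.simple i, Subgroup.mem_zpowers _⟩ :
            Subgroup.zpowers (cs.simple i)) = 1 := Subtype.ext (cs.simple_mul_simple_self i)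
        rw [this, map_one]
      · by_cases h0 : M i j = 0
        · rw [h0, pow_zero]
        · obtain ⟨F, hF1, hF2⟩ := hf i j ⟨hij, h0⟩
          rw [← hF1 _ (Subgroup.mem_zpowers _), ← hF2 _ (Subgroup.mem_zpowers _), ← map_mul,
            ← map_pow]
          have : (⟨cs.simple i, Subgroup.mem_sup_left (Subgroup.mem_zpowers _)⟩ *
              ⟨cs.simple j, Subgroup.mem_sup_right (Subgroup.mem_zpowers _)⟩ :
              ↥(Subgroup.zpowers (cs.simple i) ⊔ Subgroup.zpowers (cs.simple j))) ^ M i j = 1 :=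
            Subtype.ext (cs.simple_mul_simple_pow i j)
          rw [this, map_one]
    refine ⟨cs.lift ⟨_, hl⟩, ?_⟩
    rintro v ⟨x, hx⟩
    obtain ⟨k, rfl⟩ := Subgroup.mem_zpowers_iff.1 hx
    show cs.lift ⟨_, hl⟩ (cs.simple v ^ k) = _
    rw [map_zpow, cs.lift_apply_simple]
    beta_reduce
    rw [← map_zpow]
    rfl

/-- **even Coxeter groups** -/
theorem good_cox (hC : ClosedE C) (hF : FbC C) [Finite B] (hM : ∀ i j, i ≠ j → Even (M i j))
    (cs : CoxeterSystem M W) (hcl : ∀ Δ : Set B, (∀ i ∈ Δ, ∀ j ∈ Δ, M i j ≠ 0) →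
      Good C ↥(Subgroup.closure (cs.simple '' Δ))) : Good C W := by
  refine good_main hC hF (cox_system hM cs) ?_ ?_
  · intro v
    have h1 : IsOfFinOrder (cs.simple v) := isOfFinOrder_iff_pow_eq_one.2
      ⟨2, by norm_num, by rw [sq, cs.simple_mul_simple_self]⟩
    have : Finite (Subgroup.zpowers (cs.simple v)) := (finite_zpowers.2 h1).to_subtype
    exact (good_finite hC _).gen
  · intro Δ hΔ
    have h1 : NS (fun i => Subgroup.zpowers (cs.simple i)) Δ = Subgroup.closure (cs.simple '' Δ) := by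
      apply le_antisymm
      · refine NS_le fun i hi => ?_
        rw [Subgroup.zpowers_le]
        exact Subgroup.subset_closure ⟨i, hi, rfl⟩
      · rw [Subgroup.closure_le]
        rintro _ ⟨i, hi, rfl⟩
        exact le_NS (A := fun i => Subgroup.zpowers (cs.simple i)) hi (Subgroup.mem_zpowers _)
    rw [h1]
    refine hcl Δ fun i hi j hj => ?_
    by_cases hij : i = j
    · subst hij
      rw [M.diagonal]
      exact one_ne_zero
    · exact (hΔ hi hj hij).2

end cox

end Run7.h550.TK
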