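import Pool.Agent.Run7.h550.TK.Amg2

/-!
# Finite vertex groups are irrelevant (helper550)
-/

set_option autoImplicit false

namespace Run7.h550.TK

open Pool.Agent.Y110.FJ
open Pool.Agent.Y462.SS (Closed)
open Pool.Agent.R684.FP (FbC)

variable {C : ∀ (G : Type) [Group G], Prop}

/-- finitely many homomorphisms to a finite group -/
theorem finite_homs (N F : Type) [Group N] [Group F] [Finite F] (h : Group.FG N) :
    Finite (N →* F) := by
  obtain ⟨S, hS⟩ := Group.fg_def.1 h
  refine Finite.of_injective (fun (f : N →* F) (s : S) => f s) ?_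
  intro f g hfg
  refine MonoidHom.eq_of_eqOn_dense hS ?_
  intro s hs
  exact congrFun hfg ⟨s, hs⟩

/-- the intersection of the kernels of all homomorphisms to `F` -/
def KH (N F : Type) [Group N] [Group F] : Subgroup N := ⨅ f : N →* F, f.ker

theorem mem_KH {N F : Type} [Group N] [Group F] {x : N} : x ∈ KH N F ↔ ∀ f : N →* F, f x = 1 := by
  rw [KH, Subgroup.mem_iInf]
  rfl

instance (N F : Type) [Group N] [Group F] : (KH N F).Normal := by
  refine ⟨fun x hx g => ?_⟩
  rw [mem_KH] at hx ⊢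
  intro f
  rw [map_mul, map_mul, hx, mul_one, map_inv, mul_inv_cancel]

theorem vchar_KH (N F : Type) [Group N] [Group F] : VChar (KH N F) := by
  intro φ
  refine ⟨1, one_pos, fun x => ?_⟩
  rw [pow_one, mem_KH, mem_KH]
  constructor
  · intro h f
    exact h (f.comp φ.toMonoidHom)
  · intro h f
    have := h (f.comp (φ⁻¹ : MulAut N).toMonoidHom)
    have h2 : f ((φ⁻¹ : MulAut N) (φ x)) = 1 := this
    rwa [MulAut.inv_apply_self] at h2

theorem finite_quot_KH (N F : Type) [Group N] [Group F] [Finite F] (h : Group.FG N) :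
    Finite (N ⧸ KH N F) := by
  have := finite_homs N F h
  obtain ⟨f, hf⟩ : ∃ f : N →* ((N →* F) → F), ∀ x g, f x g = g x :=
    ⟨{ toFun := fun x g => g x
       map_one' := by
         funext g
         exact map_one g
       map_mul' := fun x y => by
         funext g
         exact map_mul g x y }, fun _ _ => rfl⟩
  have hk : f.ker = KH N F := by
    ext x
    rw [MonoidHom.mem_ker, mem_KH]
    constructor
    · intro h g
      rw [← hf, h]
      rfl
    · intro h
      funext g
      rw [hf]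
      exact h g
  have h1 : Finite (N ⧸ f.ker) :=
    Finite.of_injective _ (QuotientGroup.kerLift_injective f)
  rw [hk] at h1
  exact h1

theorem fg_NS {N V : Type} [Group N] {A : V → Subgroup N} [Finite V]
    (hfg : ∀ v, Group.FG (A v)) (Δ : Set V) : Group.FG ↥(NS A Δ) := by
  have h1 : ∀ v, (A v).FG := fun v => (Group.fg_iff_subgroup_fg _).1 (hfg v)
  have h2 : (NS A Δ).FG := by
    choose S hS using fun v => (Subgroup.fg_iff (A v)).1 (h1 v)
    rw [Subgroup.fg_iff]
    refine ⟨⋃ v ∈ Δ, S v, ?_, ?_⟩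
    · rw [Subgroup.closure_iUnion, NS]
      refine iSup_congr fun v => ?_
      rw [Subgroup.closure_iUnion]
      exact iSup_congr fun _ => (hS v).1
    · exact (Set.toFinite Δ).biUnion fun v _ => (hS v).2
  exact (Group.fg_iff_subgroup_fg _).2 h2

variable {N V : Type} [Group N] {Γ : SimpleGraph V} {A : V → Subgroup N}

/-- **adding a vertex with a finite group** -/
theorem add_vertex (hC : ClosedE C) (hF : FbC C) [Finite V] (h : IsGraphProduct Γ A)
    (hfg : ∀ v, Group.FG (A v)) (hft : ∀ v, FinTor (A v)) {Δ : Set V} {v : V} (hv : v ∈ Δ)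
    (hfin : Finite (A v)) (hE : Ext C ↥(NS A (Δ \ {v}))) : Ext C ↥(NS A Δ) := by
  have htor : TorGen (A v) := by
    rw [TorGen, eq_top_iff]
    intro x _
    exact Subgroup.subset_closure (isOfFinOrder_of_finite x)
  obtain ⟨r, hr, hs, hk⟩ := exists_retr h.pairSystem hv htor
  have hN : FinTor ↥(NS A Δ) := fintor_NS h hft _ Δ rfl
  have hfgΔ := fg_NS (A := A) hfg Δ
  have := finite_quot_KH ↥(NS A Δ) (A v) hfgΔ
  have hvc : VChar r.ker := by
    rw [hk]
    exact vchar_of_tor hN fun x hx => hx.2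
  -- the amalgamated product
  obtain ⟨L, hL⟩ : ∃ L : Set V, L = {u | u ∈ Δ ∧ (u = v ∨ Γ.Adj v u)} := ⟨_, rfl⟩
  have hLΔ : L ⊆ Δ := by
    rw [hL]
    exact fun u hu => hu.1
  have hvL : v ∈ L := by
    rw [hL]
    exact ⟨hv, Or.inl rfl⟩
  have ham := amg_gen h.pairSystem (Δ := Δ) (Δ1 := Δ \ {v}) (Δ2 := L) Set.diff_subset hLΔ (by
    intro u hu
    by_cases huv : u = v
    · exact Or.inr (huv ▸ hvL)
    · exact Or.inl ⟨hu, huv⟩) (by
    intro u hu u' hu' huu
    by_cases h1 : u = v
    · right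
      rw [h1]
      refine ⟨hvL, ?_⟩
      rw [hL]
      exact ⟨hu', Or.inr (h1 ▸ huu)⟩
    · by_cases h2 : u' = v
      · right
        rw [h2]
        refine ⟨?_, hvL⟩
        rw [hL]
        exact ⟨hu, Or.inr (h2 ▸ huu.symm)⟩
      · exact Or.inl ⟨⟨hu, h1⟩, ⟨hu', h2⟩⟩)
  refine ext_of_two hC hF (R1 := r.ker) (R2 := KH ↥(NS A Δ) (A v)) hvc (vchar_KH _ _)
    (ext_equiv (QuotientGroup.quotientKerEquivOfSurjective r hs).symm hE) (ext_finite hC _) ?_
  refine free_of ham (R := r.ker ⊓ KH ↥(NS A Δ) (A v)) ?_ ?_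
  · rintro ⟨x, hx⟩ hx1 ⟨hx2, -⟩
    have hx3 : x ∈ NS A (Δ \ {v}) := hx1
    have h1 : r ⟨x, hx⟩ = ⟨x, hx3⟩ := hr x hx3
    have h2 : r ⟨x, hx⟩ = 1 := hx2
    rw [h1] at h2
    have h3 : x = 1 := congrArg Subtype.val h2
    exact Subtype.ext h3
  · rintro ⟨x, hx⟩ hx1 ⟨hx2, hx3⟩
    have hx4 : x ∈ NS A L := hx1
    -- the element is a product
    have hdec : NS A L ≤ A v ⊔ NS A (L \ {v}) := by
      refine NS_le fun u hu => ?_
      by_cases huv : u = v
      · rw [huv]
        exact le_sup_left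
      · have h3 : u ∈ L \ {v} := ⟨hu, huv⟩
        exact le_sup_of_le_right (le_NS h3)
    have hcomm : ∀ a ∈ A v, ∀ b ∈ NS A (L \ {v}), a * b = b * a := by
      intro a ha b hb
      have h2 : NS A (L \ {v}) ≤ Subgroup.centralizer {a} := by
        refine NS_le fun u hu y hy => ?_
        rw [Subgroup.mem_centralizer_singleton_iff]
        have h4 : Γ.Adj v u := by
          have h5 := hu.1
          rw [hL] at h5
          exact h5.2.resolve_left hu.2
        exact (h.comm v u h4 a ha y hy).symm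
      exact (Subgroup.mem_centralizer_singleton_iff.1 (h2 hb)).symm
    have hprod : ∃ a ∈ A v, ∃ b ∈ NS A (L \ {v}), x = a * b := by
      have h1 : A v ⊔ NS A (L \ {v}) ≤
          { carrier := {x | ∃ a ∈ A v, ∃ b ∈ NS A (L \ {v}), x = a * b}
            one_mem' := ⟨1, one_mem _, 1, one_mem _, (mul_one 1).symm⟩
            mul_mem' := by
              rintro _ _ ⟨a, ha, b, hb, rfl⟩ ⟨a', ha', b', hb', rfl⟩
              refine ⟨a * a', mul_mem ha ha', b * b', mul_mem hb hb', ?_⟩
              have h1 := hcomm a' ha' b hb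
              calc a * b * (a' * b') = a * (b * a') * b' := by group
                _ = a * (a' * b) * b' := by rw [h1]
                _ = a * a' * (b * b') := by group
            inv_mem' := by
              rintro _ ⟨a, ha, b, hb, rfl⟩
              refine ⟨a⁻¹, inv_mem ha, b⁻¹, inv_mem hb, ?_⟩
              rw [mul_inv_rev, hcomm a⁻¹ (inv_mem ha) b⁻¹ (inv_mem hb)] } := by
        refine sup_le (fun y hy => ?_) (fun y hy => ?_)
        · exact ⟨y, hy, 1, one_mem _, (mul_one y).symm⟩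
        · exact ⟨1, one_mem _, y, hy, (one_mul y).symm⟩
      exact h1 (hdec hx4)
    obtain ⟨a, ha, b, hb, rfl⟩ := hprod
    have hbΔ : b ∈ NS A (Δ \ {v}) := NS_mono (Set.diff_subset_diff_left hLΔ) hb
    have haΔ : a ∈ NS A Δ := le_NS hv ha
    have hbΔ' : b ∈ NS A Δ := NS_mono Set.diff_subset hbΔ
    have h1 : r ⟨a * b, hx⟩ = ⟨b, hbΔ⟩ := by
      have h2 : (⟨a * b, hx⟩ : ↥(NS A Δ)) = ⟨a, haΔ⟩ * ⟨b, hbΔ'⟩ := rfl
      have h3 : r ⟨a, haΔ⟩ = 1 := by
        rw [← MonoidHom.mem_ker, hk]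
        refine Subgroup.subset_normalClosure ⟨ha, ?_⟩
        exact MonoidHom.isOfFinOrder (Subgroup.inclusion (le_NS hv))
          (isOfFinOrder_of_finite (⟨a, ha⟩ : A v))
      rw [h2, map_mul, h3, one_mul, hr b hbΔ]
    have h2 : r ⟨a * b, hx⟩ = 1 := hx2
    rw [h1] at h2
    have hb1 : b = 1 := congrArg Subtype.val h2
    subst hb1
    -- the projection to the finite group
    obtain ⟨ρ, hρ1, hρ2, hρ3⟩ := exists_rho h.pairSystem ({v} : Set V)
    have h5 : ∀ y, ρ y ∈ A v := by
      intro y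
      have h6 : NS A {v} ≤ A v := NS_le fun u hu => by
        rw [Set.mem_singleton_iff.1 hu]
      exact h6 (hρ3 y)
    have h6 := mem_KH.1 hx3 ((ρ.comp (NS A Δ).subtype).codRestrict (A v) fun y => h5 _)
    have h7 : ρ (a * 1) = 1 := congrArg Subtype.val h6
    rw [mul_one, hρ1 v rfl a ha] at h7
    apply Subtype.ext
    show a * 1 = 1
    rw [h7, mul_one]

/-- **finite vertex groups are irrelevant** -/
theorem finV (hC : ClosedE C) (hF : FbC C) [Finite V] (h : IsGraphProduct Γ A)
    (hfg : ∀ v, Group.FG (A v)) (hft : ∀ v, FinTor (A v)) (U : Set V)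
    (hU : ∀ v, v ∉ U → Finite (A v)) (hE : Ext C ↥(NS A U)) :
    ∀ (n : ℕ) (T : Set V), T.ncard = n → Disjoint T U → Ext C ↥(NS A (T ∪ U)) := by
  intro n
  induction n with
  | zero =>
    intro T hT _
    have h1 : T = ∅ := (Set.ncard_eq_zero (Set.toFinite T)).1 hT
    subst h1
    rw [Set.empty_union]
    exact hE
  | succ n ih =>
    intro T hT hd
    obtain ⟨v, hv⟩ : T.Nonempty := Set.nonempty_of_ncard_ne_zero (by rw [hT]; exact n.succ_ne_zero)
    have h1 : (T \ {v}).ncard = n := by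
      have := Set.ncard_diff_singleton_add_one hv (Set.toFinite T)
      rw [hT] at this
      exact Nat.succ.inj this
    have hvU : v ∉ U := fun hvU => Set.disjoint_left.1 hd hv hvU
    have h2 := ih _ h1 (hd.mono_left Set.diff_subset)
    have h3 : (T ∪ U) \ {v} = (T \ {v}) ∪ U := by
      ext u
      constructor
      · rintro ⟨h4 | h4, h5⟩
        · exact Or.inl ⟨h4, h5⟩
        · exact Or.inr h4
      · rintro (⟨h4, h5⟩ | h4)
        · exact ⟨Or.inl h4, h5⟩
        · exact ⟨Or.inr h4, fun h5 => hvU ((Set.mem_singleton_iff.1 h5) ▸ h4)⟩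
    refine add_vertex hC hF h hfg hft (Or.inl hv) (hU v hvU) ?_
    rw [h3]
    exact h2

theorem finV_main (hC : ClosedE C) (hF : FbC C) [Finite V] (h : IsGraphProduct Γ A)
    (hfg : ∀ v, Group.FG (A v)) (hft : ∀ v, FinTor (A v)) (U : Set V)
    (hU : ∀ v, v ∉ U → Finite (A v)) (hE : Ext C ↥(NS A U)) : Ext C N := by
  have h1 := finV hC hF h hfg hft U hU hE _ Uᶜ rfl (Set.disjoint_left.2 fun v h1 h2 => h1 h2)
  rw [Set.compl_union_self, NS_univ h.pairSystem] at h1
  exact ext_equiv Subgroup.topEquiv h1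

end Run7.h550.TK
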