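import Pool.Agent.Run7.h550.TK.KS
import Pool.Agent.Run7.h550.TK.FinV

/-!
# Graph products of groups with property FA: the theorems (helper550)
-/

set_option autoImplicit false

namespace Run7.h550.TK

open Pool.Agent.Y110.FJ
open Pool.Agent.Y462.SS (Closed)
open Pool.Agent.R684.FP (FbC free_ext cyc_real)

variable {C : ∀ (G : Type) [Group G], Prop}

theorem centreless_equiv {H H' : Type} [Group H] [Group H'] (e : H ≃* H') (h : Centreless H) :
    Centreless H' := by
  intro z hz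
  apply e.symm.injective
  rw [map_one]
  refine h _ fun x => ?_
  have h6 := congrArg e.symm (hz (e x))
  rw [map_mul, map_mul, MulEquiv.symm_apply_apply] at h6
  exact h6

theorem indec_equiv {H H' : Type} [Group H] [Group H'] (e : H ≃* H') (h : Indec H) :
    Indec H' := by
  intro P Q hsup hinf hcm
  have h7 := h (P.map e.symm.toMonoidHom) (Q.map e.symm.toMonoidHom) ?_ ?_ ?_
  · rcases h7 with h7 | h7
    · left
      exact (Subgroup.map_eq_bot_iff_of_injective _ e.symm.injective).1 h7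
    · right
      exact (Subgroup.map_eq_bot_iff_of_injective _ e.symm.injective).1 h7
  · rw [← Subgroup.map_sup, hsup, ← MonoidHom.range_eq_map]
    exact MonoidHom.range_eq_top.2 e.symm.surjective
  · rw [← Subgroup.map_inf _ _ _ e.symm.injective, hinf, Subgroup.map_bot]
  · rintro _ ⟨a, ha, rfl⟩ _ ⟨b, hb, rfl⟩
    rw [← map_mul, ← map_mul, hcm a ha b hb]

/-- groups all of whose automorphisms have inner powers -/
theorem ext_inner (hC : ClosedE C) {A : Type} [Group A] (hA : C A)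
    (h : ∀ φ : MulAut A, ∃ k : ℕ, 0 < k ∧ ∃ a : A, φ ^ k = MulAut.conj a) : Ext C A := by
  refine ext_of_pow hC (fun φ => ∃ a : A, φ = MulAut.conj a) h ?_
  rintro φ ⟨a, ha⟩
  obtain ⟨s, hs⟩ : ∃ s : Multiplicative ℤ →* A × Multiplicative ℤ,
      ∀ n, s n = (a ^ n.toAdd, n) := by
    refine ⟨(zpowersHom A a).prod (MonoidHom.id _), fun n => ?_⟩
    rfl
  obtain ⟨f, hf⟩ : ∃ f : A ⋊[zpowersHom (MulAut A) φ] Multiplicative ℤ →* A × Multiplicative ℤ,
      ∀ x, f x = (x.left, 1) * s x.right := by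
    refine ⟨SemidirectProduct.lift (MonoidHom.inl A (Multiplicative ℤ)) s ?_, fun x => ?_⟩
    · intro n
      ext x
      · show (((zpowersHom (MulAut A) φ) n) x) = (s n * (x, 1) * (s n)⁻¹).1
        rw [hs]
        show ((φ ^ n.toAdd) x) = a ^ n.toAdd * x * (a ^ n.toAdd)⁻¹
        rw [ha, ← map_zpow, MulAut.conj_apply]
      · show (1 : Multiplicative ℤ) = (s n * (x, 1) * (s n)⁻¹).2
        rw [hs]
        show (1 : Multiplicative ℤ) = n * 1 * n⁻¹
        simp
    · rfl
  refine hC.base.of_injective _ _ f ?_ (hC.base.prod _ _ hA hC.base.int)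
  rw [injective_iff_map_eq_one]
  intro x hx
  rw [hf, hs] at hx
  have h1 : x.right = 1 := by
    have := congrArg Prod.snd hx
    have h2 : (1 : Multiplicative ℤ) * x.right = 1 := this
    rwa [one_mul] at h2
  have h3 : x.left = 1 := by
    have := congrArg Prod.fst hx
    have h2 : x.left * a ^ (x.right).toAdd = 1 := this
    rw [h1, toAdd_one, zpow_zero, mul_one] at h2
    exact h2
  exact SemidirectProduct.ext h3 h1

variable {N V : Type} [Group N] {Γ : SimpleGraph V} {A : V → Subgroup N}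

theorem ext_sub_clique (hC : ClosedE C) (h : IsGraphProduct Γ A) {Δ K : Set V} (hΔ : Δ ⊆ K)
    (hK : Γ.IsClique K) (hE : Ext C ↥(NS A K)) : Ext C ↥(NS A Δ) := by
  obtain ⟨ρ, h1, h2, -⟩ := exists_rho h.pairSystem Δ
  obtain ⟨e⟩ := exists_prod (D := NS A (K \ Δ)) (E := NS A Δ) (P := NS A K)
    (NS_mono Set.diff_subset) (NS_mono hΔ) (NS_comm h (fun u hu w hw =>
      hK hu.1 (hΔ hw) (fun e => hu.2 (e ▸ hw)))) ρ
    (NS_eq_on (g := (1 : N →* N)) fun v hv x hx => h2 v hv.2 x hx)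
    (rho_fix h1) (by
      refine NS_le fun v hv => ?_
      by_cases hvΔ : v ∈ Δ
      · exact le_sup_of_le_right (le_NS hvΔ)
      · have h3 : v ∈ K \ Δ := ⟨hv, hvΔ⟩
        exact le_sup_of_le_left (le_NS h3))
  exact ext_factor hC (ext_equiv (e.symm.trans MulEquiv.prodComm) hE)

/-- **graph products of groups with property FA** -/
theorem fa_main (hC : ClosedE C) (hF : FbC C) [Finite V] (h : IsGraphProduct Γ A)
    (hne : ∀ v, A v ≠ ⊥) (hfa : ∀ v, FA (A v))
    (hcl : ∀ K : Set V, Maximal Γ.IsClique K → Ext C ↥(NS A K)) : Ext C N := by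
  refine fa_ext hC hF _ V N Γ A rfl h hne hfa fun Δ hΔ => ?_
  obtain ⟨K, h1, h2⟩ := exists_max hΔ
  exact ext_sub_clique hC h h1 h2.prop (hcl K h2)

theorem rigid_main (hC : ClosedE C) (hF : FbC C) [Finite V] (h : IsGraphProduct Γ A)
    (hne : ∀ v, A v ≠ ⊥) (hfa : ∀ v, FA (A v)) (hz : ∀ v, Centreless (A v))
    (hi : ∀ v, Indec (A v)) (hE : ∀ v, Ext C (A v)) : Ext C N := by
  refine fa_ext hC hF _ V N Γ A rfl h hne hfa fun Δ hΔ => ?_
  have e : ∀ u : Δ, A u ≃* (A u).subgroupOf (NS A Δ) :=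
    fun u => (Subgroup.subgroupOfEquivOfLe (le_NS u.2)).symm
  refine ext_dp hC _ Δ ↥(NS A Δ) (Γ.induce Δ) (fun u => (A u).subgroupOf (NS A Δ)) rfl
    (gp_restr h Δ) ?_ ?_ ?_ ?_ ?_
  · intro u w huw
    exact hΔ u.2 w.2 (fun e => huw (Subtype.ext e))
  · intro u hu
    rw [Subgroup.subgroupOf_eq_bot] at hu
    exact hne u (hu.eq_bot_of_le (le_NS u.2))
  · exact fun u => centreless_equiv (e u) (hz u)
  · exact fun u => indec_equiv (e u) (hi u)
  · exact fun u => ext_equiv (e u) (hE u)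

theorem mixed_main (hC : ClosedE C) (hF : FbC C) [Finite V] (h : IsGraphProduct Γ A)
    (hfg : ∀ v, Group.FG (A v)) (hft : ∀ v, FinTor (A v))
    (hA : ∀ v, Finite (A v) ∨ (FA (A v) ∧ Centreless (A v) ∧ Indec (A v) ∧ Ext C (A v))) :
    Ext C N := by
  obtain ⟨U, hU⟩ : ∃ U : Set V, U = {v | ¬ Finite (A v)} := ⟨_, rfl⟩
  have hUm : ∀ v, v ∈ U ↔ ¬ Finite (A v) := by
    intro v
    rw [hU]
    rfl
  refine finV_main hC hF h hfg hft U (fun v hv => by
    by_contra h1
    exact hv ((hUm v).2 h1)) ?_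
  have hUA : ∀ u : U, FA (A u) ∧ Centreless (A u) ∧ Indec (A u) ∧ Ext C (A u) := fun u =>
    (hA u).resolve_left ((hUm u).1 u.2)
  have e : ∀ u : U, A u ≃* (A u).subgroupOf (NS A U) :=
    fun u => (Subgroup.subgroupOfEquivOfLe (le_NS u.2)).symm
  refine rigid_main hC hF (gp_restr h U) ?_ ?_ ?_ ?_ ?_
  · intro u hu
    rw [Subgroup.subgroupOf_eq_bot] at hu
    have h1 := hu.eq_bot_of_le (le_NS u.2)
    apply (hUm u).1 u.2
    rw [h1]
    infer_instance
  · exact fun u => fa_equiv (e u) (hUA u).1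
  · exact fun u => centreless_equiv (e u) (hUA u).2.1
  · exact fun u => indec_equiv (e u) (hUA u).2.2.1
  · exact fun u => ext_equiv (e u) (hUA u).2.2.2

end Run7.h550.TK
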