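import Pool.Agent.Run7.h550.TK.Main

/-!
# Amalgamated products for coverings of the graph by two subgraphs (helper550)
-/

set_option autoImplicit false

namespace Run7.h550.TK

open Pool.Agent.Y110.FJ
open Pool.Agent.Y462.SS (Closed)
open Pool.Agent.R684.FP (FbC)

variable {C : ∀ (G : Type) [Group G], Prop}
variable {N V : Type} [Group N] {Γ : SimpleGraph V} {A : V → Subgroup N}

/-- **the amalgamated product for a covering by two full subgraphs** -/
theorem amg_gen (hA : PairSystem Γ A) {Δ Δ1 Δ2 : Set V} (h1Δ : Δ1 ⊆ Δ) (h2Δ : Δ2 ⊆ Δ)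
    (hcov : Δ ⊆ Δ1 ∪ Δ2) (hadj : ∀ u ∈ Δ, ∀ u' ∈ Δ, Γ.Adj u u' →
      (u ∈ Δ1 ∧ u' ∈ Δ1) ∨ (u ∈ Δ2 ∧ u' ∈ Δ2)) : Amg ((NS A Δ1).subgroupOf (NS A Δ))
      ((NS A Δ2).subgroupOf (NS A Δ)) ((NS A (Δ1 ∩ Δ2)).subgroupOf (NS A Δ)) := by
  classical
  have l1 : NS A Δ1 ≤ NS A Δ := NS_mono h1Δ
  have l2 : NS A Δ2 ≤ NS A Δ := NS_mono h2Δ
  have l12 : NS A (Δ1 ∩ Δ2) ≤ NS A Δ := NS_mono (Set.inter_subset_left.trans h1Δ)
  have l3 : NS A (Δ1 ∩ Δ2) ≤ NS A Δ1 := NS_mono Set.inter_subset_left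
  have l4 : NS A (Δ1 ∩ Δ2) ≤ NS A Δ2 := NS_mono Set.inter_subset_right
  refine ⟨?_, ?_, ?_, ?_⟩
  · intro x hx
    exact l3 hx
  · intro x hx
    exact l4 hx
  · rw [eq_top_iff]
    intro x _
    have h1 : NS A Δ ≤ ((NS A Δ1).subgroupOf (NS A Δ) ⊔
        (NS A Δ2).subgroupOf (NS A Δ)).map (NS A Δ).subtype := by
      refine NS_le fun u hu y hy => ?_
      rcases hcov hu with h3 | h3
      · have h2 : y ∈ NS A Δ1 := le_NS h3 hy
        exact ⟨⟨y, le_NS hu hy⟩, Subgroup.mem_sup_left h2, rfl⟩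
      · have h2 : y ∈ NS A Δ2 := le_NS h3 hy
        exact ⟨⟨y, le_NS hu hy⟩, Subgroup.mem_sup_right h2, rfl⟩
    obtain ⟨y, hy, hyx⟩ := h1 x.2
    have : y = x := Subtype.ext hyx
    exact this ▸ hy
  · intro H _ f g hfg
    obtain ⟨f', hf'⟩ : ∃ f' : ↥(NS A Δ1) →* H,
        f' = f.comp (Subgroup.subgroupOfEquivOfLe l1).symm.toMonoidHom := ⟨_, rfl⟩
    obtain ⟨g', hg'⟩ : ∃ g' : ↥(NS A Δ2) →* H,
        g' = g.comp (Subgroup.subgroupOfEquivOfLe l2).symm.toMonoidHom := ⟨_, rfl⟩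
    have hf1 : ∀ (x : N) (hx : x ∈ NS A Δ1), f' ⟨x, hx⟩ =
        f ⟨(⟨x, l1 hx⟩ : ↥(NS A Δ)), hx⟩ := by
      intro x hx
      rw [hf']
      rfl
    have hg1 : ∀ (x : N) (hx : x ∈ NS A Δ2), g' ⟨x, hx⟩ =
        g ⟨(⟨x, l2 hx⟩ : ↥(NS A Δ)), hx⟩ := by
      intro x hx
      rw [hg']
      rfl
    have hfg' : ∀ (x : N) (hx : x ∈ NS A (Δ1 ∩ Δ2)), f' ⟨x, l3 hx⟩ = g' ⟨x, l4 hx⟩ := by
      intro x hx
      rw [hf1, hg1]
      exact hfg ⟨x, l12 hx⟩ hx
    -- the family of homomorphisms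
    obtain ⟨F0, hF1, hF2, hF3⟩ : ∃ F0 : ∀ u, A u →* H,
        (∀ (u : V) (hu : u ∈ Δ1) (x : N) (hx : x ∈ A u), F0 u ⟨x, hx⟩ = f' ⟨x, le_NS hu hx⟩) ∧
        (∀ (u : V) (hu : u ∈ Δ2) (x : N) (hx : x ∈ A u), F0 u ⟨x, hx⟩ = g' ⟨x, le_NS hu hx⟩) ∧
        (∀ u, u ∉ Δ → F0 u = 1) := by
      refine ⟨fun u => if h1 : u ∈ Δ1 then f'.comp (Subgroup.inclusion (le_NS h1)) else
        if h2 : u ∈ Δ2 then g'.comp (Subgroup.inclusion (le_NS h2)) else 1, ?_, ?_, ?_⟩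
      · intro u hu x hx
        beta_reduce
        rw [dif_pos hu]
        rfl
      · intro u hu x hx
        beta_reduce
        by_cases h1 : u ∈ Δ1
        · rw [dif_pos h1]
          have h3 : u ∈ Δ1 ∩ Δ2 := ⟨h1, hu⟩
          exact hfg' x (le_NS h3 hx)
        · rw [dif_neg h1, dif_pos hu]
          rfl
      · intro u hu
        beta_reduce
        rw [dif_neg (fun h : u ∈ Δ1 => hu (h1Δ h)), dif_neg (fun h : u ∈ Δ2 => hu (h2Δ h))]
    obtain ⟨F, hF⟩ := hA.univ H F0 (by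
      intro u u' huu
      by_cases hu : u ∈ Δ
      · by_cases hu' : u' ∈ Δ
        · rcases hadj u hu u' hu' huu with h1 | h2
          · have hle : A u ⊔ A u' ≤ NS A Δ1 := sup_le (le_NS h1.1) (le_NS h1.2)
            refine ⟨f'.comp (Subgroup.inclusion hle), fun x hx => ?_, fun x hx => ?_⟩
            · rw [hF1 u h1.1 x hx]
              rfl
            · rw [hF1 u' h1.2 x hx]
              rfl
          · have hle : A u ⊔ A u' ≤ NS A Δ2 := sup_le (le_NS h2.1) (le_NS h2.2)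
            refine ⟨g'.comp (Subgroup.inclusion hle), fun x hx => ?_, fun x hx => ?_⟩
            · rw [hF2 u h2.1 x hx]
              rfl
            · rw [hF2 u' h2.2 x hx]
              rfl
        · obtain ⟨r, hr1, hr2⟩ := pair_proj hA huu.ne
          refine ⟨(F0 u).comp r, fun x hx => ?_, fun x hx => ?_⟩
          · show F0 u (r _) = _
            rw [hr1 x hx]
          · show F0 u (r _) = _
            rw [hr2 x hx, map_one, hF3 u' hu']
            rfl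
      · by_cases hu' : u' ∈ Δ
        · obtain ⟨r, hr1, hr2⟩ := pair_proj hA huu.ne'
          have hle : A u ⊔ A u' ≤ A u' ⊔ A u := sup_comm (A u) (A u') ▸ le_rfl
          refine ⟨((F0 u').comp r).comp (Subgroup.inclusion hle), fun x hx => ?_, fun x hx => ?_⟩
          · show F0 u' (r ⟨x, _⟩) = _
            rw [hr2 x hx, map_one, hF3 u hu]
            rfl
          · show F0 u' (r ⟨x, _⟩) = _
            rw [hr1 x hx]
        · refine ⟨1, fun x hx => ?_, fun x hx => ?_⟩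
          · rw [hF3 u hu]
            rfl
          · rw [hF3 u' hu']
            rfl)
    refine ⟨F.comp (NS A Δ).subtype, ?_, ?_⟩
    · rintro ⟨⟨x, hx⟩, hx1⟩
      have hx2 : x ∈ NS A Δ1 := hx1
      have h1 : F.comp (NS A Δ1).subtype = f' := NS_hom_ext fun u hu y hy =>
        (hF u ⟨y, hy⟩).trans (hF1 u hu y hy)
      have h2 := DFunLike.congr_fun h1 ⟨x, hx2⟩
      rw [hf1] at h2
      exact h2
    · rintro ⟨⟨x, hx⟩, hx1⟩
      have hx2 : x ∈ NS A Δ2 := hx1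
      have h1 : F.comp (NS A Δ2).subtype = g' := NS_hom_ext fun u hu y hy =>
        (hF u ⟨y, hy⟩).trans (hF2 u hu y hy)
      have h2 := DFunLike.congr_fun h1 ⟨x, hx2⟩
      rw [hg1] at h2
      exact h2

/-! ### elements of finite order in graph products -/

theorem fintor_prod {P1 P2 : Type} [Group P1] [Group P2] (h1 : FinTor P1) (h2 : FinTor P2) :
    FinTor (P1 × P2) := by
  obtain ⟨S, hS, h3⟩ := h1
  obtain ⟨S', hS', h4⟩ := h2
  refine ⟨S ×ˢ S', hS.prod hS', fun x hx => ?_⟩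
  obtain ⟨y, hy⟩ := h3 x.1 (MonoidHom.isOfFinOrder (MonoidHom.fst P1 P2) hx)
  obtain ⟨y', hy'⟩ := h4 x.2 (MonoidHom.isOfFinOrder (MonoidHom.snd P1 P2) hx)
  exact ⟨(y, y'), hy, hy'⟩

theorem fintor_finite (P : Type) [Group P] [Finite P] : FinTor P :=
  ⟨Set.univ, Set.finite_univ, fun _ _ => ⟨1, Set.mem_univ _⟩⟩

theorem finite_empty : Finite ↥(NS A ∅) := by
  have h2 : NS A ∅ = ⊥ := by
    rw [eq_bot_iff]
    exact NS_le fun v hv => absurd hv (Set.notMem_empty v)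
  rw [h2]
  infer_instance

theorem fintor_NS [Finite V] (h : IsGraphProduct Γ A) (hg : ∀ v, FinTor (A v)) :
    ∀ (n : ℕ) (Δ : Set V), Δ.ncard = n → FinTor ↥(NS A Δ) := by
  intro n
  induction n with
  | zero =>
    intro Δ hΔ
    have h1 : Δ = ∅ := (Set.ncard_eq_zero (Set.toFinite Δ)).1 hΔ
    subst h1
    have := finite_empty (A := A)
    exact fintor_finite _
  | succ n ih =>
    intro Δ hΔ
    have hlt : ∀ u ∈ Δ, (Δ \ {u}).ncard = n := by
      intro u hu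
      have := Set.ncard_diff_singleton_add_one hu (Set.toFinite Δ)
      rw [hΔ] at this
      exact Nat.succ.inj this
    by_cases hc : Γ.IsClique Δ
    · obtain ⟨v, hv⟩ : Δ.Nonempty :=
        Set.nonempty_of_ncard_ne_zero (by rw [hΔ]; exact n.succ_ne_zero)
      obtain ⟨e⟩ := clique_iso h hc hv
      exact fintor_equiv e (fintor_prod (hg v) (ih _ (hlt v hv)))
    · obtain ⟨v, hv, w, hw, hvw, hadj⟩ : ∃ v ∈ Δ, ∃ w ∈ Δ, v ≠ w ∧ ¬ Γ.Adj v w := by
        by_contra hcon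
        push Not at hcon
        exact hc fun v hv w hw hvw => hcon v hv w hw hvw
      have ham := amg_NS h.pairSystem hv hw hvw hadj
      have l1 : NS A (Δ \ {v}) ≤ NS A Δ := NS_mono Set.diff_subset
      have l2 : NS A (Δ \ {w}) ≤ NS A Δ := NS_mono Set.diff_subset
      exact fintor_amg ham (fintor_equiv (Subgroup.subgroupOfEquivOfLe l1).symm (ih _ (hlt v hv)))
        (fintor_equiv (Subgroup.subgroupOfEquivOfLe l2).symm (ih _ (hlt w hw)))

end Run7.h550.TK
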