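import Pool.Agent.Run7.h550.TK.Tree
import Pool.Agent.R684.FP.Reg

/-!
# Kernels such that a class of groups is closed under all extensions with this kernel (helper550)
-/

set_option autoImplicit false

namespace Run7.h550.TK

open Pool.Agent.Y110.FJ
open Pool.Agent.Y462.SS (Closed)
open Pool.Agent.R941.FJ (C_equiv C_le C_cyc mem_sup_normal)
open Pool.Agent.R684.FP (FbC free_ext cyc_real)

variable {C : ∀ (G : Type) [Group G], Prop}

/-- `C` is closed under extensions with kernel `N` -/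
def Ext (C : ∀ (G : Type) [Group G], Prop) (N : Type) [Group N] : Prop :=
  ∀ (G : Type) [Group G] (M : Subgroup G) [M.Normal], Nonempty (M ≃* N) → C (G ⧸ M) → C G

theorem ext_equiv {N N' : Type} [Group N] [Group N'] (e : N ≃* N') (h : Ext C N) : Ext C N' := by
  intro G _ M _ he hQ
  obtain ⟨e'⟩ := he
  exact h G M ⟨e'.trans e.symm⟩ hQ

theorem ext_self (hC : Closed C) {N : Type} [Group N] (h : Ext C N) : C N := by
  refine h N ⊤ ⟨Subgroup.topEquiv⟩ ?_
  have : Finite (N ⧸ (⊤ : Subgroup N)) := by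
    have := QuotientGroup.subsingleton_quotient_top (G := N)
    infer_instance
  exact Pool.Agent.Y430.SS.of_finite hC _ this

/-- a quotient by a subgroup of the kernel -/
theorem ext_quot {G : Type} [Group G] {M R : Subgroup G} [M.Normal] [R.Normal]
    (hRM : R ≤ M) {N' : Type} [Group N'] (hE : Ext C N') (hC : Closed C) (f : M →* N')
    (hf : Function.Surjective f) (hker : ∀ x : M, f x = 1 ↔ (x : G) ∈ R) (hQ : C (G ⧸ M)) :
    C (G ⧸ R) := by
  have hMn : (M.map (QuotientGroup.mk' R)).Normal :=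
    Subgroup.Normal.map inferInstance _ (QuotientGroup.mk'_surjective R)
  refine hE (G ⧸ R) (M.map (QuotientGroup.mk' R)) ?_ ?_
  · obtain ⟨p, hp⟩ : ∃ p : M →* M.map (QuotientGroup.mk' R),
        p = (QuotientGroup.mk' R).subgroupMap M := ⟨_, rfl⟩
    have hps : Function.Surjective p := by
      rw [hp]
      exact MonoidHom.subgroupMap_surjective _ _
    have hpk : p.ker = f.ker := by
      ext x
      rw [MonoidHom.mem_ker, MonoidHom.mem_ker, hker, hp]
      constructor
      · intro h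
        exact (QuotientGroup.eq_one_iff _).1 (congrArg Subtype.val h)
      · intro h
        exact Subtype.ext ((QuotientGroup.eq_one_iff _).2 h)
    exact ⟨((QuotientGroup.quotientKerEquivOfSurjective p hps).symm.trans
      (QuotientGroup.quotientMulEquivOfEq hpk)).trans
      (QuotientGroup.quotientKerEquivOfSurjective f hf)⟩
  · exact C_equiv hC (QuotientGroup.quotientQuotientEquivQuotient R M hRM) hQ

/-- the image in `G` of a subgroup of `N` -/
def im {G N : Type} [Group G] [Group N] {M : Subgroup G} (e : M ≃* N) (R : Subgroup N) :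
    Subgroup G := R.map (M.subtype.comp e.symm.toMonoidHom)

theorem mem_im {G N : Type} [Group G] [Group N] {M : Subgroup G} {e : M ≃* N} {R : Subgroup N}
    {x : G} : x ∈ im e R ↔ ∃ h : x ∈ M, e ⟨x, h⟩ ∈ R := by
  constructor
  · rintro ⟨r, hr, rfl⟩
    refine ⟨(e.symm r).2, ?_⟩
    have : e ⟨((e.symm r : M) : G), (e.symm r).2⟩ = r := e.apply_symm_apply r
    exact this.symm ▸ hr
  · rintro ⟨h, hx⟩
    refine ⟨_, hx, ?_⟩
    show ((e.symm (e ⟨x, h⟩) : M) : G) = x
    rw [e.symm_apply_apply]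

theorem im_le {G N : Type} [Group G] [Group N] {M : Subgroup G} (e : M ≃* N) (R : Subgroup N) :
    im e R ≤ M := by
  intro x hx
  exact (mem_im.1 hx).1

theorem core (hC : ClosedE C) (hF : FbC C) {G N : Type} [Group G] [Group N] {M : Subgroup G}
    [M.Normal] (e : M ≃* N) {R1 R2 : Subgroup N} [R1.Normal] [R2.Normal]
    (h1 : (im e R1).Normal) (h2 : (im e R2).Normal) (hE1 : Ext C (N ⧸ R1))
    (hE2 : Ext C (N ⧸ R2)) (hfree : IsFreeGroup ↥(R1 ⊓ R2)) (hQ : C (G ⧸ M)) : C G := by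
  have key : ∀ (R : Subgroup N) [R.Normal] [(im e R).Normal], Ext C (N ⧸ R) →
      C (G ⧸ im e R) := by
    intro R _ _ hE
    refine ext_quot (im_le e R) hE hC.base ((QuotientGroup.mk' R).comp e.toMonoidHom) ?_ ?_ hQ
    · exact (QuotientGroup.mk'_surjective R).comp e.surjective
    · intro x
      have e1 : ((QuotientGroup.mk' R).comp e.toMonoidHom) x = 1 ↔ e x ∈ R :=
        QuotientGroup.eq_one_iff _
      rw [e1, mem_im]
      exact ⟨fun h => ⟨x.2, h⟩, fun ⟨_, h⟩ => h⟩
  have hQ1 := key R1 hE1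
  have hQ2 := key R2 hE2
  obtain ⟨f, hf⟩ : ∃ f : G →* (G ⧸ im e R1) × (G ⧸ im e R2),
      f = (QuotientGroup.mk' (im e R1)).prod (QuotientGroup.mk' (im e R2)) := ⟨_, rfl⟩
  have hker : f.ker = im e (R1 ⊓ R2) := by
    ext x
    rw [MonoidHom.mem_ker, hf, mem_im]
    have e1 : ((QuotientGroup.mk' (im e R1)).prod (QuotientGroup.mk' (im e R2))) x = 1 ↔
        x ∈ im e R1 ∧ x ∈ im e R2 := by
      rw [Prod.ext_iff]
      exact and_congr (QuotientGroup.eq_one_iff _) (QuotientGroup.eq_one_iff _)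
    rw [e1, mem_im, mem_im]
    constructor
    · rintro ⟨⟨h, h3⟩, ⟨_, h4⟩⟩
      exact ⟨h, h3, h4⟩
    · rintro ⟨h, h3, h4⟩
      exact ⟨⟨h, h3⟩, ⟨h, h4⟩⟩
  have hk : C (G ⧸ f.ker) :=
    hC.base.of_injective _ _ (QuotientGroup.kerLift f) (QuotientGroup.kerLift_injective _)
      (hC.base.prod _ _ hQ1 hQ2)
  have hfr : IsFreeGroup f.ker := by
    rw [hker]
    have hinj : Function.Injective (M.subtype.comp e.symm.toMonoidHom) :=
      M.subtype_injective.comp e.symm.injective
    exact IsFreeGroup.ofMulEquiv ((R1 ⊓ R2).equivMapOfInjective _ hinj)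
  exact free_ext hC hF f.ker hk

/-- a power of each automorphism maps `R` to itself -/
def VChar {N : Type} [Group N] (R : Subgroup N) : Prop :=
  ∀ φ : MulAut N, ∃ k : ℕ, 0 < k ∧ ∀ x, x ∈ R ↔ (φ ^ k) x ∈ R

theorem inv_pow {N : Type} [Group N] {R : Subgroup N} {φ : MulAut N}
    (h : ∀ x, x ∈ R ↔ φ x ∈ R) (k : ℕ) : ∀ x, x ∈ R ↔ (φ ^ k) x ∈ R := by
  induction k with
  | zero => intro x; rfl
  | succ k ih =>
    intro x
    rw [pow_succ', MulAut.mul_apply, ← h, ← ih]

theorem inv_zpow {N : Type} [Group N] {R : Subgroup N} {φ : MulAut N}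
    (h : ∀ x, x ∈ R ↔ φ x ∈ R) (k : ℤ) : ∀ x, x ∈ R ↔ (φ ^ k) x ∈ R := by
  intro x
  cases k with
  | ofNat k =>
    rw [Int.ofNat_eq_natCast, zpow_natCast]
    exact inv_pow h k x
  | negSucc k =>
    rw [zpow_negSucc]
    have h1 := inv_pow h (k + 1) (((φ ^ (k + 1))⁻¹ : MulAut N) x)
    rw [MulAut.apply_inv_self] at h1
    exact h1.symm

/-- powers generate subgroups of finite index -/
theorem sup_pow_index {G : Type} [Group G] (M : Subgroup G) [M.Normal] (g : G) {k : ℕ}
    (hk : 0 < k) : ((M ⊔ Subgroup.zpowers (g ^ k)).subgroupOf (M ⊔ Subgroup.zpowers g)).FiniteIndex := by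
  obtain ⟨P, hP⟩ : ∃ P : Subgroup G, P = M ⊔ Subgroup.zpowers g := ⟨_, rfl⟩
  obtain ⟨P', hP'⟩ : ∃ P' : Subgroup G, P' = M ⊔ Subgroup.zpowers (g ^ k) := ⟨_, rfl⟩
  rw [← hP, ← hP']
  have hfin : Finite (P ⧸ P'.subgroupOf P) := by
    have hgP : g ∈ P := by rw [hP]; exact Subgroup.mem_sup_right (Subgroup.mem_zpowers g)
    refine Finite.of_surjective (fun i : Fin k =>
      ((⟨g ^ (i : ℕ), P.pow_mem hgP _⟩ : P) : P ⧸ P'.subgroupOf P)) ?_
    intro q
    induction q using QuotientGroup.induction_on with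
    | H x =>
      have hx : (x : G) ∈ M ⊔ Subgroup.zpowers g := hP ▸ x.2
      obtain ⟨a, ha, b, hb, hab⟩ := mem_sup_normal.1 hx
      obtain ⟨z, rfl⟩ := Subgroup.mem_zpowers_iff.1 hb
      have hk0 : (0 : ℤ) < k := by exact_mod_cast hk
      have h1 : 0 ≤ z % (k : ℤ) := Int.emod_nonneg _ hk0.ne'
      have h2 : z % (k : ℤ) < k := Int.emod_lt_of_pos _ hk0
      refine ⟨⟨(z % (k : ℤ)).toNat, by omega⟩, ?_⟩
      rw [QuotientGroup.eq, Subgroup.mem_subgroupOf]
      show ((g ^ ((z % (k : ℤ)).toNat))⁻¹ * (x : G)) ∈ P'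
      rw [← hab, hP']
      have h3 : (g ^ ((z % (k : ℤ)).toNat) : G) = g ^ (z % (k : ℤ)) := by
        rw [← zpow_natCast, Int.toNat_of_nonneg h1]
      have h4 : (g ^ ((z % (k : ℤ)).toNat))⁻¹ * (a * g ^ z) =
          ((g ^ (z % (k : ℤ)))⁻¹ * a * (g ^ (z % (k : ℤ)))) * ((g ^ k) ^ (z / k)) := by
        rw [h3, ← zpow_natCast g k, ← zpow_mul]
        have h5 : g ^ z = g ^ (z % (k : ℤ)) * g ^ ((k : ℤ) * (z / k)) := by
          rw [← zpow_add, Int.emod_add_mul_ediv]
        rw [h5]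
        group
      rw [h4]
      refine Subgroup.mul_mem _ (Subgroup.mem_sup_left ?_)
        (Subgroup.mem_sup_right (Subgroup.mem_zpowers_iff.2 ⟨z / k, rfl⟩))
      have := (inferInstance : M.Normal).conj_mem a ha (g ^ (z % (k : ℤ)))⁻¹
      rwa [inv_inv] at this
  exact Subgroup.finiteIndex_of_finite_quotient

/-- **reduction to mapping tori of powers** -/
theorem ext_of_pow (hC : ClosedE C) {N : Type} [Group N] (P : MulAut N → Prop)
    (hP : ∀ φ : MulAut N, ∃ k : ℕ, 0 < k ∧ P (φ ^ k))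
    (h : ∀ φ : MulAut N, P φ → C (N ⋊[zpowersHom (MulAut N) φ] Multiplicative ℤ)) : Ext C N := by
  intro G _ M _ he hQ
  obtain ⟨e⟩ := he
  have hN : C N := by
    obtain ⟨k, _, hk⟩ := hP 1
    exact hC.base.of_injective _ _ SemidirectProduct.inl SemidirectProduct.inl_injective
      (h _ hk)
  refine Pool.Agent.Y529.FJ.t_ext C hC G M (C_equiv hC.base e hN) hQ fun g _ => ?_
  obtain ⟨c, hc⟩ : ∃ c : MulAut M, c = MulAut.conjNormal g := ⟨_, rfl⟩
  obtain ⟨φ, hφ⟩ : ∃ φ : MulAut N, φ = (e.symm.trans c).trans e := ⟨_, rfl⟩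
  obtain ⟨k, hk0, hk⟩ := hP φ
  have hck : ∀ n : ℕ, ∀ x : M, (φ ^ n) (e x) = e ((c ^ n) x) := by
    intro n
    induction n with
    | zero => intro x; rfl
    | succ n ih =>
      intro x
      rw [pow_succ', MulAut.mul_apply, ih, hφ, pow_succ', MulAut.mul_apply]
      show e (c (e.symm (e ((c ^ n) x)))) = _
      rw [e.symm_apply_apply]
  have hcn : ∀ n : ℕ, c ^ n = MulAut.conjNormal (g ^ n) := by
    intro n
    rw [hc, map_pow]
  have h1 : C ↥(M ⊔ Subgroup.zpowers (g ^ k)) := by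
    refine cyc_real hC M (g ^ k) (fun x => ?_)
      ((SemidirectProduct.inl (φ := zpowersHom (MulAut N) (φ ^ k))).comp e.toMonoidHom)
      (SemidirectProduct.inl_injective.comp e.injective)
      (SemidirectProduct.inr (Multiplicative.ofAdd 1)) ?_ (h _ hk)
    · constructor
      · intro hx
        exact (inferInstance : M.Normal).conj_mem x hx _
      · intro hx
        have := (inferInstance : M.Normal).conj_mem _ hx (g ^ k)⁻¹
        have h3 : (g ^ k)⁻¹ * (g ^ k * x * (g ^ k)⁻¹) * (g ^ k)⁻¹⁻¹ = x := by group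
        rwa [h3] at this
    · intro x y hxy
      have h3 : y = (c ^ k) x := by
        apply Subtype.ext
        rw [hxy, hcn, MulAut.conjNormal_apply]
      show SemidirectProduct.inl (e y) = _ * SemidirectProduct.inl (e x) * _
      rw [h3, ← hck]
      have h4 := SemidirectProduct.inl_aut (φ := zpowersHom (MulAut N) (φ ^ k))
        (Multiplicative.ofAdd 1) (e x)
      have h5 : (zpowersHom (MulAut N) (φ ^ k)) (Multiplicative.ofAdd 1) = φ ^ k := by
        rw [zpowersHom_apply, toAdd_ofAdd, zpow_one]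
      rw [h5] at h4
      exact h4.trans (by rw [map_inv])
  have h2 := sup_pow_index M g hk0
  refine hC.base.finiteIndex _ _ h2 ?_
  have hle : M ⊔ Subgroup.zpowers (g ^ k) ≤ M ⊔ Subgroup.zpowers g :=
    sup_le le_sup_left (le_sup_of_le_right (by
      rw [Subgroup.zpowers_le]
      exact Subgroup.pow_mem _ (Subgroup.mem_zpowers g) k))
  exact C_equiv hC.base (Subgroup.subgroupOfEquivOfLe hle) h1

/-- the image of an invariant subgroup in the mapping torus is normal -/
theorem im_normal {N : Type} [Group N] {R : Subgroup N} [hR : R.Normal] {φ : MulAut N}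
    (h : ∀ x, x ∈ R ↔ φ x ∈ R) {M : Subgroup (N ⋊[zpowersHom (MulAut N) φ] Multiplicative ℤ)}
    (e : M ≃* N) (he : ∀ x : N, ((e.symm x : M) : N ⋊[zpowersHom (MulAut N) φ] Multiplicative ℤ) =
      SemidirectProduct.inl x) : (im e R).Normal := by
  refine ⟨fun x hx g => ?_⟩
  obtain ⟨r, hr, rfl⟩ := hx
  have h1 : (M.subtype.comp e.symm.toMonoidHom) r = SemidirectProduct.inl r := he r
  rw [h1]
  have h2 : g * SemidirectProduct.inl r * g⁻¹ =
      SemidirectProduct.inl (g.left * (zpowersHom (MulAut N) φ g.right) r * g.left⁻¹) := by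
    rw [map_mul, map_mul, SemidirectProduct.inl_aut, map_inv]
    conv_lhs => rw [← SemidirectProduct.inl_left_mul_inr_right g]
    rw [mul_inv_rev]
    simp only [mul_assoc, map_inv]
  rw [h2]
  refine ⟨g.left * (zpowersHom (MulAut N) φ g.right) r * g.left⁻¹, ?_, he _⟩
  refine hR.conj_mem _ ?_ _
  rw [zpowersHom_apply]
  exact (inv_zpow h _ r).1 hr

/-- **kernels with two virtually characteristic subgroups whose intersection is free** -/
theorem ext_of_two (hC : ClosedE C) (hF : FbC C) {N : Type} [Group N] {R1 R2 : Subgroup N}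
    [R1.Normal] [R2.Normal] (h1 : VChar R1) (h2 : VChar R2) (hE1 : Ext C (N ⧸ R1))
    (hE2 : Ext C (N ⧸ R2)) (hfree : IsFreeGroup ↥(R1 ⊓ R2)) : Ext C N := by
  refine ext_of_pow hC (fun φ => (∀ x, x ∈ R1 ↔ φ x ∈ R1) ∧ ∀ x, x ∈ R2 ↔ φ x ∈ R2) ?_ ?_
  · intro φ
    obtain ⟨k1, hk1, h3⟩ := h1 φ
    obtain ⟨k2, hk2, h4⟩ := h2 φ
    refine ⟨k1 * k2, Nat.mul_pos hk1 hk2, ?_, ?_⟩
    · rw [pow_mul]
      exact inv_pow h3 k2
    · rw [mul_comm, pow_mul]
      exact inv_pow h4 k1
  · rintro φ ⟨h3, h4⟩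
    obtain ⟨M, hM⟩ : ∃ M : Subgroup (N ⋊[zpowersHom (MulAut N) φ] Multiplicative ℤ),
        M = (SemidirectProduct.inl (φ := zpowersHom (MulAut N) φ)).range := ⟨_, rfl⟩
    have hMk : M = (SemidirectProduct.rightHom (φ := zpowersHom (MulAut N) φ)).ker := by
      rw [hM, SemidirectProduct.range_inl_eq_ker_rightHom]
    have hMn : M.Normal := by rw [hMk]; infer_instance
    obtain ⟨e, he⟩ : ∃ e : M ≃* N, ∀ x : N, ((e.symm x : M) :
        N ⋊[zpowersHom (MulAut N) φ] Multiplicative ℤ) = SemidirectProduct.inl x := by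
      subst hM
      refine ⟨(MonoidHom.ofInjective (f := SemidirectProduct.inl (φ := zpowersHom (MulAut N) φ))
        SemidirectProduct.inl_injective).symm, fun x => rfl⟩
    refine core hC hF e (im_normal h3 e he) (im_normal h4 e he) hE1 hE2 hfree ?_
    subst hMk
    exact hC.base.of_injective _ _ (QuotientGroup.kerLift _) (QuotientGroup.kerLift_injective _)
      hC.base.int

end Run7.h550.TK
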