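import Pool.Agent.Run7.h550.TK.Amg2

/-!
# Property FA: images, products, cliques (helper550)
-/

set_option autoImplicit false

namespace Run7.h550.TK

open Pool.Agent.Helper270 Pool.Agent.Helper270.Tree Pool.Agent.Y110.FJ

theorem fa_image {H H' : Type} [Group H] [Group H'] (f : H →* H') (hf : Function.Surjective f)
    (h : FA H) : FA H' := by
  intro V _ T hT
  let _ : MulAction H V := MulAction.compHom V f
  obtain ⟨v, hv⟩ := h V T ⟨hT.isTree, fun g v w => hT.adj (f g) v w,
    fun g v w => hT.noInv (f g) v w⟩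
  refine ⟨v, fun h' => ?_⟩
  obtain ⟨g, rfl⟩ := hf h'
  exact hv g

theorem fa_equiv {H H' : Type} [Group H] [Group H'] (e : H ≃* H') (h : FA H) : FA H' :=
  fa_image e.toMonoidHom e.surjective h

theorem fa_subsingleton {H : Type} [Group H] [Subsingleton H] : FA H := by
  intro V _ T hT
  obtain ⟨v⟩ := hT.isTree.connected.nonempty
  refine ⟨v, fun h => ?_⟩
  rw [Subsingleton.elim h 1, one_smul]

theorem fa_prod {H1 H2 : Type} [Group H1] [Group H2] (h1 : FA H1) (h2 : FA H2) : FA (H1 × H2) := by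
  intro V _ T hT
  obtain ⟨F, hFd⟩ : ∃ F : Set V, F = {v | ∀ a : H1, (a, (1 : H2)) • v = v} := ⟨_, rfl⟩
  have hFm : ∀ v, v ∈ F ↔ ∀ a : H1, (a, (1 : H2)) • v = v := by
    intro v
    rw [hFd]
    rfl
  -- the fixed vertices of the first factor
  have hne : F.Nonempty := by
    let _ : MulAction H1 V := MulAction.compHom V (MonoidHom.inl H1 H2)
    obtain ⟨v, hv⟩ := h1 V T ⟨hT.isTree, fun g v w => hT.adj (g, 1) v w,
      fun g v w => hT.noInv (g, 1) v w⟩
    exact ⟨v, (hFm v).2 hv⟩
  have hcomm : ∀ (a : H1) (b : H2) (v : V), (a, (1 : H2)) • ((1 : H1), b) • v =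
      ((1 : H1), b) • (a, (1 : H2)) • v := by
    intro a b v
    rw [smul_smul, smul_smul]
    congr 1
    ext
    · simp
    · simp
  have hstab : ∀ (b : H2) (v : V), v ∈ F → ((1 : H1), b) • v ∈ F := by
    intro b v hv
    rw [hFm] at hv ⊢
    intro a
    rw [hcomm, hv]
  let act : MulAction H2 F :=
    { smul := fun b v => ⟨((1 : H1), b) • (v : V), hstab b v v.2⟩
      one_smul := fun v => Subtype.ext (one_smul (H1 × H2) (v : V))
      mul_smul := fun b b' v => Subtype.ext (by
        show ((1 : H1), b * b') • (v : V) = ((1 : H1), b) • ((1 : H1), b') • (v : V)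
        rw [smul_smul]
        congr 1
        ext
        · simp
        · simp) }
  have hact : ∀ (b : H2) (v : F), ((b • v : F) : V) = ((1 : H1), b) • (v : V) := fun _ _ => rfl
  have htree : (T.induce F).IsTree := by
    refine ⟨?_, hT.isTree.IsAcyclic.induce F⟩
    have : Nonempty F := hne.to_subtype
    refine ⟨?_⟩
    rintro ⟨x, hx⟩ ⟨y, hy⟩
    obtain ⟨q, hq0, hq1, hq2, hq3, -⟩ := exists_geod hT.isTree x y
    have hqF : ∀ i, i ≤ T.dist x y → q i ∈ F := by
      intro i hi
      rw [hFm]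
      intro a
      refine hT.convex ((hFm x).1 hx a) ((hFm y).1 hy a) ?_
      obtain ⟨e1, e2⟩ := hq3 i hi
      omega
    have key : ∀ i (hi : i ≤ T.dist x y), (T.induce F).Reachable ⟨x, hx⟩ ⟨q i, hqF i hi⟩ := by
      intro i
      induction i with
      | zero =>
        intro hi
        have : (⟨q 0, hqF 0 hi⟩ : F) = ⟨x, hx⟩ := Subtype.ext hq0
        rw [this]
      | succ i ih =>
        intro hi
        refine (ih (by omega)).trans (SimpleGraph.Adj.reachable ?_)
        exact hq2 i (by omega)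
    have h3 := key _ le_rfl
    have : (⟨q (T.dist x y), hqF _ le_rfl⟩ : F) = ⟨y, hy⟩ := Subtype.ext hq1
    rwa [this] at h3
  obtain ⟨v, hv⟩ := h2 F (T.induce F) ⟨htree, fun b v w hvw => hT.adj (1, b) v w hvw,
    fun b v w hvw hb => hT.noInv (1, b) v w hvw
      ⟨congrArg Subtype.val hb.1, congrArg Subtype.val hb.2⟩⟩
  refine ⟨v, fun g => ?_⟩
  obtain ⟨a, b⟩ := g
  have h4 : ((a, b) : H1 × H2) = (a, 1) * (1, b) := by simp
  rw [h4, mul_smul]
  have h5 : ((1 : H1), b) • (v : V) = v := congrArg Subtype.val (hv b)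
  rw [h5]
  exact (hFm v).1 v.2 a

variable {N V : Type} [Group N] {Γ : SimpleGraph V} {A : V → Subgroup N}

theorem fa_clique [Finite V] (h : IsGraphProduct Γ A) (hg : ∀ v, FA (A v)) :
    ∀ (n : ℕ) (Δ : Set V), Δ.ncard = n → Γ.IsClique Δ → FA ↥(NS A Δ) := by
  intro n
  induction n with
  | zero =>
    intro Δ hΔ _
    have h1 : Δ = ∅ := (Set.ncard_eq_zero (Set.toFinite Δ)).1 hΔ
    subst h1
    have h2 : NS A ∅ = ⊥ := by
      rw [eq_bot_iff]
      exact NS_le fun v hv => absurd hv (Set.notMem_empty v)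
    have : Subsingleton ↥(NS A ∅) := by
      rw [h2]
      infer_instance
    exact fa_subsingleton
  | succ n ih =>
    intro Δ hΔ hc
    obtain ⟨v, hv⟩ : Δ.Nonempty := Set.nonempty_of_ncard_ne_zero (by rw [hΔ]; exact n.succ_ne_zero)
    have h1 : (Δ \ {v}).ncard = n := by
      have := Set.ncard_diff_singleton_add_one hv (Set.toFinite Δ)
      rw [hΔ] at this
      exact Nat.succ.inj this
    have g1 := ih _ h1 (hc.subset Set.diff_subset)
    obtain ⟨e⟩ := clique_iso h hc hv
    exact fa_equiv e (fa_prod (hg v) g1)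

/-- **subgroups with property FA are conjugate into subgroups of cliques** -/
theorem fa_into [Finite V] (h : PairSystem Γ A) :
    ∀ (n : ℕ) (Δ : Set V), Δ.ncard = n → ∀ H : Subgroup N, H ≤ NS A Δ → FA H →
      ∃ (g : N) (K : Set V), Γ.IsClique K ∧ ∀ x ∈ H, g⁻¹ * x * g ∈ NS A K := by
  intro n
  induction n with
  | zero =>
    intro Δ hΔ H hH _
    have h1 : Δ = ∅ := (Set.ncard_eq_zero (Set.toFinite Δ)).1 hΔ
    refine ⟨1, Δ, ?_, fun x hx => ?_⟩
    · rw [h1]
      intro v hv
      exact absurd hv (Set.notMem_empty v)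
    · have : (1 : N)⁻¹ * x * 1 = x := by group
      rw [this]
      exact hH hx
  | succ n ih =>
    intro Δ hΔ H hH hfa
    by_cases hc : Γ.IsClique Δ
    · refine ⟨1, Δ, hc, fun x hx => ?_⟩
      have : (1 : N)⁻¹ * x * 1 = x := by group
      rw [this]
      exact hH hx
    · obtain ⟨v, hv, w, hw, hvw, hadj⟩ : ∃ v ∈ Δ, ∃ w ∈ Δ, v ≠ w ∧ ¬ Γ.Adj v w := by
        by_contra hcon
        push Not at hcon
        exact hc fun v hv w hw hvw => hcon v hv w hw hvw
      have hlt : ∀ u ∈ Δ, (Δ \ {u}).ncard = n := by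
        intro u hu
        have := Set.ncard_diff_singleton_add_one hu (Set.toFinite Δ)
        rw [hΔ] at this
        exact Nat.succ.inj this
      have ham := amg_NS h hv hw hvw hadj
      have hfa' : FA ↥(H.subgroupOf (NS A Δ)) :=
        fa_equiv (Subgroup.subgroupOfEquivOfLe hH).symm hfa
      obtain ⟨m, hm⟩ := fa_conj ham hfa'
      have key : ∀ u ∈ Δ, (∀ x ∈ H.subgroupOf (NS A Δ), m⁻¹ * x * m ∈
          (NS A (Δ \ {u})).subgroupOf (NS A Δ)) →
          ∃ (g : N) (K : Set V), Γ.IsClique K ∧ ∀ x ∈ H, g⁻¹ * x * g ∈ NS A K := by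
        intro u hu hmu
        have h5 : H.map (MulAut.conj (m : N)⁻¹).toMonoidHom ≤ NS A (Δ \ {u}) := by
          rintro _ ⟨x, hx, rfl⟩
          have h6 := hmu ⟨x, hH hx⟩ hx
          have h7 : (MulAut.conj (m : N)⁻¹).toMonoidHom x = (m : N)⁻¹ * x * m := by
            show (m : N)⁻¹ * x * (m : N)⁻¹⁻¹ = _
            rw [inv_inv]
          rw [h7]
          exact h6
        have h8 : FA ↥(H.map (MulAut.conj (m : N)⁻¹).toMonoidHom) :=
          fa_image ((MulAut.conj (m : N)⁻¹).toMonoidHom.subgroupMap H)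
            (MonoidHom.subgroupMap_surjective _ _) hfa
        obtain ⟨g, K, hK, hg⟩ := ih _ (hlt u hu) _ h5 h8
        refine ⟨m * g, K, hK, fun x hx => ?_⟩
        have h9 := hg _ ⟨x, hx, rfl⟩
        have h7 : (MulAut.conj (m : N)⁻¹).toMonoidHom x = (m : N)⁻¹ * x * m := by
          show (m : N)⁻¹ * x * (m : N)⁻¹⁻¹ = _
          rw [inv_inv]
        rw [h7] at h9
        have h10 : ((m : N) * g)⁻¹ * x * ((m : N) * g) = g⁻¹ * ((m : N)⁻¹ * x * m) * g := by group
        rw [h10]
        exact h9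
      rcases hm with hm | hm
      · exact key v hv hm
      · exact key w hw hm

end Run7.h550.TK
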