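import Pool.Agent.Run7.h550.TK.RV3

/-!
# Direct products of centreless indecomposable groups (helper550)
-/

set_option autoImplicit false

namespace Run7.h550.TK

open Pool.Agent.Y110.FJ
open Pool.Agent.Y462.SS (Closed)
open Pool.Agent.R684.FP (FbC free_ext cyc_real)

variable {C : ∀ (G : Type) [Group G], Prop}

/-- the centre is trivial -/
def Centreless (H : Type) [Group H] : Prop := ∀ z : H, (∀ x, z * x = x * z) → z = 1

/-- the group is not the direct product of two nontrivial subgroups -/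
def Indec (H : Type) [Group H] : Prop := ∀ P Q : Subgroup H, P ⊔ Q = ⊤ → P ⊓ Q = ⊥ →
  (∀ a ∈ P, ∀ b ∈ Q, a * b = b * a) → P = ⊥ ∨ Q = ⊥

variable {N V : Type} [Group N] {Γ : SimpleGraph V} {A : V → Subgroup N}

theorem exists_pow_of [Finite V] (hA : PairSystem Γ A) (hne : ∀ v, A v ≠ ⊥) (T : Set V → Prop)
    (hT : ∀ (φ : MulAut N) (K : Set V), T K → ∃ K', T K' ∧ MM A φ K K') (φ : MulAut N) :
    ∃ k : ℕ, 0 < k ∧ ∀ K, T K → MM A (φ ^ k) K K := by
  have hex : ∀ K : {K : Set V // T K}, ∃ K' : {K : Set V // T K}, MM A φ K K' := by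
    rintro ⟨K, hK⟩
    obtain ⟨K', hK', h1⟩ := hT φ K hK
    exact ⟨⟨K', hK'⟩, h1⟩
  choose σ hσ using hex
  have hinj : Function.Injective σ := by
    intro K K' hKK
    apply Subtype.ext
    have h1 := hσ K
    rw [hKK] at h1
    exact h1.inj hA hne (hσ K')
  have hbij : Function.Bijective σ := Finite.injective_iff_bijective.1 hinj
  obtain ⟨τ, hτ⟩ : ∃ τ : Equiv.Perm {K : Set V // T K}, ∀ K, τ K = σ K :=
    ⟨Equiv.ofBijective σ hbij, fun _ => rfl⟩
  have hpow : ∀ (n : ℕ) (K : {K : Set V // T K}),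
      MM A (φ ^ n) K ((τ ^ n) K : {K : Set V // T K}) := by
    intro n
    induction n with
    | zero =>
      intro K
      exact MM.one _
    | succ n ih =>
      intro K
      rw [pow_succ' φ, pow_succ' τ, Equiv.Perm.mul_apply, hτ]
      exact (ih K).comp (hσ _)
  refine ⟨orderOf τ, orderOf_pos τ, fun K hK => ?_⟩
  have h1 := hpow (orderOf τ) ⟨K, hK⟩
  rw [pow_orderOf_eq_one] at h1
  exact h1

theorem NS_single (v : V) : NS A {v} = A v := by
  apply le_antisymm
  · exact NS_le fun u hu => by rw [Set.mem_singleton_iff.1 hu]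
  · exact le_NS (Set.mem_singleton v)

/-- elements which are in all the subgroups without one factor -/
theorem eq_one_of_all [Finite V] (hA : PairSystem Γ A) {z : N}
    (hz : ∀ v, z ∈ NS A ({v}ᶜ : Set V)) : z = 1 := by
  have key : ∀ S : Set V, z ∈ NS A Sᶜ := by
    intro S
    induction S, Set.toFinite S using Set.Finite.induction_on with
    | empty =>
      rw [Set.compl_empty, NS_top hA]
      exact Subgroup.mem_top z
    | @insert v S hv _ ih =>
      obtain ⟨ρ, r1, r2, r3⟩ := exists_rho hA ({v}ᶜ : Set V)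
      have h1 := rho_mem (L := Sᶜ) r1 r2 z ih
      rw [rho_fix r1 z (hz v)] at h1
      have h2 : ({v}ᶜ : Set V) ∩ Sᶜ = (insert v S)ᶜ := by
        ext u
        simp [not_or]
      rwa [h2] at h1
  have h1 := key Set.univ
  rw [Set.compl_univ] at h1
  have h2 : NS A ∅ = ⊥ := by
    rw [eq_bot_iff]
    exact NS_le fun v hv => absurd hv (Set.notMem_empty v)
  rw [h2] at h1
  exact h1

/-- the two projections -/
theorem exists_split (h : IsGraphProduct Γ A) (hcomp : ∀ u w, u ≠ w → Γ.Adj u w) (v : V) :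
    ∃ (p q : N →* N), (∀ x, p x ∈ A v) ∧ (∀ x, q x ∈ NS A ({v}ᶜ : Set V)) ∧
      (∀ x, x = p x * q x) ∧ (∀ x ∈ A v, p x = x) ∧ (∀ x ∈ NS A ({v}ᶜ : Set V), q x = x) ∧
      (∀ a ∈ A v, ∀ b ∈ NS A ({v}ᶜ : Set V), a * b = b * a) := by
  obtain ⟨p, p1, p2, p3⟩ := exists_rho h.pairSystem ({v} : Set V)
  obtain ⟨q, q1, q2, q3⟩ := exists_rho h.pairSystem ({v}ᶜ : Set V)
  have hcomm : ∀ a ∈ A v, ∀ b ∈ NS A ({v}ᶜ : Set V), a * b = b * a := by
    intro a ha b hb
    rw [← NS_single (A := A) v] at ha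
    refine NS_comm h ?_ a ha b hb
    intro u hu w hw
    rw [Set.mem_singleton_iff.1 hu]
    exact hcomp v w (fun e => hw (e ▸ rfl))
  have hp : ∀ x, p x ∈ A v := by
    intro x
    have := p3 x
    rwa [NS_single] at this
  obtain ⟨F, hF⟩ : ∃ F : N →* N, ∀ x, F x = p x * q x :=
    ⟨{ toFun := fun x => p x * q x
       map_one' := by rw [map_one, map_one, one_mul]
       map_mul' := fun x y => by
        rw [map_mul, map_mul]
        have := hcomm _ (hp y) _ (q3 x)
        calc p x * p y * (q x * q y) = p x * (p y * q x) * q y := by group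
          _ = p x * (q x * p y) * q y := by rw [this]
          _ = p x * q x * (p y * q y) := by group }, fun x => rfl⟩
  have hid : ∀ x ∈ NS A Set.univ, F x = (MonoidHom.id N) x := by
    refine NS_eq_on fun u _ x hx => ?_
    rw [hF]
    by_cases hu : u = v
    · subst hu
      rw [p1 u rfl x hx, q2 u (fun h => h rfl) x hx, mul_one]
      rfl
    · rw [p2 u hu x hx, q1 u hu x hx, one_mul]
      rfl
  refine ⟨p, q, hp, q3, fun x => ?_, fun x hx => p1 v rfl x hx, rho_fix q1, hcomm⟩
  rw [← hF]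
  exact (hid x (by rw [NS_top h.pairSystem]; exact Subgroup.mem_top x)).symm

theorem centreless_dp [Finite V] (h : IsGraphProduct Γ A) (hcomp : ∀ u w, u ≠ w → Γ.Adj u w)
    (hz : ∀ v, Centreless (A v)) : ∀ z : N, (∀ x, z * x = x * z) → z = 1 := by
  intro z hzc
  refine eq_one_of_all h.pairSystem fun v => ?_
  obtain ⟨p, q, h1, h2, h3, h4, h5, h6⟩ := exists_split h hcomp v
  have h7 : (⟨p z, h1 z⟩ : A v) = 1 := by
    refine hz v _ ?_
    rintro ⟨x, hx⟩
    apply Subtype.ext
    show p z * x = x * p z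
    have h8 := congrArg p (hzc x)
    rw [map_mul, map_mul, h4 x hx] at h8
    exact h8
  have h9 : p z = 1 := congrArg Subtype.val h7
  have h10 := h3 z
  rw [h9, one_mul] at h10
  rw [h10]
  exact h2 z

/-- automorphisms permute the factors -/
theorem perm_dp [Finite V] (h : IsGraphProduct Γ A) (hcomp : ∀ u w, u ≠ w → Γ.Adj u w)
    (hne : ∀ v, A v ≠ ⊥) (hz : ∀ v, Centreless (A v)) (hi : ∀ v, Indec (A v)) (ψ : MulAut N)
    (v : V) : ∃ w, ∀ x ∈ A v, ψ x ∈ A w := by
  by_contra hcon
  push Not at hcon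
  apply hne v
  rw [eq_bot_iff]
  intro x hx
  have hall : ∀ w, ψ x ∈ NS A ({w}ᶜ : Set V) := by
    intro w
    obtain ⟨p, q, h1, h2, h3, h4, h5, h6⟩ := exists_split h hcomp w
    obtain ⟨p', q', h1', h2', h3', h4', h5', h6'⟩ := exists_split h hcomp v
    -- the factor is the product of its intersections
    have claim : ∀ y ∈ A v, ψ⁻¹ (p (ψ y)) ∈ A v := by
      intro y hy
      have hc1 : ∀ s ∈ NS A ({v}ᶜ : Set V), p (ψ y) * ψ s = ψ s * p (ψ y) := by
        intro s hs
        have e1 : ψ y * ψ s = ψ s * ψ y := by rw [← map_mul, ← map_mul, h6' y hy s hs]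
        have e2 := congrArg p e1
        rw [map_mul, map_mul] at e2
        have e3 := h6 _ (h1 (ψ y)) _ (h2 (ψ s))
        calc p (ψ y) * ψ s = p (ψ y) * (p (ψ s) * q (ψ s)) := by rw [← h3]
          _ = (p (ψ y) * p (ψ s)) * q (ψ s) := by group
          _ = p (ψ s) * (p (ψ y) * q (ψ s)) := by rw [e2]; group
          _ = (p (ψ s) * q (ψ s)) * p (ψ y) := by rw [e3]; group
          _ = ψ s * p (ψ y) := by rw [← h3]
      have hc2 : ∀ s ∈ NS A ({v}ᶜ : Set V), ψ⁻¹ (p (ψ y)) * s = s * ψ⁻¹ (p (ψ y)) := by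
        intro s hs
        apply ψ.injective
        rw [map_mul, map_mul, MulAut.apply_inv_self]
        exact hc1 s hs
      have hc3 : q' (ψ⁻¹ (p (ψ y))) = 1 := by
        refine centreless_dp h hcomp hz _ fun s => ?_
        have e1 := hc2 _ (h2' s)
        have e2 := congrArg q' e1
        rw [map_mul, map_mul, h5' _ (h2' s)] at e2
        have e3 := h6' _ (h1' s) _ (h2' (ψ⁻¹ (p (ψ y))))
        calc q' (ψ⁻¹ (p (ψ y))) * s = q' (ψ⁻¹ (p (ψ y))) * (p' s * q' s) := by rw [← h3']
          _ = (q' (ψ⁻¹ (p (ψ y))) * p' s) * q' s := by group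
          _ = p' s * (q' (ψ⁻¹ (p (ψ y))) * q' s) := by rw [← e3]; group
          _ = (p' s * q' s) * q' (ψ⁻¹ (p (ψ y))) := by rw [e2]; group
          _ = s * q' (ψ⁻¹ (p (ψ y))) := by rw [← h3']
      have e4 := h3' (ψ⁻¹ (p (ψ y)))
      rw [hc3, mul_one] at e4
      rw [e4]
      exact h1' _
    obtain ⟨P, hP⟩ : ∃ P : Subgroup (A v), P = (A w).comap (ψ.toMonoidHom.comp (A v).subtype) :=
      ⟨_, rfl⟩
    obtain ⟨Q, hQ⟩ : ∃ Q : Subgroup (A v), Q = (NS A ({w}ᶜ : Set V)).comap
      (ψ.toMonoidHom.comp (A v).subtype) := ⟨_, rfl⟩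
    have hPm : ∀ y : A v, y ∈ P ↔ ψ y ∈ A w := by
      intro y
      rw [hP]
      rfl
    have hQm : ∀ y : A v, y ∈ Q ↔ ψ y ∈ NS A ({w}ᶜ : Set V) := by
      intro y
      rw [hQ]
      rfl
    have hsplit : ∀ y : A v, ∃ a ∈ P, ∃ b ∈ Q, y = a * b := by
      rintro ⟨y, hy⟩
      refine ⟨⟨ψ⁻¹ (p (ψ y)), claim y hy⟩, ?_, ⟨(ψ⁻¹ (p (ψ y)))⁻¹ * y,
        (A v).mul_mem ((A v).inv_mem (claim y hy)) hy⟩, ?_, ?_⟩
      · rw [hPm]
        show ψ (ψ⁻¹ (p (ψ y))) ∈ A w
        rw [MulAut.apply_inv_self]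
        exact h1 _
      · rw [hQm]
        show ψ ((ψ⁻¹ (p (ψ y)))⁻¹ * y) ∈ NS A ({w}ᶜ : Set V)
        rw [map_mul, map_inv, MulAut.apply_inv_self]
        have e1 : (p (ψ y))⁻¹ * ψ y = q (ψ y) := by
          conv_lhs => rw [h3 (ψ y)]
          have e2 : p (p (ψ y) * q (ψ y)) = p (ψ y) := by rw [← h3]
          rw [e2]
          group
        rw [e1]
        exact h2 _
      · apply Subtype.ext
        show y = ψ⁻¹ (p (ψ y)) * ((ψ⁻¹ (p (ψ y)))⁻¹ * y)
        group
    have hsup : P ⊔ Q = ⊤ := by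
      rw [eq_top_iff]
      intro y _
      obtain ⟨a, ha, b, hb, rfl⟩ := hsplit y
      exact Subgroup.mul_mem _ (Subgroup.mem_sup_left ha) (Subgroup.mem_sup_right hb)
    have hinf : P ⊓ Q = ⊥ := by
      rw [eq_bot_iff]
      rintro y ⟨hy1, hy2⟩
      have e1 := (hPm y).1 hy1
      have e2 := (hQm y).1 hy2
      have e3 := h3 (ψ y)
      rw [h4 _ e1, h5 _ e2] at e3
      have e4 : ψ y = 1 := by
        have := congrArg (fun t => (ψ y)⁻¹ * t) e3
        simpa using this.symm
      have e5 : (y : N) = 1 := by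
        apply ψ.injective
        rw [e4, map_one]
      exact Subtype.ext e5
    have hcm : ∀ a ∈ P, ∀ b ∈ Q, a * b = b * a := by
      intro a ha b hb
      apply Subtype.ext
      apply ψ.injective
      show ψ ((a : N) * b) = ψ ((b : N) * a)
      rw [map_mul, map_mul]
      exact h6 _ ((hPm a).1 ha) _ ((hQm b).1 hb)
    rcases hi v P Q hsup hinf hcm with h7 | h7
    · obtain ⟨a, ha, b, hb, hab⟩ := hsplit ⟨x, hx⟩
      rw [h7, Subgroup.mem_bot] at ha
      rw [ha, one_mul] at hab
      have h8 := (hQm b).1 hb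
      rw [← hab] at h8
      exact h8
    · exfalso
      obtain ⟨y, hy, hy'⟩ := hcon w
      apply hy'
      obtain ⟨a, ha, b, hb, hab⟩ := hsplit ⟨y, hy⟩
      rw [h7, Subgroup.mem_bot] at hb
      rw [hb, mul_one] at hab
      have h8 := (hPm a).1 ha
      rw [← hab] at h8
      exact h8
  have h9 : ψ x = 1 := eq_one_of_all h.pairSystem hall
  have h10 : x = 1 := by
    apply ψ.injective
    rw [h9, map_one]
  exact h10

theorem mm_dp [Finite V] (h : IsGraphProduct Γ A) (hcomp : ∀ u w, u ≠ w → Γ.Adj u w)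
    (hne : ∀ v, A v ≠ ⊥) (hz : ∀ v, Centreless (A v)) (hi : ∀ v, Indec (A v)) (φ : MulAut N)
    (K : Set V) (hK : ∃ v, K = {v}) : ∃ K', (∃ v, K' = {v}) ∧ MM A φ K K' := by
  have key : ∀ (ψ : MulAut N) (v : V), ∃ w, Sb A ψ {v} {w} := by
    intro ψ v
    obtain ⟨w, hw⟩ := perm_dp h hcomp hne hz hi ψ v
    refine ⟨w, 1, fun x hx => ?_⟩
    rw [NS_single] at hx ⊢
    have : (1 : N)⁻¹ * ψ x * 1 = ψ x := by group
    rw [this]
    exact hw x hx
  obtain ⟨v, rfl⟩ := hK
  obtain ⟨w, h1⟩ := key φ v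
  obtain ⟨u, h2⟩ := key φ⁻¹ w
  have h3 := h1.comp h2
  rw [inv_mul_cancel] at h3
  have h4 : v = u := (h3.one_sub h.pairSystem hne) rfl
  rw [← h4] at h2
  exact ⟨{w}, ⟨w, rfl⟩, h1, h2⟩

/-- **direct products of centreless indecomposable groups** -/
theorem ext_dp (hC : ClosedE C) : ∀ (n : ℕ) (V N : Type) [Group N] [Finite V]
    (Γ : SimpleGraph V) (A : V → Subgroup N), Nat.card V = n → IsGraphProduct Γ A →
    (∀ u w, u ≠ w → Γ.Adj u w) → (∀ v, A v ≠ ⊥) → (∀ v, Centreless (A v)) →
    (∀ v, Indec (A v)) → (∀ v, Ext C (A v)) → Ext C N := by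
  intro n
  induction n using Nat.strong_induction_on with
  | _ n ih =>
    intro V N _ _ Γ A hn h hcomp hne hz hi hE
    by_cases hV : Nonempty V
    · obtain ⟨v⟩ := hV
      obtain ⟨r, h1, h2, h3⟩ := exists_kill h.pairSystem ({v} : Set V)
      have hnorm : (NS A {v}).Normal := normal_of_adj h (by
        intro u hu w hw
        rw [Set.mem_singleton_iff.1 hu]
        exact hcomp v w (fun e => hw (e ▸ rfl)))
      have h4 : NS A {v} = r.ker := by
        rw [h3]
        exact (Subgroup.normalClosure_eq_self (NS A {v})).symm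
      refine ext_comp hC (R := r.ker) ?_ ?_ ?_
      · rw [h3]
        refine vchar_nc fun φ => ?_
        obtain ⟨k, hk, h5⟩ := exists_pow_of h.pairSystem hne (fun K => ∃ v, K = {v})
          (mm_dp h hcomp hne hz hi) φ
        exact ⟨k, hk, h5 _ ⟨v, rfl⟩⟩
      · have h5 : A v = r.ker := (NS_single (A := A) v).symm.trans h4
        exact ext_equiv (MulEquiv.subgroupCongr h5) (hE v)
      · refine ext_equiv (QuotientGroup.quotientKerEquivOfSurjective r h2).symm ?_
        have hlt : Nat.card ↥({v}ᶜ : Set V) < n := by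
          rw [← hn]
          exact Finite.card_subtype_lt (p := fun x => x ∈ ({v}ᶜ : Set V)) (x := v) (fun h => h rfl)
        have e : ∀ u : ↥({v}ᶜ : Set V), (A u).subgroupOf (NS A ({v}ᶜ : Set V)) ≃* A u :=
          fun u => Subgroup.subgroupOfEquivOfLe (le_NS u.2)
        refine ih _ hlt ↥({v}ᶜ : Set V) ↥(NS A ({v}ᶜ : Set V)) (Γ.induce ({v}ᶜ : Set V))
          (fun u => (A u).subgroupOf (NS A ({v}ᶜ : Set V))) rfl (gp_restr h _) ?_ ?_ ?_ ?_ ?_
        · intro u w huw
          exact hcomp u w (fun e => huw (Subtype.ext e))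
        · intro u hu
          rw [Subgroup.subgroupOf_eq_bot] at hu
          exact hne u (hu.eq_bot_of_le (le_NS u.2))
        · intro u z hzc
          apply (e u).injective
          rw [map_one]
          refine hz u _ fun x => ?_
          have h6 := congrArg (e u) (hzc ((e u).symm x))
          rw [map_mul, map_mul, MulEquiv.apply_symm_apply] at h6
          exact h6
        · intro u P Q hsup hinf hcm
          have h7 := hi u (P.map (e u).toMonoidHom) (Q.map (e u).toMonoidHom) ?_ ?_ ?_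
          · rcases h7 with h7 | h7
            · left
              exact (Subgroup.map_eq_bot_iff_of_injective _ (e u).injective).1 h7
            · right
              exact (Subgroup.map_eq_bot_iff_of_injective _ (e u).injective).1 h7
          · rw [← Subgroup.map_sup, hsup, ← MonoidHom.range_eq_map]
            exact MonoidHom.range_eq_top.2 (e u).surjective
          · rw [← Subgroup.map_inf _ _ _ (e u).injective, hinf, Subgroup.map_bot]
          · rintro _ ⟨a, ha, rfl⟩ _ ⟨b, hb, rfl⟩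
            rw [← map_mul, ← map_mul, hcm a ha b hb]
        · intro u
          exact ext_equiv (e u).symm (hE u)
    · have : Subsingleton N := by
        refine ⟨fun x y => ?_⟩
        have h1 : ∀ x : N, x = 1 := by
          intro x
          have h2 : x ∈ (⨆ v, A v) := by
            rw [h.generate]
            exact Subgroup.mem_top x
          have h3 : (⨆ v, A v) = ⊥ := by
            rw [not_nonempty_iff] at hV
            exact iSup_of_empty _
          rw [h3] at h2
          exact h2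
        rw [h1 x, h1 y]
      have : Finite N := Finite.of_subsingleton
      exact ext_finite hC N

end Run7.h550.TK
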