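import Pool.Agent.Run7.h550.TK.FAp

/-!
# Automorphisms of graph products of groups with property FA: maximal cliques (helper550)
-/

set_option autoImplicit false

namespace Run7.h550.TK

open Pool.Agent.Y110.FJ

variable {N V : Type} [Group N] {Γ : SimpleGraph V} {A : V → Subgroup N}

theorem rho_mem {K L : Set V} {ρ : N →* N} (h1 : ∀ v ∈ K, ∀ x ∈ A v, ρ x = x)
    (h2 : ∀ v, v ∉ K → ∀ x ∈ A v, ρ x = 1) : ∀ x ∈ NS A L, ρ x ∈ NS A (K ∩ L) := by
  have h3 : NS A L ≤ (NS A (K ∩ L)).comap ρ := by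
    refine NS_le fun v hv x hx => ?_
    show ρ x ∈ NS A (K ∩ L)
    by_cases hK : v ∈ K
    · rw [h1 v hK x hx]
      have h4 : v ∈ K ∩ L := ⟨hK, hv⟩
      exact le_NS h4 hx
    · rw [h2 v hK x hx]
      exact one_mem _
  exact fun x hx => h3 hx

theorem rho_fix {K : Set V} {ρ : N →* N} (h1 : ∀ v ∈ K, ∀ x ∈ A v, ρ x = x) :
    ∀ x ∈ NS A K, ρ x = x := NS_eq_on (g := MonoidHom.id N) h1

/-- a conjugate of the subgroup of `K` is contained in the subgroup of `K'` only if `K ⊆ K'` -/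
theorem sub_of_conj (hA : PairSystem Γ A) (hne : ∀ v, A v ≠ ⊥) {K K' : Set V} {c : N}
    (h : ∀ x ∈ NS A K, c⁻¹ * x * c ∈ NS A K') : K ⊆ K' := by
  obtain ⟨ρ, h1, h2, h3⟩ := exists_rho hA K
  have hfix := rho_fix h1
  have hmem := rho_mem (L := K') h1 h2
  have key : ∀ z ∈ NS A K, z ∈ NS A (K ∩ K') := by
    intro z hz
    have hx : ρ c * z * (ρ c)⁻¹ ∈ NS A K :=
      (NS A K).mul_mem ((NS A K).mul_mem (h3 c) hz) ((NS A K).inv_mem (h3 c))
    have hy := hmem _ (h _ hx)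
    rw [map_mul, map_mul, map_inv, hfix _ hx] at hy
    have e1 : (ρ c)⁻¹ * (ρ c * z * (ρ c)⁻¹) * ρ c = z := by group
    rwa [e1] at hy
  intro v hv
  by_contra hv'
  apply hne v
  rw [eq_bot_iff]
  intro z hz
  obtain ⟨r, hr1, hr2⟩ := hA.retract v
  have h5 : ∀ x ∈ NS A (K ∩ K'), r x = x :=
    NS_eq_on (g := MonoidHom.id N) fun w hw x hx => hr2 w (fun e => hv' (e ▸ hw.2)) x hx
  have h6 := h5 z (key z (le_NS hv hz))
  rw [hr1 z hz] at h6
  exact h6.symm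

/-- up to conjugation, `φ` maps the subgroup of `K` into the subgroup of `K'` -/
def Sb (A : V → Subgroup N) (φ : MulAut N) (K K' : Set V) : Prop :=
  ∃ g : N, ∀ x ∈ NS A K, g⁻¹ * φ x * g ∈ NS A K'

theorem Sb.comp {φ ψ : MulAut N} {K K' K'' : Set V} (h1 : Sb A φ K K') (h2 : Sb A ψ K' K'') :
    Sb A (ψ * φ) K K'' := by
  obtain ⟨g, hg⟩ := h1
  obtain ⟨g', hg'⟩ := h2
  refine ⟨ψ g * g', fun x hx => ?_⟩
  have h3 := hg' _ (hg x hx)
  have h4 : (ψ g * g')⁻¹ * (ψ * φ) x * (ψ g * g') = g'⁻¹ * ψ (g⁻¹ * φ x * g) * g' := by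
    rw [MulAut.mul_apply, map_mul, map_mul, map_inv]
    group
  rw [h4]
  exact h3

theorem Sb.one_sub (hA : PairSystem Γ A) (hne : ∀ v, A v ≠ ⊥) {K K' : Set V}
    (h : Sb A 1 K K') : K ⊆ K' := by
  obtain ⟨g, hg⟩ := h
  exact sub_of_conj hA hne (c := g) hg

theorem Sb.mono {φ : MulAut N} {K K' K'' : Set V} (h : Sb A φ K K') (hK : K' ⊆ K'') :
    Sb A φ K K'' := by
  obtain ⟨g, hg⟩ := h
  exact ⟨g, fun x hx => NS_mono hK (hg x hx)⟩

/-- both directions -/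
def MM (A : V → Subgroup N) (φ : MulAut N) (K K' : Set V) : Prop := Sb A φ K K' ∧ Sb A φ⁻¹ K' K

theorem MM.comp {φ ψ : MulAut N} {K K' K'' : Set V} (h1 : MM A φ K K') (h2 : MM A ψ K' K'') :
    MM A (ψ * φ) K K'' := by
  refine ⟨h1.1.comp h2.1, ?_⟩
  rw [mul_inv_rev]
  exact h2.2.comp h1.2

theorem MM.inj (hA : PairSystem Γ A) (hne : ∀ v, A v ≠ ⊥) {φ : MulAut N} {K K' K'' : Set V}
    (h1 : MM A φ K K'') (h2 : MM A φ K' K'') : K = K' := by
  have h3 := h1.1.comp h2.2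
  have h4 := h2.1.comp h1.2
  rw [inv_mul_cancel] at h3 h4
  exact Set.Subset.antisymm (h3.one_sub hA hne) (h4.one_sub hA hne)

theorem MM.one (K : Set V) : MM A 1 K K := by
  refine ⟨⟨1, fun x hx => ?_⟩, ⟨1, fun x hx => ?_⟩⟩
  · have : (1 : N)⁻¹ * (1 : MulAut N) x * 1 = x := by
      rw [MulAut.one_apply]
      group
    rwa [this]
  · have : (1 : N)⁻¹ * ((1 : MulAut N)⁻¹ : MulAut N) x * 1 = x := by
      show (1 : N)⁻¹ * x * 1 = x
      group
    rwa [this]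

theorem exists_max [Finite V] {K : Set V} (hK : Γ.IsClique K) :
    ∃ K', K ⊆ K' ∧ Maximal Γ.IsClique K' :=
  (Set.toFinite {K : Set V | Γ.IsClique K}).exists_le_maximal hK

theorem NS_top (hA : PairSystem Γ A) : NS A Set.univ = ⊤ := NS_univ hA

theorem exists_Sb [Finite V] (h : IsGraphProduct Γ A) (hfa : ∀ v, FA (A v)) (φ : MulAut N)
    {K : Set V} (hK : Γ.IsClique K) : ∃ K', Maximal Γ.IsClique K' ∧ Sb A φ K K' := by
  have h1 : FA ↥((NS A K).map φ.toMonoidHom) :=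
    fa_image (φ.toMonoidHom.subgroupMap (NS A K)) (MonoidHom.subgroupMap_surjective _ _)
      (fa_clique h hfa _ K rfl hK)
  obtain ⟨g, K1, hK1, hg⟩ := fa_into h.pairSystem _ Set.univ rfl ((NS A K).map φ.toMonoidHom)
    (by rw [NS_top h.pairSystem]; exact le_top) h1
  obtain ⟨K', hK', hmax⟩ := exists_max hK1
  exact ⟨K', hmax, g, fun x hx => NS_mono hK' (hg _ ⟨x, hx, rfl⟩)⟩

theorem exists_MM [Finite V] (h : IsGraphProduct Γ A) (hne : ∀ v, A v ≠ ⊥)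
    (hfa : ∀ v, FA (A v)) (φ : MulAut N) {K : Set V} (hK : Maximal Γ.IsClique K) :
    ∃ K', Maximal Γ.IsClique K' ∧ MM A φ K K' := by
  obtain ⟨K', hK', h1⟩ := exists_Sb h hfa φ hK.prop
  obtain ⟨K2, hK2, h2⟩ := exists_Sb h hfa φ⁻¹ hK'.prop
  have h3 := h1.comp h2
  rw [inv_mul_cancel] at h3
  have h4 : K ⊆ K2 := h3.one_sub h.pairSystem hne
  have h5 : K2 = K := hK.eq_of_ge hK2.prop h4
  refine ⟨K', hK', h1, ?_⟩
  rwa [h5] at h2

/-- **a power of each automorphism preserves the conjugacy class of the subgroup of each maximal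
clique** -/
theorem exists_pow [Finite V] (h : IsGraphProduct Γ A) (hne : ∀ v, A v ≠ ⊥)
    (hfa : ∀ v, FA (A v)) (φ : MulAut N) :
    ∃ k : ℕ, 0 < k ∧ ∀ K, Maximal Γ.IsClique K → MM A (φ ^ k) K K := by
  have hex : ∀ K : {K : Set V // Maximal Γ.IsClique K},
      ∃ K' : {K : Set V // Maximal Γ.IsClique K}, MM A φ K K' := by
    rintro ⟨K, hK⟩
    obtain ⟨K', hK', h1⟩ := exists_MM h hne hfa φ hK
    exact ⟨⟨K', hK'⟩, h1⟩
  choose σ hσ using hex
  have hinj : Function.Injective σ := by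
    intro K K' hKK
    apply Subtype.ext
    have h1 := hσ K
    rw [hKK] at h1
    exact h1.inj h.pairSystem hne (hσ K')
  have hbij : Function.Bijective σ := Finite.injective_iff_bijective.1 hinj
  obtain ⟨τ, hτ⟩ : ∃ τ : Equiv.Perm {K : Set V // Maximal Γ.IsClique K}, ∀ K, τ K = σ K :=
    ⟨Equiv.ofBijective σ hbij, fun _ => rfl⟩
  have hpow : ∀ (n : ℕ) (K : {K : Set V // Maximal Γ.IsClique K}),
      MM A (φ ^ n) K ((τ ^ n) K : {K : Set V // Maximal Γ.IsClique K}) := by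
    intro n
    induction n with
    | zero =>
      intro K
      exact MM.one _
    | succ n ih =>
      intro K
      rw [pow_succ' φ, pow_succ' τ, Equiv.Perm.mul_apply, hτ]
      exact (ih K).comp (hσ _)
  refine ⟨orderOf τ, orderOf_pos τ, fun K hK => ?_⟩
  have h1 := hpow (orderOf τ) ⟨K, hK⟩
  rw [pow_orderOf_eq_one] at h1
  exact h1

/-- intersections -/
theorem Sb.inter (hA : PairSystem Γ A) {φ : MulAut N} {L1 L2 : Set V} (h1 : Sb A φ L1 L1)
    (h2 : Sb A φ L2 L2) : Sb A φ (L1 ∩ L2) (L1 ∩ L2) := by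
  obtain ⟨g, hg⟩ := h1
  obtain ⟨g', hg'⟩ := h2
  obtain ⟨ρ, r1, r2, r3⟩ := exists_rho hA L1
  have hfix := rho_fix r1
  have hmem := rho_mem (L := L2) r1 r2
  refine ⟨g * ρ (g⁻¹ * g'), fun x hx => ?_⟩
  have hy := hg x (NS_mono Set.inter_subset_left hx)
  have hz := hg' x (NS_mono Set.inter_subset_right hx)
  have h3 := hmem _ hz
  have h4 : g'⁻¹ * φ x * g' = (g⁻¹ * g')⁻¹ * (g⁻¹ * φ x * g) * (g⁻¹ * g') := by group
  rw [h4, map_mul, map_mul (f := ρ) ((g⁻¹ * g')⁻¹), hfix _ hy, map_inv] at h3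
  have h5 : (g * ρ (g⁻¹ * g'))⁻¹ * φ x * (g * ρ (g⁻¹ * g')) =
      (ρ (g⁻¹ * g'))⁻¹ * (g⁻¹ * φ x * g) * ρ (g⁻¹ * g') := by group
  rw [h5]
  exact h3

theorem Sb.sInter [Finite V] (hA : PairSystem Γ A) {φ : MulAut N} (S : Set (Set V))
    (h : ∀ K ∈ S, Sb A φ K K) : Sb A φ (⋂₀ S) (⋂₀ S) := by
  induction S, Set.toFinite S using Set.Finite.induction_on with
  | empty =>
    rw [Set.sInter_empty]
    refine ⟨1, fun x _ => ?_⟩
    rw [NS_top hA]
    exact Subgroup.mem_top _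
  | insert hK _ ih =>
    rw [Set.sInter_insert]
    exact (h _ (Set.mem_insert _ _)).inter hA (ih fun K hK => h K (Set.mem_insert_of_mem _ hK))

end Run7.h550.TK
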