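import Pool.Agent.Run7.h550.TK.RV1

/-!
# Extensions with kernel a graph product of groups with property FA (helper550)
-/

set_option autoImplicit false

namespace Run7.h550.TK

open Pool.Agent.Y110.FJ
open Pool.Agent.Y462.SS (Closed)
open Pool.Agent.R941.FJ (C_equiv C_le C_cyc mem_sup_normal)
open Pool.Agent.R684.FP (FbC free_ext cyc_real)

variable {C : ∀ (G : Type) [Group G], Prop}

/-! ### general lemmas -/

/-- a virtually characteristic subgroup of the kernel -/
theorem ext_comp (hC : ClosedE C) {N : Type} [Group N] {R : Subgroup N} [R.Normal]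
    (hR : VChar R) (h1 : Ext C R) (h2 : Ext C (N ⧸ R)) : Ext C N := by
  refine ext_of_pow hC (fun φ => ∀ x, x ∈ R ↔ φ x ∈ R) ?_ ?_
  · intro φ
    obtain ⟨k, hk, h3⟩ := hR φ
    exact ⟨k, hk, h3⟩
  · intro φ h3
    obtain ⟨M, hM⟩ : ∃ M : Subgroup (N ⋊[zpowersHom (MulAut N) φ] Multiplicative ℤ),
        M = (SemidirectProduct.inl (φ := zpowersHom (MulAut N) φ)).range := ⟨_, rfl⟩
    have hMk : M = (SemidirectProduct.rightHom (φ := zpowersHom (MulAut N) φ)).ker := by
      rw [hM, SemidirectProduct.range_inl_eq_ker_rightHom]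
    have hMn : M.Normal := by rw [hMk]; infer_instance
    obtain ⟨e, he⟩ : ∃ e : M ≃* N, ∀ x : N, ((e.symm x : M) :
        N ⋊[zpowersHom (MulAut N) φ] Multiplicative ℤ) = SemidirectProduct.inl x := by
      subst hM
      refine ⟨(MonoidHom.ofInjective (f := SemidirectProduct.inl (φ := zpowersHom (MulAut N) φ))
        SemidirectProduct.inl_injective).symm, fun x => rfl⟩
    have hn : (im e R).Normal := im_normal h3 e he
    have hQ : C ((N ⋊[zpowersHom (MulAut N) φ] Multiplicative ℤ) ⧸ M) := by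
      subst hMk
      exact hC.base.of_injective _ _ (QuotientGroup.kerLift _)
        (QuotientGroup.kerLift_injective _) hC.base.int
    have hQ1 : C ((N ⋊[zpowersHom (MulAut N) φ] Multiplicative ℤ) ⧸ im e R) := by
      refine ext_quot (im_le e R) h2 hC.base ((QuotientGroup.mk' R).comp e.toMonoidHom) ?_ ?_ hQ
      · exact (QuotientGroup.mk'_surjective R).comp e.surjective
      · intro x
        have e1 : ((QuotientGroup.mk' R).comp e.toMonoidHom) x = 1 ↔ e x ∈ R :=
          QuotientGroup.eq_one_iff _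
        rw [e1, mem_im]
        exact ⟨fun h => ⟨x.2, h⟩, fun ⟨_, h⟩ => h⟩
    have hinj : Function.Injective (M.subtype.comp e.symm.toMonoidHom) :=
      M.subtype_injective.comp e.symm.injective
    exact h1 _ (im e R) ⟨(R.equivMapOfInjective _ hinj).symm⟩ hQ1

/-- direct factors -/
theorem ext_factor (hC : ClosedE C) {P1 P2 : Type} [Group P1] [Group P2] (h : Ext C (P1 × P2)) :
    Ext C P1 := by
  intro G _ M _ he hQ
  obtain ⟨e⟩ := he
  have h1 : C (G × P2) := by
    refine h (G × P2) (M.prod ⊤) ⟨(M.prodEquiv ⊤).trans (e.prodCongr Subgroup.topEquiv)⟩ ?_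
    obtain ⟨f, hf⟩ : ∃ f : G × P2 →* G ⧸ M, f = (QuotientGroup.mk' M).comp (MonoidHom.fst G P2) :=
      ⟨_, rfl⟩
    have hs : Function.Surjective f := by
      rw [hf]
      exact (QuotientGroup.mk'_surjective M).comp Prod.fst_surjective
    have hk : f.ker = M.prod ⊤ := by
      ext x
      rw [hf, MonoidHom.mem_ker, Subgroup.mem_prod]
      have e1 : ((QuotientGroup.mk' M).comp (MonoidHom.fst G P2)) x = 1 ↔ x.1 ∈ M :=
        QuotientGroup.eq_one_iff _
      rw [e1]
      exact ⟨fun h => ⟨h, Subgroup.mem_top _⟩, fun h => h.1⟩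
    exact C_equiv hC.base ((QuotientGroup.quotientMulEquivOfEq hk.symm).trans
      (QuotientGroup.quotientKerEquivOfSurjective f hs)) hQ
  exact hC.base.of_injective _ _ (MonoidHom.inl G P2)
    (fun a b hab => congrArg Prod.fst hab) h1

theorem ext_of_homs' (hC : ClosedE C) (hF : FbC C) {N P1 P2 : Type} [Group N] [Group P1] [Group P2]
    (r1 : N →* P1) (r2 : N →* P2) (hs1 : Function.Surjective r1) (hs2 : Function.Surjective r2)
    (h1 : VChar r1.ker) (h2 : VChar r2.ker) (hE1 : Ext C P1) (hE2 : Ext C P2)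
    (hfree : IsFreeGroup ↥(r1.ker ⊓ r2.ker)) : Ext C N :=
  ext_of_two hC hF h1 h2
    (ext_equiv (QuotientGroup.quotientKerEquivOfSurjective r1 hs1).symm hE1)
    (ext_equiv (QuotientGroup.quotientKerEquivOfSurjective r2 hs2).symm hE2) hfree

theorem amg_top {N : Type} [Group N] {A B K P : Subgroup N} (hP : P = ⊤)
    (h : Amg (A.subgroupOf P) (B.subgroupOf P) (K.subgroupOf P)) : Amg A B K := by
  subst hP
  have l : ∀ x : N, x ∈ (⊤ : Subgroup N) := fun x => Subgroup.mem_top x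
  have hl : K ≤ A := fun x hx => h.le_left (show (⟨x, l x⟩ : (⊤ : Subgroup N)) ∈ K.subgroupOf ⊤ from hx)
  have hr : K ≤ B := fun x hx => h.le_right (show (⟨x, l x⟩ : (⊤ : Subgroup N)) ∈ K.subgroupOf ⊤ from hx)
  refine ⟨hl, hr, ?_, ?_⟩
  · rw [eq_top_iff]
    intro x _
    have h1 : (⟨x, l x⟩ : (⊤ : Subgroup N)) ∈ A.subgroupOf ⊤ ⊔ B.subgroupOf ⊤ := by
      rw [h.gen]
      exact Subgroup.mem_top _
    have h2 : A.subgroupOf ⊤ ⊔ B.subgroupOf ⊤ ≤ (A ⊔ B).comap (⊤ : Subgroup N).subtype :=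
      sup_le (fun y hy => Subgroup.mem_sup_left hy) (fun y hy => Subgroup.mem_sup_right hy)
    exact h2 h1
  · intro H _ f g hfg
    obtain ⟨F, hF1, hF2⟩ := h.univ H
      (f.comp (Subgroup.subgroupOfEquivOfLe (le_top : A ≤ ⊤)).toMonoidHom)
      (g.comp (Subgroup.subgroupOfEquivOfLe (le_top : B ≤ ⊤)).toMonoidHom) (by
        rintro ⟨c, hc'⟩ hc
        exact hfg c hc)
    refine ⟨F.comp Subgroup.topEquiv.symm.toMonoidHom, ?_, ?_⟩
    · rintro ⟨a, ha⟩
      exact hF1 ⟨⟨a, l a⟩, ha⟩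
    · rintro ⟨a, ha⟩
      exact hF2 ⟨⟨a, l a⟩, ha⟩

variable {N V : Type} [Group N] {Γ : SimpleGraph V} {A : V → Subgroup N}

/-- full subgraphs -/
theorem gp_restr (h : IsGraphProduct Γ A) (Δ : Set V) :
    IsGraphProduct (Γ.induce Δ) (fun u : Δ => (A u).subgroupOf (NS A Δ)) where
  generate := by
    rw [eq_top_iff]
    intro x _
    have h1 : NS A Δ ≤ (⨆ u : Δ, (A u).subgroupOf (NS A Δ)).map (NS A Δ).subtype := by
      refine NS_le fun u hu y hy => ?_
      exact ⟨⟨y, le_NS hu hy⟩, Subgroup.mem_iSup_of_mem (⟨u, hu⟩ : Δ) hy, rfl⟩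
    obtain ⟨y, hy, hyx⟩ := h1 x.2
    have : y = x := Subtype.ext hyx
    exact this ▸ hy
  comm := by
    intro v w hvw a ha b hb
    exact Subtype.ext (h.comm v w hvw a ha b hb)
  univ := by
    classical
    intro H _ f hf
    obtain ⟨F, hF⟩ := h.univ H (fun u => if hu : u ∈ Δ then
      (f ⟨u, hu⟩).comp (Subgroup.subgroupOfEquivOfLe (le_NS hu)).symm.toMonoidHom else 1) (by
      intro u w huw a b
      by_cases hu : u ∈ Δ
      · rw [dif_pos hu]
        by_cases hw : w ∈ Δ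
        · rw [dif_pos hw]
          exact hf ⟨u, hu⟩ ⟨w, hw⟩ huw _ _
        · rw [dif_neg hw]
          simp
      · rw [dif_neg hu]
        simp)
    refine ⟨F.comp (NS A Δ).subtype, ?_⟩
    rintro ⟨v, hv⟩ x
    have h1 := hF v ⟨((x : ↥(NS A Δ)) : N), x.2⟩
    rw [dif_pos hv] at h1
    exact h1

theorem NS_restr (Δ : Set V) (Δ' : Set Δ) : NS (fun u : Δ => (A u).subgroupOf (NS A Δ)) Δ' =
    (NS A (Subtype.val '' Δ')).subgroupOf (NS A Δ) := by
  apply le_antisymm
  · refine NS_le fun u hu x hx => ?_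
    have h1 : (u : V) ∈ (Subtype.val '' Δ' : Set V) := ⟨u, hu, rfl⟩
    exact le_NS h1 hx
  · intro x hx
    have h1 : NS A (Subtype.val '' Δ') ≤
        (NS (fun u : Δ => (A u).subgroupOf (NS A Δ)) Δ').map (NS A Δ).subtype := by
      refine NS_le ?_
      rintro _ ⟨u, hu, rfl⟩ y hy
      have h2 : (⟨y, le_NS u.2 hy⟩ : ↥(NS A Δ)) ∈ (A u).subgroupOf (NS A Δ) := hy
      exact ⟨⟨y, le_NS u.2 hy⟩, le_NS (A := fun u : Δ => (A u).subgroupOf (NS A Δ)) hu h2, rfl⟩
    obtain ⟨y, hy, hyx⟩ := h1 hx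
    have : y = x := Subtype.ext hyx
    exact this ▸ hy

theorem NS_comm (h : IsGraphProduct Γ A) {Δ1 Δ2 : Set V}
    (hadj : ∀ u ∈ Δ1, ∀ w ∈ Δ2, Γ.Adj u w) : ∀ a ∈ NS A Δ1, ∀ b ∈ NS A Δ2, a * b = b * a := by
  intro a ha b hb
  have h1 : NS A Δ1 ≤ Subgroup.centralizer {b} := by
    refine NS_le fun u hu x hx => ?_
    have h2 : NS A Δ2 ≤ Subgroup.centralizer {x} := by
      refine NS_le fun w hw y hy => ?_
      rw [Subgroup.mem_centralizer_singleton_iff]
      exact (h.comm u w (hadj u hu w hw) x hx y hy).symm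
    have h3 := Subgroup.mem_centralizer_singleton_iff.1 (h2 hb)
    rw [Subgroup.mem_centralizer_singleton_iff]
    exact h3.symm
  exact Subgroup.mem_centralizer_singleton_iff.1 (h1 ha)

/-- the retraction which kills `L`, as a surjection -/
theorem exists_kill (hA : PairSystem Γ A) (L : Set V) : ∃ r : N →* ↥(NS A Lᶜ),
    (∀ (x : N) (hx : x ∈ NS A Lᶜ), r x = ⟨x, hx⟩) ∧ Function.Surjective r ∧
    r.ker = Subgroup.normalClosure (NS A L : Set N) := by
  obtain ⟨ρ, h1, h2, h3⟩ := exists_rho hA Lᶜ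
  obtain ⟨r, hr⟩ : ∃ r : N →* ↥(NS A Lᶜ), r = ρ.codRestrict _ h3 := ⟨_, rfl⟩
  have hrv : ∀ x, ((r x : ↥(NS A Lᶜ)) : N) = ρ x := by
    intro x
    rw [hr]
    rfl
  have hfix : ∀ (x : N) (hx : x ∈ NS A Lᶜ), r x = ⟨x, hx⟩ := fun x hx =>
    Subtype.ext ((hrv x).trans (rho_fix h1 x hx))
  have hkill : ∀ x ∈ NS A L, r x = 1 := by
    intro x hx
    apply Subtype.ext
    rw [hrv]
    exact NS_eq_on (g := (1 : N →* N)) (fun v hv x hx => h2 v (fun h => h hv) x hx) x hx
  refine ⟨r, hfix, fun y => ⟨y, hfix y y.2⟩, ?_⟩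
  refine ker_eq r (NS A Lᶜ).subtype _ hkill ?_
  have h5 : ∀ x ∈ NS A Set.univ, ((QuotientGroup.mk' (Subgroup.normalClosure (NS A L : Set N))).comp
      ((NS A Lᶜ).subtype.comp r)) x = QuotientGroup.mk' (Subgroup.normalClosure (NS A L : Set N)) x := by
    refine NS_eq_on fun v _ x hx => ?_
    show QuotientGroup.mk' _ ((r x : ↥(NS A Lᶜ)) : N) = _
    by_cases hv : v ∈ L
    · have h6 : x ∈ NS A L := le_NS hv hx
      rw [hkill x h6]
      refine ((QuotientGroup.eq_one_iff _).2 ?_).symm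
      exact Subgroup.subset_normalClosure h6
    · have h6 : x ∈ NS A Lᶜ := by
        have h7 : v ∈ Lᶜ := hv
        exact le_NS h7 hx
      rw [hfix x h6]
  ext x
  exact h5 x (by rw [NS_top hA]; exact Subgroup.mem_top x)

theorem vchar_nc {L : Set V} (h : ∀ φ : MulAut N, ∃ k : ℕ, 0 < k ∧ MM A (φ ^ k) L L) :
    VChar (Subgroup.normalClosure (NS A L : Set N)) := by
  intro φ
  obtain ⟨k, hk, h1, h2⟩ := h φ
  have key : ∀ ψ : MulAut N, Sb A ψ L L → ∀ x ∈ Subgroup.normalClosure (NS A L : Set N),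
      ψ x ∈ Subgroup.normalClosure (NS A L : Set N) := by
    rintro ψ ⟨g, hg⟩
    have h3 : Subgroup.normalClosure (NS A L : Set N) ≤
        (Subgroup.normalClosure (NS A L : Set N)).comap ψ.toMonoidHom := by
      refine Subgroup.normalClosure_le_normal fun x hx => ?_
      show ψ x ∈ Subgroup.normalClosure (NS A L : Set N)
      have h4 := Subgroup.subset_normalClosure (hg x hx)
      have h5 := (inferInstance : (Subgroup.normalClosure (NS A L : Set N)).Normal).conj_mem _ h4 g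
      have h6 : g * (g⁻¹ * ψ x * g) * g⁻¹ = ψ x := by group
      rwa [h6] at h5
    exact fun x hx => h3 hx
  refine ⟨k, hk, fun x => ⟨fun hx => key _ h1 x hx, fun hx => ?_⟩⟩
  have h3 := key _ h2 _ hx
  rwa [MulAut.inv_apply_self] at h3

end Run7.h550.TK
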