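import Pool.Agent.Run7.h550.TK.RV2

/-!
# Extensions with kernel a graph product of groups with property FA: the main theorem (helper550)
-/

set_option autoImplicit false

namespace Run7.h550.TK

open Pool.Agent.Y110.FJ
open Pool.Agent.Y462.SS (Closed)
open Pool.Agent.R684.FP (FbC free_ext cyc_real)

variable {C : ∀ (G : Type) [Group G], Prop}
variable {N V : Type} [Group N] {Γ : SimpleGraph V} {A : V → Subgroup N}

/-- intersections of maximal cliques -/
def LL (Γ : SimpleGraph V) (L : Set V) : Prop :=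
  ∃ S : Set (Set V), (∀ K ∈ S, Maximal Γ.IsClique K) ∧ L = ⋂₀ S

theorem LL.mm [Finite V] (h : IsGraphProduct Γ A) (hne : ∀ v, A v ≠ ⊥) (hfa : ∀ v, FA (A v))
    {L : Set V} (hL : LL Γ L) (φ : MulAut N) : ∃ k : ℕ, 0 < k ∧ MM A (φ ^ k) L L := by
  obtain ⟨k, hk, h1⟩ := exists_pow h hne hfa φ
  obtain ⟨S, hS, rfl⟩ := hL
  exact ⟨k, hk, Sb.sInter h.pairSystem S fun K hK => (h1 K (hS K hK)).1,
    Sb.sInter h.pairSystem S fun K hK => (h1 K (hS K hK)).2⟩

theorem LL.inter {L1 L2 : Set V} (h1 : LL Γ L1) (h2 : LL Γ L2) : LL Γ (L1 ∩ L2) := by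
  obtain ⟨S1, h3, rfl⟩ := h1
  obtain ⟨S2, h4, rfl⟩ := h2
  refine ⟨S1 ∪ S2, fun K hK => hK.elim (h3 K) (h4 K), ?_⟩
  rw [Set.sInter_union]

theorem LL.max {K : Set V} (h : Maximal Γ.IsClique K) : LL Γ K :=
  ⟨{K}, fun K' hK' => by rw [Set.mem_singleton_iff.1 hK']; exact h, by rw [Set.sInter_singleton]⟩

/-- **the free intersection** -/
theorem free_inter (h : IsGraphProduct Γ A) {L K : Set V} (hdisj : ∀ v ∈ L, v ∉ K)
    (hstar : ∀ u ∈ L, ∀ u', Γ.Adj u u' → u' ∉ L → ∀ v ∈ L, Γ.Adj v u') :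
    IsFreeGroup ↥(Subgroup.normalClosure (NS A L : Set N) ⊓
      Subgroup.normalClosure (NS A K : Set N)) := by
  obtain ⟨M, hM⟩ : ∃ M : Set V, M = {w | w ∉ L ∧ ∀ v ∈ L, Γ.Adj v w} := ⟨_, rfl⟩
  have hMm : ∀ w, w ∈ M ↔ (w ∉ L ∧ ∀ v ∈ L, Γ.Adj v w) := by
    intro w
    rw [hM]
    rfl
  have ham := amg_top (NS_top h.pairSystem) (amg_gen h.pairSystem (Δ := Set.univ) (Δ1 := Lᶜ)
    (Δ2 := L ∪ M) (Set.subset_univ _) (Set.subset_univ _) (by
      intro v _
      by_cases hv : v ∈ L
      · exact Or.inr (Or.inl hv)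
      · exact Or.inl hv) (by
      intro u _ u' _ huu
      by_cases hu : u ∈ L
      · right
        refine ⟨Or.inl hu, ?_⟩
        by_cases hu' : u' ∈ L
        · exact Or.inl hu'
        · exact Or.inr ((hMm u').2 ⟨hu', hstar u hu u' huu hu'⟩)
      · by_cases hu' : u' ∈ L
        · right
          exact ⟨Or.inr ((hMm u).2 ⟨hu, hstar u' hu' u huu.symm hu⟩), Or.inl hu'⟩
        · left
          exact ⟨hu, hu'⟩))
  obtain ⟨r1, h1, -, k1⟩ := exists_kill h.pairSystem L
  obtain ⟨r2, h2, -, k2⟩ := exists_kill h.pairSystem K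
  rw [← k1, ← k2]
  have one1 : ∀ x ∈ NS A L, r1 x = 1 := by
    intro x hx
    have : x ∈ r1.ker := by
      rw [k1]
      exact Subgroup.subset_normalClosure hx
    exact this
  refine free_of ham (R := r1.ker ⊓ r2.ker) ?_ ?_
  · rintro x hx ⟨hx1, -⟩
    have e1 : r1 x = 1 := hx1
    rw [h1 x hx] at e1
    exact congrArg Subtype.val e1
  · rintro x hx ⟨hx1, hx2⟩
    have e1 : r1 x = 1 := hx1
    have e2 : r2 x = 1 := hx2
    obtain ⟨F, hF⟩ : ∃ F : ↥(NS A L) × ↥(NS A M) →* N, ∀ p, F p = (p.1 : N) * (p.2 : N) :=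
      ⟨MonoidHom.noncommCoprod (NS A L).subtype (NS A M).subtype (by
        intro a b
        exact NS_comm h (fun u hu w hw => ((hMm w).1 hw).2 u hu) a a.2 b b.2), fun p => rfl⟩
    have h3 : NS A (L ∪ M) ≤ F.range := by
      refine NS_le ?_
      rintro v (hv | hv) y hy
      · refine ⟨(⟨y, le_NS hv hy⟩, 1), ?_⟩
        rw [hF]
        exact mul_one y
      · refine ⟨(1, ⟨y, le_NS hv hy⟩), ?_⟩
        rw [hF]
        exact one_mul y
    obtain ⟨⟨⟨a, ha⟩, ⟨b, hb⟩⟩, hab⟩ := h3 hx
    rw [hF] at hab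
    have hab' : a * b = x := hab
    have hbL : b ∈ NS A Lᶜ := NS_mono (fun w hw => ((hMm w).1 hw).1) hb
    rw [← hab', map_mul, one1 a ha, one_mul, h1 b hbL] at e1
    have hb1 : b = 1 := congrArg Subtype.val e1
    rw [hb1, mul_one] at hab'
    have haK : a ∈ NS A Kᶜ := NS_mono hdisj ha
    rw [← hab', h2 a haK] at e2
    rw [← hab']
    exact congrArg Subtype.val e2

theorem normal_of_adj (h : IsGraphProduct Γ A) {Z : Set V}
    (hadj : ∀ u ∈ Z, ∀ w, w ∉ Z → Γ.Adj u w) : (NS A Z).Normal := by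
  rw [← Subgroup.normalizer_eq_top_iff, eq_top_iff, ← NS_top h.pairSystem]
  refine NS_le fun v _ x hx => ?_
  by_cases hv : v ∈ Z
  · exact Subgroup.le_normalizer (le_NS hv hx)
  · have hxv : x ∈ NS A {v} := le_NS (Set.mem_singleton v) hx
    have hcomm : ∀ a ∈ NS A Z, a * x = x * a := by
      intro a ha
      refine NS_comm h (Δ1 := Z) (Δ2 := {v}) ?_ a ha x hxv
      intro u hu w hw
      rw [Set.mem_singleton_iff] at hw
      rw [hw]
      exact hadj u hu v hv
    rw [Subgroup.mem_normalizer_iff]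
    intro c
    constructor
    · intro hc
      have h5 : x * c * x⁻¹ = c := by
        rw [← hcomm c hc]
        group
      rw [h5]
      exact hc
    · intro hc
      have h6 := hcomm _ hc
      have h8 : x * c = x * (x * c * x⁻¹) := by
        rw [← h6]
        group
      have h7 : c = x * c * x⁻¹ := mul_left_cancel h8
      rw [h7]
      exact hc

theorem fa_ext (hC : ClosedE C) (hF : FbC C) : ∀ (n : ℕ) (V N : Type) [Group N] [Finite V]
    (Γ : SimpleGraph V) (A : V → Subgroup N), Nat.card V = n → IsGraphProduct Γ A →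
    (∀ v, A v ≠ ⊥) → (∀ v, FA (A v)) → (∀ Δ : Set V, Γ.IsClique Δ → Ext C ↥(NS A Δ)) →
    Ext C N := by
  intro n
  induction n using Nat.strong_induction_on with
  | _ n ih =>
    intro V N _ _ Γ A hn h hne hfa hcl
    have hrec : ∀ L : Set V, L.Nonempty → Ext C ↥(NS A Lᶜ) := by
      rintro L ⟨v, hv⟩
      have hlt : Nat.card ↥(Lᶜ : Set V) < n := by
        rw [← hn]
        exact Finite.card_subtype_lt (p := fun x => x ∈ Lᶜ) (x := v) (fun h => h hv)
      refine ih _ hlt ↥(Lᶜ : Set V) ↥(NS A Lᶜ) (Γ.induce Lᶜ)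
        (fun u => (A u).subgroupOf (NS A Lᶜ)) rfl (gp_restr h _) ?_ ?_ ?_
      · intro u hu
        rw [Subgroup.subgroupOf_eq_bot] at hu
        exact hne u (hu.eq_bot_of_le (le_NS u.2))
      · intro u
        exact fa_equiv (Subgroup.subgroupOfEquivOfLe (le_NS u.2)).symm (hfa u)
      · intro Δ hΔ
        have h1 : Γ.IsClique (Subtype.val '' Δ) := by
          rintro _ ⟨u, hu, rfl⟩ _ ⟨w, hw, rfl⟩ huw
          exact hΔ hu hw (fun e => huw (congrArg _ e))
        have h2 : NS A (Subtype.val '' Δ) ≤ NS A Lᶜ := NS_mono (by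
          rintro _ ⟨u, hu, rfl⟩
          exact u.2)
        rw [NS_restr]
        exact ext_equiv (Subgroup.subgroupOfEquivOfLe h2).symm (hcl _ h1)
    by_cases huniv : Γ.IsClique Set.univ
    · have h1 := hcl _ huniv
      rw [NS_top h.pairSystem] at h1
      exact ext_equiv Subgroup.topEquiv h1
    · obtain ⟨Z, hZ⟩ : ∃ Z : Set V, Z = ⋂₀ {K | Maximal Γ.IsClique K} := ⟨_, rfl⟩
      have hZL : LL Γ Z := ⟨_, fun K hK => hK, hZ⟩
      have hsing : ∀ w : V, ∃ K, w ∈ K ∧ Maximal Γ.IsClique K := by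
        intro w
        obtain ⟨K, h1, h2⟩ := exists_max (Γ := Γ) (K := {w}) (by
          rintro x rfl y rfl hxy
          exact absurd rfl hxy)
        exact ⟨K, h1 rfl, h2⟩
      by_cases hZe : Z.Nonempty
      · have hadj : ∀ u ∈ Z, ∀ w, w ∉ Z → Γ.Adj u w := by
          intro u hu w hw
          obtain ⟨K, h1, h2⟩ := hsing w
          have h3 : u ∈ K := by
            rw [hZ] at hu
            exact hu K h2
          exact h2.prop h3 h1 (fun e => hw (e ▸ hu))
        have hZc : Γ.IsClique Z := by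
          obtain ⟨u, hu⟩ := hZe
          obtain ⟨K, h1, h2⟩ := hsing u
          refine h2.prop.subset ?_
          rw [hZ]
          exact fun x hx => hx K h2
        obtain ⟨r, h1, h2, h3⟩ := exists_kill h.pairSystem Z
        have hnorm : (NS A Z).Normal := normal_of_adj h hadj
        have h4 : NS A Z = r.ker := by
          rw [h3]
          exact (Subgroup.normalClosure_eq_self (NS A Z)).symm
        refine ext_comp hC (R := r.ker) ?_ ?_ ?_
        · rw [h3]
          exact vchar_nc (LL.mm h hne hfa hZL)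
        · exact ext_equiv (MulEquiv.subgroupCongr h4) (hcl Z hZc)
        · exact ext_equiv (QuotientGroup.quotientKerEquivOfSurjective r h2).symm (hrec Z hZe)
      · obtain ⟨v0, -⟩ : (Set.univ : Set V).Nonempty := by
          by_contra hcon
          rw [Set.not_nonempty_iff_eq_empty] at hcon
          apply huniv
          rw [hcon]
          intro v hv
          exact absurd hv (Set.notMem_empty v)
        have hfin : {L : Set V | LL Γ L ∧ L.Nonempty}.Finite := Set.toFinite _
        obtain ⟨L, hLmin⟩ := hfin.exists_minimal ⟨Set.univ, ⟨∅, fun K hK =>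
          absurd hK (Set.notMem_empty K), by rw [Set.sInter_empty]⟩, ⟨v0, trivial⟩⟩
        have hmin : ∀ L', LL Γ L' → L'.Nonempty → L' ⊆ L → L ⊆ L' := fun L' h1 h2 h3 =>
          hLmin.le_of_le ⟨h1, h2⟩ h3
        obtain ⟨hL1, v, hv⟩ := hLmin.prop
        obtain ⟨K, hK, hvK⟩ : ∃ K, Maximal Γ.IsClique K ∧ v ∉ K := by
          by_contra hcon
          push Not at hcon
          apply hZe
          refine ⟨v, ?_⟩
          rw [hZ]
          exact fun K hK => hcon K hK
        have hdisj : ∀ w ∈ L, w ∉ K := by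
          intro w hw hwK
          have h1 := hmin (L ∩ K) (hL1.inter (LL.max hK)) ⟨w, hw, hwK⟩ Set.inter_subset_left
          exact hvK (h1 hv).2
        have hKne : K.Nonempty := by
          by_contra hcon
          rw [Set.not_nonempty_iff_eq_empty] at hcon
          obtain ⟨K', h1, h2⟩ := hsing v
          have h3 := hK.le_of_ge h2.prop (by rw [hcon]; exact Set.empty_subset _)
          rw [hcon] at h3
          exact h3 h1
        have hstar : ∀ u ∈ L, ∀ u', Γ.Adj u u' → u' ∉ L → ∀ w ∈ L, Γ.Adj w u' := by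
          intro u hu u' huu hu' w hw
          obtain ⟨K', h1, h2⟩ := exists_max (Γ := Γ) (K := {u, u'}) (by
            rintro x (rfl | rfl) y (rfl | rfl) hxy
            · exact absurd rfl hxy
            · exact huu
            · exact huu.symm
            · exact absurd rfl hxy)
          have h3 := hmin (L ∩ K') (hL1.inter (LL.max h2)) ⟨u, hu, h1 (Or.inl rfl)⟩
            Set.inter_subset_left
          exact h2.prop (h3 hw).2 (h1 (Or.inr rfl)) (fun e => hu' (e ▸ hw))
        obtain ⟨r1, -, s1, k1⟩ := exists_kill h.pairSystem L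
        obtain ⟨r2, -, s2, k2⟩ := exists_kill h.pairSystem K
        refine ext_of_homs' hC hF r1 r2 s1 s2 ?_ ?_ (hrec L ⟨v, hv⟩) (hrec K hKne) ?_
        · rw [k1]
          exact vchar_nc (LL.mm h hne hfa hL1)
        · rw [k2]
          exact vchar_nc (LL.mm h hne hfa (LL.max hK))
        · rw [k1, k2]
          exact free_inter h hdisj hstar

end Run7.h550.TK
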