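import Pool.Agent.Run7.h550.TK.Tor

/-!
# Groups whose relations involve only two subgroups of a system at a time (helper550)
-/

set_option autoImplicit false

namespace Run7.h550.TK

open Pool.Agent.Y110.FJ
open Pool.Agent.Y462.SS (Closed)
open Pool.Agent.R941.FJ (C_equiv C_le C_cyc mem_sup_normal)
open Pool.Agent.R684.FP (FbC free_ext cyc_real)

/-- The group `N` is generated by the subgroups `A v`, all relations between them are consequences of
relations between two of them which are adjacent in the graph `Γ`, and for each `v` there is an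
endomorphism of `N` which kills `A v` and fixes the elements of the other subgroups. -/
structure PairSystem {N V : Type} [Group N] (Γ : SimpleGraph V) (A : V → Subgroup N) : Prop where
  generate : ⨆ v, A v = ⊤
  retract : ∀ v, ∃ r : N →* N, (∀ x ∈ A v, r x = 1) ∧ ∀ w, w ≠ v → ∀ x ∈ A w, r x = x
  univ : ∀ (H : Type) [Group H] (f : ∀ v, A v →* H),
    (∀ v w, Γ.Adj v w → ∃ F : ↥(A v ⊔ A w) →* H,
      (∀ (x : N) (hx : x ∈ A v), F ⟨x, Subgroup.mem_sup_left hx⟩ = f v ⟨x, hx⟩) ∧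
      (∀ (x : N) (hx : x ∈ A w), F ⟨x, Subgroup.mem_sup_right hx⟩ = f w ⟨x, hx⟩)) →
    ∃ F : N →* H, ∀ (v : V) (x : A v), F x = f v x

variable {N V : Type} [Group N] {Γ : SimpleGraph V} {A : V → Subgroup N}

/-- the subgroup generated by some of the subgroups -/
def NS (A : V → Subgroup N) (Δ : Set V) : Subgroup N := ⨆ v ∈ Δ, A v

theorem le_NS {Δ : Set V} {v : V} (h : v ∈ Δ) : A v ≤ NS A Δ := le_iSup₂_of_le v h le_rfl

theorem NS_le {Δ : Set V} {D : Subgroup N} (h : ∀ v ∈ Δ, A v ≤ D) : NS A Δ ≤ D := iSup₂_le h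

theorem NS_mono {Δ Δ' : Set V} (h : Δ ⊆ Δ') : NS A Δ ≤ NS A Δ' := NS_le fun _ hv => le_NS (h hv)

theorem NS_hom_ext {Δ : Set V} {H : Type} [Group H] {f g : ↥(NS A Δ) →* H}
    (h : ∀ (v : V) (hv : v ∈ Δ) (x : N) (hx : x ∈ A v), f ⟨x, le_NS hv hx⟩ = g ⟨x, le_NS hv hx⟩) :
    f = g := by
  have h1 : NS A Δ ≤ (f.eqLocus g).map (NS A Δ).subtype := by
    refine NS_le fun v hv x hx => ?_
    exact ⟨⟨x, le_NS hv hx⟩, h v hv x hx, rfl⟩
  ext x
  obtain ⟨y, hy, hyx⟩ := h1 x.2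
  have : y = x := Subtype.ext hyx
  rw [← this]
  exact hy

theorem NS_eq_on {Δ : Set V} {H : Type} [Group H] {f g : N →* H}
    (h : ∀ v ∈ Δ, ∀ x ∈ A v, f x = g x) : ∀ x ∈ NS A Δ, f x = g x := by
  have h1 : NS A Δ ≤ f.eqLocus g := NS_le fun v hv x hx => h v hv x hx
  exact fun x hx => h1 hx

/-- the projection of a pair -/
theorem pair_proj (hA : PairSystem Γ A) {u u' : V} (h : u ≠ u') : ∃ r : ↥(A u ⊔ A u') →* A u,
    (∀ (x : N) (hx : x ∈ A u), r ⟨x, Subgroup.mem_sup_left hx⟩ = ⟨x, hx⟩) ∧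
    (∀ (x : N) (hx : x ∈ A u'), r ⟨x, Subgroup.mem_sup_right hx⟩ = 1) := by
  obtain ⟨r, h1, h2⟩ := hA.retract u'
  have h3 : ∀ x ∈ A u ⊔ A u', r x ∈ A u := by
    have : A u ⊔ A u' ≤ (A u).comap r := by
      refine sup_le (fun x hx => ?_) (fun x hx => ?_)
      · show r x ∈ A u
        rw [h2 u h x hx]
        exact hx
      · show r x ∈ A u
        rw [h1 x hx]
        exact one_mem _
    exact fun x hx => this hx
  refine ⟨(r.comp (A u ⊔ A u').subtype).codRestrict (A u) (fun x => h3 _ x.2), fun x hx => ?_,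
    fun x hx => ?_⟩
  · exact Subtype.ext (h2 u h x hx)
  · exact Subtype.ext (h1 x hx)

/-- the retraction onto the subgroup generated by some of the subgroups -/
theorem exists_rho (hA : PairSystem Γ A) (Δ : Set V) : ∃ r : N →* N,
    (∀ v ∈ Δ, ∀ x ∈ A v, r x = x) ∧ (∀ v, v ∉ Δ → ∀ x ∈ A v, r x = 1) ∧ ∀ x, r x ∈ NS A Δ := by
  classical
  obtain ⟨F, hF⟩ := hA.univ N (fun v => if v ∈ Δ then (A v).subtype else 1) (by
    intro v w hvw
    by_cases h1 : v ∈ Δ
    · by_cases h2 : w ∈ Δ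
      · refine ⟨(A v ⊔ A w).subtype, fun x hx => ?_, fun x hx => ?_⟩
        · rw [if_pos h1]; rfl
        · rw [if_pos h2]; rfl
      · obtain ⟨r, hr1, hr2⟩ := pair_proj hA hvw.ne
        refine ⟨(A v).subtype.comp r, fun x hx => ?_, fun x hx => ?_⟩
        · rw [if_pos h1]
          show ((r _ : A v) : N) = x
          rw [hr1 x hx]
        · rw [if_neg h2]
          show ((r _ : A v) : N) = 1
          rw [hr2 x hx]
          rfl
    · by_cases h2 : w ∈ Δ
      · obtain ⟨r, hr1, hr2⟩ := hA.retract v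
        refine ⟨r.comp (A v ⊔ A w).subtype, fun x hx => ?_, fun x hx => ?_⟩
        · rw [if_neg h1]
          exact hr1 x hx
        · rw [if_pos h2]
          exact hr2 w hvw.ne' x hx
      · refine ⟨1, fun x hx => ?_, fun x hx => ?_⟩
        · rw [if_neg h1]; rfl
        · rw [if_neg h2]; rfl)
  have h1 : ∀ v ∈ Δ, ∀ x ∈ A v, F x = x := by
    intro v hv x hx
    have := hF v ⟨x, hx⟩
    rw [if_pos hv] at this
    exact this
  have h2 : ∀ v, v ∉ Δ → ∀ x ∈ A v, F x = 1 := by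
    intro v hv x hx
    have := hF v ⟨x, hx⟩
    rw [if_neg hv] at this
    exact this
  refine ⟨F, h1, h2, fun x => ?_⟩
  have h3 : (⊤ : Subgroup N) ≤ (NS A Δ).comap F := by
    rw [← hA.generate]
    refine iSup_le fun v x hx => ?_
    show F x ∈ NS A Δ
    by_cases hv : v ∈ Δ
    · rw [h1 v hv x hx]
      exact le_NS hv hx
    · rw [h2 v hv x hx]
      exact one_mem _
  exact h3 (Subgroup.mem_top x)

/-- **the amalgamated product for a pair of vertices which are not adjacent** -/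
theorem amg_NS (hA : PairSystem Γ A) {Δ : Set V} {v w : V} (hv : v ∈ Δ) (hw : w ∈ Δ) (hvw : v ≠ w)
    (hadj : ¬ Γ.Adj v w) : Amg ((NS A (Δ \ {v})).subgroupOf (NS A Δ))
      ((NS A (Δ \ {w})).subgroupOf (NS A Δ)) ((NS A (Δ \ {v, w})).subgroupOf (NS A Δ)) := by
  classical
  have l1 : NS A (Δ \ {v}) ≤ NS A Δ := NS_mono Set.diff_subset
  have l2 : NS A (Δ \ {w}) ≤ NS A Δ := NS_mono Set.diff_subset
  have l12 : NS A (Δ \ {v, w}) ≤ NS A Δ := NS_mono Set.diff_subset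
  have l3 : NS A (Δ \ {v, w}) ≤ NS A (Δ \ {v}) := NS_mono (by
    intro u hu
    exact ⟨hu.1, fun h => hu.2 (Or.inl h)⟩)
  have l4 : NS A (Δ \ {v, w}) ≤ NS A (Δ \ {w}) := NS_mono (by
    intro u hu
    exact ⟨hu.1, fun h => hu.2 (Or.inr h)⟩)
  refine ⟨?_, ?_, ?_, ?_⟩
  · intro x hx
    exact l3 hx
  · intro x hx
    exact l4 hx
  · rw [eq_top_iff]
    intro x _
    have h1 : NS A Δ ≤ ((NS A (Δ \ {v})).subgroupOf (NS A Δ) ⊔
        (NS A (Δ \ {w})).subgroupOf (NS A Δ)).map (NS A Δ).subtype := by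
      refine NS_le fun u hu y hy => ?_
      by_cases huv : u = v
      · have h3 : u ∈ Δ \ {w} := ⟨hu, fun h => hvw (huv.symm.trans h)⟩
        have h2 : y ∈ NS A (Δ \ {w}) := le_NS h3 hy
        exact ⟨⟨y, le_NS hu hy⟩, Subgroup.mem_sup_right h2, rfl⟩
      · have h3 : u ∈ Δ \ {v} := ⟨hu, huv⟩
        have h2 : y ∈ NS A (Δ \ {v}) := le_NS h3 hy
        exact ⟨⟨y, le_NS hu hy⟩, Subgroup.mem_sup_left h2, rfl⟩
    obtain ⟨y, hy, hyx⟩ := h1 x.2
    have : y = x := Subtype.ext hyx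
    exact this ▸ hy
  · intro H _ f g hfg
    obtain ⟨f', hf'⟩ : ∃ f' : ↥(NS A (Δ \ {v})) →* H,
        f' = f.comp (Subgroup.subgroupOfEquivOfLe l1).symm.toMonoidHom := ⟨_, rfl⟩
    obtain ⟨g', hg'⟩ : ∃ g' : ↥(NS A (Δ \ {w})) →* H,
        g' = g.comp (Subgroup.subgroupOfEquivOfLe l2).symm.toMonoidHom := ⟨_, rfl⟩
    have hf1 : ∀ (x : N) (hx : x ∈ NS A (Δ \ {v})), f' ⟨x, hx⟩ =
        f ⟨(⟨x, l1 hx⟩ : ↥(NS A Δ)), hx⟩ := by
      intro x hx
      rw [hf']
      rfl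
    have hg1 : ∀ (x : N) (hx : x ∈ NS A (Δ \ {w})), g' ⟨x, hx⟩ =
        g ⟨(⟨x, l2 hx⟩ : ↥(NS A Δ)), hx⟩ := by
      intro x hx
      rw [hg']
      rfl
    have hfg' : ∀ (x : N) (hx : x ∈ NS A (Δ \ {v, w})), f' ⟨x, l3 hx⟩ = g' ⟨x, l4 hx⟩ := by
      intro x hx
      rw [hf1, hg1]
      exact hfg ⟨x, l12 hx⟩ hx
    -- the family of homomorphisms
    obtain ⟨F0, hF1, hF2, hF3⟩ : ∃ F0 : ∀ u, A u →* H,
        (∀ (u : V) (hu : u ∈ Δ \ {v}) (x : N) (hx : x ∈ A u), F0 u ⟨x, hx⟩ = f' ⟨x, le_NS hu hx⟩) ∧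
        (∀ (u : V) (hu : u ∈ Δ \ {w}) (x : N) (hx : x ∈ A u), F0 u ⟨x, hx⟩ = g' ⟨x, le_NS hu hx⟩) ∧
        (∀ u, u ∉ Δ → F0 u = 1) := by
      refine ⟨fun u => if h1 : u ∈ Δ \ {v} then f'.comp (Subgroup.inclusion (le_NS h1)) else
        if h2 : u ∈ Δ \ {w} then g'.comp (Subgroup.inclusion (le_NS h2)) else 1, ?_, ?_, ?_⟩
      · intro u hu x hx
        beta_reduce
        rw [dif_pos hu]
        rfl
      · intro u hu x hx
        beta_reduce
        by_cases h1 : u ∈ Δ \ {v}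
        · rw [dif_pos h1]
          have h3 : u ∈ Δ \ {v, w} := ⟨hu.1, fun h => h.elim h1.2 hu.2⟩
          exact hfg' x (le_NS h3 hx)
        · rw [dif_neg h1, dif_pos hu]
          rfl
      · intro u hu
        beta_reduce
        rw [dif_neg (fun h : u ∈ Δ \ {v} => hu h.1), dif_neg (fun h : u ∈ Δ \ {w} => hu h.1)]
    obtain ⟨F, hF⟩ := hA.univ H F0 (by
      intro u u' huu
      by_cases hu : u ∈ Δ
      · by_cases hu' : u' ∈ Δ
        · by_cases h1 : u ≠ v ∧ u' ≠ v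
          · have hle : A u ⊔ A u' ≤ NS A (Δ \ {v}) :=
              sup_le (le_NS ⟨hu, h1.1⟩) (le_NS ⟨hu', h1.2⟩)
            refine ⟨f'.comp (Subgroup.inclusion hle), fun x hx => ?_, fun x hx => ?_⟩
            · rw [hF1 u ⟨hu, h1.1⟩ x hx]
              rfl
            · rw [hF1 u' ⟨hu', h1.2⟩ x hx]
              rfl
          · have h2 : u ≠ w ∧ u' ≠ w := by
              rw [not_and_or, not_not, not_not] at h1
              rcases h1 with rfl | rfl
              · exact ⟨hvw, fun h => hadj (h ▸ huu)⟩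
              · exact ⟨fun h => hadj (h ▸ huu.symm), hvw⟩
            have hle : A u ⊔ A u' ≤ NS A (Δ \ {w}) :=
              sup_le (le_NS ⟨hu, h2.1⟩) (le_NS ⟨hu', h2.2⟩)
            refine ⟨g'.comp (Subgroup.inclusion hle), fun x hx => ?_, fun x hx => ?_⟩
            · rw [hF2 u ⟨hu, h2.1⟩ x hx]
              rfl
            · rw [hF2 u' ⟨hu', h2.2⟩ x hx]
              rfl
        · obtain ⟨r, hr1, hr2⟩ := pair_proj hA huu.ne
          refine ⟨(F0 u).comp r, fun x hx => ?_, fun x hx => ?_⟩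
          · show F0 u (r _) = _
            rw [hr1 x hx]
          · show F0 u (r _) = _
            rw [hr2 x hx, map_one, hF3 u' hu']
            rfl
      · by_cases hu' : u' ∈ Δ
        · obtain ⟨r, hr1, hr2⟩ := pair_proj hA huu.ne'
          have hle : A u ⊔ A u' ≤ A u' ⊔ A u := sup_comm (A u) (A u') ▸ le_rfl
          refine ⟨((F0 u').comp r).comp (Subgroup.inclusion hle), fun x hx => ?_, fun x hx => ?_⟩
          · show F0 u' (r ⟨x, _⟩) = _
            rw [hr2 x hx, map_one, hF3 u hu]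
            rfl
          · show F0 u' (r ⟨x, _⟩) = _
            rw [hr1 x hx]
        · refine ⟨1, fun x hx => ?_, fun x hx => ?_⟩
          · rw [hF3 u hu]
            rfl
          · rw [hF3 u' hu']
            rfl)
    refine ⟨F.comp (NS A Δ).subtype, ?_, ?_⟩
    · rintro ⟨⟨x, hx⟩, hx1⟩
      have hx2 : x ∈ NS A (Δ \ {v}) := hx1
      have h1 : F.comp (NS A (Δ \ {v})).subtype = f' := NS_hom_ext fun u hu y hy =>
        (hF u ⟨y, hy⟩).trans (hF1 u hu y hy)
      have h2 := DFunLike.congr_fun h1 ⟨x, hx2⟩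
      rw [hf1] at h2
      exact h2
    · rintro ⟨⟨x, hx⟩, hx1⟩
      have hx2 : x ∈ NS A (Δ \ {w}) := hx1
      have h1 : F.comp (NS A (Δ \ {w})).subtype = g' := NS_hom_ext fun u hu y hy =>
        (hF u ⟨y, hy⟩).trans (hF2 u hu y hy)
      have h2 := DFunLike.congr_fun h1 ⟨x, hx2⟩
      rw [hg1] at h2
      exact h2

end Run7.h550.TK
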