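import Pool.Agent.Run7.h550.TK.Ext

/-!
# Groups with finitely many conjugacy classes of elements of finite order (helper550)
-/

set_option autoImplicit false

namespace Run7.h550.TK

open Pool.Agent.Y110.FJ
open Pool.Agent.Y462.SS (Closed)
open Pool.Agent.R941.FJ (C_equiv C_le C_cyc mem_sup_normal)
open Pool.Agent.R684.FP (FbC free_ext cyc_real)

variable {C : ∀ (G : Type) [Group G], Prop}

/-- the elements of finite order form finitely many conjugacy classes -/
def FinTor (N : Type) [Group N] : Prop :=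
  ∃ S : Set N, S.Finite ∧ ∀ x : N, IsOfFinOrder x → ∃ y : N, y * x * y⁻¹ ∈ S

/-- the group is generated by its elements of finite order -/
def TorGen (N : Type) [Group N] : Prop := Subgroup.closure {x : N | IsOfFinOrder x} = ⊤

theorem fin_conj {N : Type} [Group N] {x : N} (y : N) (h : IsOfFinOrder x) :
    IsOfFinOrder (y * x * y⁻¹) := by
  have := MonoidHom.isOfFinOrder (MulAut.conj y).toMonoidHom h
  exact this

theorem fin_aut {N : Type} [Group N] {x : N} (φ : MulAut N) (h : IsOfFinOrder x) :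
    IsOfFinOrder (φ x) := MonoidHom.isOfFinOrder φ.toMonoidHom h

theorem fin_sub {N : Type} [Group N] {A : Subgroup N} {x : A} :
    IsOfFinOrder x ↔ IsOfFinOrder (x : N) := by
  constructor
  · intro h
    exact MonoidHom.isOfFinOrder A.subtype h
  · intro h
    obtain ⟨n, hn, hx⟩ := isOfFinOrder_iff_pow_eq_one.1 h
    exact isOfFinOrder_iff_pow_eq_one.2 ⟨n, hn, Subtype.ext (by push_cast; exact hx)⟩

theorem fintor_pow {N : Type} [Group N] (h : FinTor N) (φ : MulAut N) :
    ∃ k : ℕ, 0 < k ∧ ∀ x : N, IsOfFinOrder x → ∃ y : N, (φ ^ k) x = y * x * y⁻¹ := by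
  obtain ⟨S, hS, hx⟩ := h
  have hfin : {c : ConjClasses N | ∃ x, IsOfFinOrder x ∧ ConjClasses.mk x = c}.Finite := by
    refine (hS.image ConjClasses.mk).subset ?_
    rintro c ⟨x, h1, rfl⟩
    obtain ⟨y, hy⟩ := hx x h1
    exact ⟨_, hy, ConjClasses.mk_eq_mk_iff_isConj.2 (isConj_iff.2 ⟨y⁻¹, by group⟩)⟩
  have : Finite {c : ConjClasses N | ∃ x, IsOfFinOrder x ∧ ConjClasses.mk x = c} := hfin
  let F : ℕ → {c : ConjClasses N | ∃ x, IsOfFinOrder x ∧ ConjClasses.mk x = c} →
      {c : ConjClasses N | ∃ x, IsOfFinOrder x ∧ ConjClasses.mk x = c} := fun n c =>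
    ⟨ConjClasses.map (φ ^ n).toMonoidHom c.1, by
      obtain ⟨x, h1, h2⟩ := c.2
      refine ⟨(φ ^ n) x, fin_aut _ h1, ?_⟩
      rw [← h2]
      rfl⟩
  have key : ∀ i j : ℕ, i < j → F i = F j → ∃ k : ℕ, 0 < k ∧ ∀ x : N, IsOfFinOrder x →
      ∃ y : N, (φ ^ k) x = y * x * y⁻¹ := by
    intro i j hij hF
    refine ⟨j - i, by omega, fun x h1 => ?_⟩
    have h2 := congrFun hF ⟨ConjClasses.mk (((φ ^ i)⁻¹ : MulAut N) x), _, fin_aut _ h1, rfl⟩
    have h3 : ConjClasses.mk ((φ ^ i) (((φ ^ i)⁻¹ : MulAut N) x)) =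
        ConjClasses.mk ((φ ^ j) (((φ ^ i)⁻¹ : MulAut N) x)) := congrArg Subtype.val h2
    rw [MulAut.apply_inv_self] at h3
    have h4 : (φ ^ j) (((φ ^ i)⁻¹ : MulAut N) x) = (φ ^ (j - i)) x := by
      have h5 : φ ^ j = φ ^ (j - i) * φ ^ i := by rw [← pow_add, Nat.sub_add_cancel hij.le]
      rw [h5, MulAut.mul_apply, MulAut.apply_inv_self]
    rw [h4, ConjClasses.mk_eq_mk_iff_isConj, isConj_iff] at h3
    obtain ⟨c, hc⟩ := h3
    exact ⟨c, hc.symm⟩
  obtain ⟨i, j, hij, hF⟩ := Finite.exists_ne_map_eq_of_infinite F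
  rcases lt_or_gt_of_ne hij with h1 | h1
  · exact key i j h1 hF
  · exact key j i h1 hF.symm

theorem vchar_of_tor {N : Type} [Group N] (h : FinTor N) {T : Set N}
    (hT : ∀ x ∈ T, IsOfFinOrder x) : VChar (Subgroup.normalClosure T) := by
  intro φ
  obtain ⟨k, hk, h1⟩ := fintor_pow h φ
  refine ⟨k, hk, ?_⟩
  have h2 : Subgroup.normalClosure T ≤
      (Subgroup.normalClosure T).comap (φ ^ k).toMonoidHom := by
    refine Subgroup.normalClosure_le_normal fun x hx => ?_
    obtain ⟨y, hy⟩ := h1 x (hT x hx)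
    show (φ ^ k) x ∈ Subgroup.normalClosure T
    rw [hy]
    exact Subgroup.normalClosure_normal.conj_mem x (Subgroup.subset_normalClosure hx) y
  have h3 : Subgroup.normalClosure T ≤
      (Subgroup.normalClosure T).comap ((φ ^ k)⁻¹ : MulAut N).toMonoidHom := by
    refine Subgroup.normalClosure_le_normal fun x hx => ?_
    obtain ⟨y, hy⟩ := h1 _ (fin_aut ((φ ^ k)⁻¹ : MulAut N) (hT x hx))
    rw [MulAut.apply_inv_self] at hy
    show ((φ ^ k)⁻¹ : MulAut N) x ∈ Subgroup.normalClosure T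
    have h4 := Subgroup.normalClosure_normal.conj_mem x (Subgroup.subset_normalClosure hx) y⁻¹
    have h5 : y⁻¹ * x * y⁻¹⁻¹ = ((φ ^ k)⁻¹ : MulAut N) x := by
      conv_lhs => rw [hy]
      group
    rwa [h5] at h4
  intro x
  refine ⟨fun hx => h2 hx, fun hx => ?_⟩
  have h4 := h3 hx
  have h5 : ((φ ^ k)⁻¹ : MulAut N) ((φ ^ k) x) = x := MulAut.inv_apply_self _ _ _
  have h6 : ((φ ^ k)⁻¹ : MulAut N) ((φ ^ k) x) ∈ Subgroup.normalClosure T := h4
  rwa [h5] at h6

/-- the class of kernels -/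
structure Good (C : ∀ (G : Type) [Group G], Prop) (N : Type) [Group N] : Prop where
  gen : TorGen N
  tor : FinTor N
  ext : Ext C N

theorem torgen_equiv {N N' : Type} [Group N] [Group N'] (e : N ≃* N') (h : TorGen N) :
    TorGen N' := by
  rw [TorGen, eq_top_iff]
  have h1 : (⊤ : Subgroup N') = (⊤ : Subgroup N).map e.toMonoidHom :=
    (Subgroup.map_top_of_surjective _ e.surjective).symm
  rw [h1, ← h, MonoidHom.map_closure]
  refine Subgroup.closure_mono ?_
  rintro _ ⟨x, hx, rfl⟩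
  exact MonoidHom.isOfFinOrder e.toMonoidHom hx

theorem fintor_equiv {N N' : Type} [Group N] [Group N'] (e : N ≃* N') (h : FinTor N) :
    FinTor N' := by
  obtain ⟨S, hS, h1⟩ := h
  refine ⟨e '' S, hS.image _, fun x hx => ?_⟩
  obtain ⟨y, hy⟩ := h1 (e.symm x) (MonoidHom.isOfFinOrder e.symm.toMonoidHom hx)
  exact ⟨e y, _, hy, by simp⟩

theorem Good.equiv {N N' : Type} [Group N] [Group N'] (e : N ≃* N') (h : Good C N) : Good C N' :=
  ⟨torgen_equiv e h.gen, fintor_equiv e h.tor, ext_equiv e h.ext⟩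

theorem ext_finite (hC : ClosedE C) (N : Type) [Group N] [Finite N] : Ext C N := by
  have : Finite (MulAut N) := Finite.of_injective (fun φ : MulAut N => (φ : N → N))
    (fun a b h => MulEquiv.ext fun x => congrFun h x)
  refine ext_of_pow hC (fun φ => φ = 1) (fun φ => ⟨orderOf φ, orderOf_pos φ, pow_orderOf_eq_one φ⟩) ?_
  rintro φ rfl
  let f : N ⋊[zpowersHom (MulAut N) 1] Multiplicative ℤ →* N × Multiplicative ℤ :=
    { toFun := fun x => (x.left, x.right)
      map_one' := rfl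
      map_mul' := fun a b => by
        refine Prod.ext ?_ rfl
        show a.left * (zpowersHom (MulAut N) 1 a.right) b.left = a.left * b.left
        rw [zpowersHom_apply, one_zpow]
        rfl }
  refine hC.base.of_injective _ _ f ?_
    (hC.base.prod _ _ (Pool.Agent.Y430.SS.of_finite hC.base _ inferInstance) hC.base.int)
  intro a b hab
  exact SemidirectProduct.ext (congrArg Prod.fst hab) (congrArg Prod.snd hab)

theorem good_finite (hC : ClosedE C) (N : Type) [Group N] [Finite N] : Good C N := by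
  refine ⟨?_, ⟨Set.univ, Set.finite_univ, fun x _ => ⟨1, Set.mem_univ _⟩⟩, ext_finite hC N⟩
  rw [TorGen, eq_top_iff]
  intro x _
  exact Subgroup.subset_closure (isOfFinOrder_of_finite x)

/-- two homomorphisms whose kernels are generated by elements of finite order -/
theorem ext_of_homs (hC : ClosedE C) (hF : FbC C) {N P1 P2 : Type} [Group N] [Group P1] [Group P2]
    (hN : FinTor N) (r1 : N →* P1) (r2 : N →* P2) (hs1 : Function.Surjective r1)
    (hs2 : Function.Surjective r2) {T1 T2 : Set N} (hT1 : ∀ x ∈ T1, IsOfFinOrder x)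
    (hT2 : ∀ x ∈ T2, IsOfFinOrder x) (hk1 : r1.ker = Subgroup.normalClosure T1)
    (hk2 : r2.ker = Subgroup.normalClosure T2) (hE1 : Ext C P1) (hE2 : Ext C P2)
    (hfree : IsFreeGroup ↥(r1.ker ⊓ r2.ker)) : Ext C N := by
  refine ext_of_two hC hF (R1 := r1.ker) (R2 := r2.ker) ?_ ?_ ?_ ?_ hfree
  · rw [hk1]
    exact vchar_of_tor hN hT1
  · rw [hk2]
    exact vchar_of_tor hN hT2
  · exact ext_equiv (QuotientGroup.quotientKerEquivOfSurjective r1 hs1).symm hE1
  · exact ext_equiv (QuotientGroup.quotientKerEquivOfSurjective r2 hs2).symm hE2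

/-- kernels of retractions -/
theorem ker_eq {L P : Type} [Group L] [Group P] (r : L →* P) (s : P →* L) (T : Set L)
    (hT : ∀ t ∈ T, r t = 1) (hgen : (QuotientGroup.mk' (Subgroup.normalClosure T)).comp (s.comp r) =
      QuotientGroup.mk' (Subgroup.normalClosure T)) : r.ker = Subgroup.normalClosure T := by
  apply le_antisymm
  · intro x hx
    have h1 := DFunLike.congr_fun hgen x
    have h2 : QuotientGroup.mk' (Subgroup.normalClosure T) (s (r x)) =
        QuotientGroup.mk' (Subgroup.normalClosure T) x := h1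
    rw [MonoidHom.mem_ker.1 hx, map_one, map_one] at h2
    exact (QuotientGroup.eq_one_iff x).1 h2.symm
  · exact Subgroup.normalClosure_le_normal fun x hx => MonoidHom.mem_ker.2 (hT x hx)

theorem fintor_amg {N : Type} [Group N] {A B K : Subgroup N} (h : Amg A B K) (hA : FinTor A)
    (hB : FinTor B) : FinTor N := by
  obtain ⟨S, hS, h1⟩ := hA
  obtain ⟨S', hS', h2⟩ := hB
  refine ⟨(Subtype.val '' S) ∪ (Subtype.val '' S'), (hS.image _).union (hS'.image _), fun x hx => ?_⟩
  obtain ⟨n, hn⟩ := tor_conj h hx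
  have hxf : IsOfFinOrder (n⁻¹ * x * n) := by
    have := fin_conj n⁻¹ hx
    rwa [inv_inv] at this
  rcases hn with hn | hn
  · obtain ⟨y, hy⟩ := h1 ⟨_, hn⟩ (fin_sub.2 hxf)
    refine ⟨y * n⁻¹, Or.inl ⟨_, hy, ?_⟩⟩
    show (y : N) * (n⁻¹ * x * n) * (y : N)⁻¹ = _
    group
  · obtain ⟨y, hy⟩ := h2 ⟨_, hn⟩ (fin_sub.2 hxf)
    refine ⟨y * n⁻¹, Or.inr ⟨_, hy, ?_⟩⟩
    show (y : N) * (n⁻¹ * x * n) * (y : N)⁻¹ = _
    group

theorem torgen_amg {N : Type} [Group N] {A B K : Subgroup N} (h : Amg A B K) (hA : TorGen A)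
    (hB : TorGen B) : TorGen N := by
  have key : ∀ D : Subgroup N, TorGen D → D ≤ Subgroup.closure {x : N | IsOfFinOrder x} := by
    intro D hD
    have h1 : D = (⊤ : Subgroup D).map D.subtype := by
      rw [← MonoidHom.range_eq_map, Subgroup.range_subtype]
    rw [h1, ← hD, MonoidHom.map_closure]
    refine Subgroup.closure_mono ?_
    rintro _ ⟨x, hx, rfl⟩
    exact fin_sub.1 hx
  rw [TorGen, eq_top_iff, ← h.gen]
  exact sup_le (key A hA) (key B hB)

/-- **direct products** -/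
theorem Good.prod (hC : ClosedE C) (hF : FbC C) {P1 P2 : Type} [Group P1] [Group P2]
    (h1 : Good C P1) (h2 : Good C P2) : Good C (P1 × P2) := by
  have hfin : ∀ x : P1 × P2, IsOfFinOrder x → IsOfFinOrder x.1 ∧ IsOfFinOrder x.2 := fun x hx =>
    ⟨MonoidHom.isOfFinOrder (MonoidHom.fst P1 P2) hx, MonoidHom.isOfFinOrder (MonoidHom.snd P1 P2) hx⟩
  have hft : FinTor (P1 × P2) := by
    obtain ⟨S, hS, h3⟩ := h1.tor
    obtain ⟨S', hS', h4⟩ := h2.tor
    refine ⟨S ×ˢ S', hS.prod hS', fun x hx => ?_⟩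
    obtain ⟨y, hy⟩ := h3 x.1 (hfin x hx).1
    obtain ⟨y', hy'⟩ := h4 x.2 (hfin x hx).2
    exact ⟨(y, y'), hy, hy'⟩
  have hin1 : (MonoidHom.inl P1 P2).range ≤ Subgroup.closure {x : P1 × P2 | IsOfFinOrder x} := by
    rw [MonoidHom.range_eq_map, ← h1.gen, MonoidHom.map_closure]
    refine Subgroup.closure_mono ?_
    rintro _ ⟨x, hx, rfl⟩
    exact MonoidHom.isOfFinOrder (MonoidHom.inl P1 P2) hx
  have hin2 : (MonoidHom.inr P1 P2).range ≤ Subgroup.closure {x : P1 × P2 | IsOfFinOrder x} := by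
    rw [MonoidHom.range_eq_map, ← h2.gen, MonoidHom.map_closure]
    refine Subgroup.closure_mono ?_
    rintro _ ⟨x, hx, rfl⟩
    exact MonoidHom.isOfFinOrder (MonoidHom.inr P1 P2) hx
  refine ⟨?_, hft, ?_⟩
  · rw [TorGen, eq_top_iff]
    intro x _
    have h3 : x = (x.1, 1) * (1, x.2) := by ext <;> simp
    rw [h3]
    exact Subgroup.mul_mem _ (hin1 ⟨x.1, rfl⟩) (hin2 ⟨x.2, rfl⟩)
  · refine ext_of_homs hC hF hft (MonoidHom.fst P1 P2) (MonoidHom.snd P1 P2) Prod.fst_surjective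
      Prod.snd_surjective (T1 := MonoidHom.inr P1 P2 '' {x | IsOfFinOrder x})
      (T2 := MonoidHom.inl P1 P2 '' {x | IsOfFinOrder x}) ?_ ?_ ?_ ?_ h1.ext h2.ext ?_
    · rintro _ ⟨x, hx, rfl⟩
      exact MonoidHom.isOfFinOrder (MonoidHom.inr P1 P2) hx
    · rintro _ ⟨x, hx, rfl⟩
      exact MonoidHom.isOfFinOrder (MonoidHom.inl P1 P2) hx
    · apply le_antisymm
      · intro x hx
        have h3 : x = MonoidHom.inr P1 P2 x.2 := Prod.ext hx rfl
        rw [h3]
        have h4 : (MonoidHom.inr P1 P2).range ≤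
            Subgroup.closure (MonoidHom.inr P1 P2 '' {x | IsOfFinOrder x}) := by
          rw [MonoidHom.range_eq_map, ← h2.gen, MonoidHom.map_closure]
        exact Subgroup.closure_le_normalClosure (h4 ⟨x.2, rfl⟩)
      · refine Subgroup.normalClosure_le_normal ?_
        rintro _ ⟨x, hx, rfl⟩
        rfl
    · apply le_antisymm
      · intro x hx
        have h3 : x = MonoidHom.inl P1 P2 x.1 := Prod.ext rfl hx
        rw [h3]
        have h4 : (MonoidHom.inl P1 P2).range ≤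
            Subgroup.closure (MonoidHom.inl P1 P2 '' {x | IsOfFinOrder x}) := by
          rw [MonoidHom.range_eq_map, ← h1.gen, MonoidHom.map_closure]
        exact Subgroup.closure_le_normalClosure (h4 ⟨x.1, rfl⟩)
      · refine Subgroup.normalClosure_le_normal ?_
        rintro _ ⟨x, hx, rfl⟩
        rfl
    · have h3 : (MonoidHom.fst P1 P2).ker ⊓ (MonoidHom.snd P1 P2).ker = ⊥ := by
        rw [eq_bot_iff]
        rintro x ⟨h3, h4⟩
        exact Subgroup.mem_bot.2 (Prod.ext h3 h4)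
      rw [h3]
      exact IsFreeGroup.ofMulEquiv (MulEquiv.ofUnique (M := FreeGroup Empty) (N := (⊥ : Subgroup (P1 × P2))))

end Run7.h550.TK
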